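import Pool.Agent.Lib.DeQ.Defs

/-!
Module PhiS (110 lines). Applying a functional to the coefficients.
PROOFS. All by `coeff_phiS` and `MvPolynomial.ext`. `phiS_mul`: for `P = monomial` and `W = monomial`, additivity (`coeff_mul`, sum over the antidiagonal,
`φ (algebraMap z * a) = z * φ a`: `Algebra.smul_def`, `map_smul`). `phiS_deg`: the support of `phiS φ W` is contained in that of `W`
(`totalDegree_le_of_support_subset`). `phiT_evA`: additive; for `W = C a`: `phiT (1 ⊗ a) = φ a • 1`; for `W * X j`: `evA q (W * X j) = q j • evA q W`,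
`phiS (W * X j) = phiS W * X j` (`phiS_mul` with `P = X j`).
-/

set_option autoImplicit false

open MvPolynomial TensorProduct Pool.DeB

namespace Pool.DeQ

variable {A : Type*} [CommRing A] [Algebra ℂ A] {c : ℕ}

theorem phiS_add (φ : A →ₗ[ℂ] ℂ) (W W' : MvPolynomial (Fin c) A) :
    phiS φ (W + W') = phiS φ W + phiS φ W' := by
  ext β
  rw [coeff_add, coeff_phiS, coeff_phiS, coeff_phiS, coeff_add, map_add]

theorem phiS_mul (φ : A →ₗ[ℂ] ℂ) (P : MvPolynomial (Fin c) ℂ) (W : MvPolynomial (Fin c) A) :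
    phiS φ (map (algebraMap ℂ A) P * W) = P * phiS φ W := by
  classical
  ext β
  rw [coeff_phiS, coeff_mul, coeff_mul, map_sum]
  refine Finset.sum_congr rfl fun x _ => ?_
  rw [coeff_map, coeff_phiS, ← Algebra.smul_def, map_smul, smul_eq_mul]

theorem phiS_C_mul (φ : A →ₗ[ℂ] ℂ) (a : A) (P : MvPolynomial (Fin c) ℂ) :
    phiS φ (C a * map (algebraMap ℂ A) P) = C (φ a) * P := by
  ext β
  rw [coeff_phiS, coeff_C_mul, coeff_C_mul, coeff_map, mul_comm a, ← Algebra.smul_def, map_smul,
    smul_eq_mul, mul_comm]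

theorem phiS_deg (φ : A →ₗ[ℂ] ℂ) (W : MvPolynomial (Fin c) A) :
    (phiS φ W).totalDegree ≤ W.totalDegree := by
  refine Finset.sup_mono fun β hβ => ?_
  rw [mem_support_iff] at hβ ⊢
  intro h
  apply hβ
  rw [coeff_phiS, h, map_zero]

theorem phiT_evA (φ : A →ₗ[ℂ] ℂ) (q : Fin c → VV) (W : MvPolynomial (Fin c) A) :
    phiT φ (evA q W) = aeval q (phiS φ W) := by
  induction W using MvPolynomial.induction_on with
  | C a =>
    have h1 : evA q (C a : MvPolynomial (Fin c) A) = (1 : VV) ⊗ₜ[ℂ] a := by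
      simp [evA]
    have h2 : phiS φ (C a : MvPolynomial (Fin c) A) = C (φ a) := by
      have h := phiS_C_mul φ a (1 : MvPolynomial (Fin c) ℂ)
      rwa [map_one, mul_one, mul_one] at h
    rw [h1, h2, phiT_tmul, aeval_C, Algebra.algebraMap_eq_smul_one]
  | add p r hp hr =>
    rw [map_add, map_add, hp, hr, phiS_add, map_add]
  | mul_X p j hp =>
    have h1 : evA q (p * X j) = q j • evA q p := by
      have h3 : evA q (X j : MvPolynomial (Fin c) A) = algebraMap VV (VV ⊗[ℂ] A) (q j) := by
        simp [evA]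
      rw [map_mul, h3, mul_comm]
      exact (Algebra.smul_def (q j) (evA q p)).symm
    have h2 : phiS φ (p * X j) = X j * phiS φ p := by
      have h := phiS_mul φ (X j) p
      rwa [map_X, mul_comm] at h
    rw [h1, h2, map_smul, hp, map_mul, aeval_X, smul_eq_mul]

end Pool.DeQ
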