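import Mathlib

/-!
Module AdjMem (60 lines). Cramer: the entries of `adj(T_G) (T y)` are combinations of the maximal minors of `T`.
PROOF. `adjugate.mulVec b = cramer b` (`Matrix.cramer_eq_adjugate_mulVec`), and `cramer M b l = det (M.updateCol l b)`. `b = T y = ∑_p y_p • (column p)`;
`cramer M` is linear, so `cramer M b l = ∑_p y_p cramer M (column p) l`, and `(T_G).updateCol l (column p of T) = T.submatrix id (Function.update G l p)`.
-/

set_option autoImplicit false

namespace Pool.DeQ

theorem adj_mem {R κ : Type*} [CommRing R] [Fintype κ] {n : ℕ} (T : Matrix (Fin n) κ R)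
    (I : Ideal R) (hI : ∀ G : Fin n → κ, (T.submatrix id G).det ∈ I) (G : Fin n → κ) (y : κ → R)
    (l : Fin n) : (T.submatrix id G).adjugate.mulVec (T.mulVec y) l ∈ I := by
  classical
  rw [← Matrix.cramer_eq_adjugate_mulVec]
  have hT : T.mulVec y = ∑ p, y p • (fun i => T i p) := by
    funext i
    rw [Finset.sum_apply]
    simp only [Matrix.mulVec, dotProduct, Pi.smul_apply, smul_eq_mul]
    exact Finset.sum_congr rfl (fun p _ => mul_comm _ _)
  rw [hT, map_sum, Finset.sum_apply]
  refine Ideal.sum_mem _ (fun p _ => ?_)
  rw [map_smul, Pi.smul_apply, smul_eq_mul, Matrix.cramer_apply]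
  refine Ideal.mul_mem_left _ _ ?_
  have h1 : (T.submatrix id G).updateCol l (fun i => T i p) =
      T.submatrix id (Function.update G l p) := by
    ext i j
    rw [Matrix.updateCol_apply, Matrix.submatrix_apply, Matrix.submatrix_apply,
      Function.update_apply]
    split_ifs with h
    · rfl
    · rfl
  rw [h1]
  exact hI _

end Pool.DeQ
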