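import Pool.Agent.Lib.DeQ.Defs
import Pool.Agent.Lib.DeQ.AdjMem

/-!
Module YEst (130 lines). The estimate of the Cramer solutions at an arc.
PROOF. `b = finBasis ℂ A`, `T = (TT u).map (aeval q) : Matrix (Fin n) (Fin c × Fin n) VV`. By `hk` (`Ideal.mem_span_range_iff_exists_fun` or similar)
`1 ⊗ k = ∑_j (1 ⊗ u j - q j ⊗ 1) * y_j`, `y_j ∈ VV ⊗ A`; write `y_j = ∑_s y_js • (1 ⊗ b s)` in the basis `Algebra.TensorProduct.basis VV b`. Comparing coordinates:
`algebraMap (b.repr k r) = (T.mulVec y) r`. `adj_mem` with the ideal `span {t}` of `VV`: the entries of `(T_G).adjugate.mulVec (T.mulVec y)` are divisible by `t`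
(`(T.submatrix id G).det = aeval q (dG u G)`, `RingHom.map_det`). `evA q (YG u G k j) = ∑_{l, (G l).1 = j} (entry l) • (1 ⊗ b (G l).2)` where
entry `l` is the image under `aeval q` of `(TG u G).adjugate.mulVec (C ∘ repr k) l` (`RingHom.map_adjugate`; `evA q (map (algebraMap ℂ A) P) = algebraMap VV _ (aeval q P)`).
-/

set_option autoImplicit false

open MvPolynomial TensorProduct Pool.DeB

namespace Pool.DeQ

variable {A : Type*} [CommRing A] [Algebra ℂ A] [FiniteDimensional ℂ A]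

omit [FiniteDimensional ℂ A] in
private theorem evA_map {c : ℕ} (q : Fin c → VV) (P : MvPolynomial (Fin c) ℂ) :
    evA q (map (algebraMap ℂ A) P) = algebraMap VV (VV ⊗[ℂ] A) (aeval q P) := by
  induction P using MvPolynomial.induction_on with
  | C a =>
    rw [map_C, aeval_C]
    unfold evA
    rw [coe_eval₂Hom, eval₂_C]
    have h1 : (Algebra.TensorProduct.includeRight : A →ₐ[ℂ] VV ⊗[ℂ] A) (algebraMap ℂ A a) =
        algebraMap ℂ (VV ⊗[ℂ] A) a := AlgHom.commutes _ a
    have h2 : algebraMap ℂ (VV ⊗[ℂ] A) a = algebraMap VV (VV ⊗[ℂ] A) (algebraMap ℂ VV a) :=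
      IsScalarTower.algebraMap_apply ℂ VV (VV ⊗[ℂ] A) a
    exact h1.trans h2
  | add p r hp hr => rw [map_add, map_add, hp, hr, map_add, map_add]
  | mul_X p i hp =>
    rw [map_mul, map_mul, hp, map_X, map_mul, map_mul, aeval_X]
    congr 1
    unfold evA
    rw [coe_eval₂Hom, eval₂_X]

omit [FiniteDimensional ℂ A] in
private theorem evA_C {c : ℕ} (q : Fin c → VV) (a : A) :
    evA q (C a) = (1 : VV) ⊗ₜ[ℂ] a := by
  unfold evA
  rw [coe_eval₂Hom, eval₂_C]
  rfl

section gen

variable {R : Type*} [CommRing R] [Algebra ℂ R]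

/-- coordinates of a product -/
private theorem coord_mul {c : ℕ} (u : Fin c → A) (q : Fin c → R) (y : R ⊗[ℂ] A) (j : Fin c)
    (r : Fin (Module.finrank ℂ A)) :
    (Algebra.TensorProduct.basis R (Module.finBasis ℂ A)).repr
      (y * ((1 : R) ⊗ₜ[ℂ] u j - q j ⊗ₜ[ℂ] (1 : A))) r =
    ∑ s, (algebraMap ℂ R ((Module.finBasis ℂ A).repr (u j * Module.finBasis ℂ A s) r) -
      (if r = s then q j else 0)) *
      (Algebra.TensorProduct.basis R (Module.finBasis ℂ A)).repr y s := by
  classical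
  set b := Module.finBasis ℂ A with hb
  set B := Algebra.TensorProduct.basis R b with hB
  have h0 : y * ((1 : R) ⊗ₜ[ℂ] u j - q j ⊗ₜ[ℂ] (1 : A)) =
      ∑ s, B.repr y s • ((1 : R) ⊗ₜ[ℂ] (u j * b s) - q j ⊗ₜ[ℂ] (b s)) := by
    conv_lhs => rw [← B.sum_repr y]
    rw [Finset.sum_mul]
    refine Finset.sum_congr rfl fun s _ => ?_
    rw [smul_mul_assoc, hB, Algebra.TensorProduct.basis_apply, mul_sub,
      Algebra.TensorProduct.tmul_mul_tmul, Algebra.TensorProduct.tmul_mul_tmul, one_mul, mul_one,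
      one_mul, mul_comm (b s) (u j)]
  rw [h0, map_sum, Finsupp.finset_sum_apply]
  refine Finset.sum_congr rfl fun s _ => ?_
  rw [map_smul, Finsupp.smul_apply, map_sub, Finsupp.sub_apply, hB,
    Algebra.TensorProduct.basis_repr_tmul, Algebra.TensorProduct.basis_repr_tmul]
  rw [Finsupp.smul_apply, Finsupp.smul_apply, Finsupp.mapRange_apply, Finsupp.mapRange_apply,
    smul_eq_mul, smul_eq_mul, smul_eq_mul, one_mul, Module.Basis.repr_self_apply]
  have h1 : q j * algebraMap ℂ R (if s = r then 1 else 0) = if r = s then q j else 0 := by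
    by_cases h : r = s
    · rw [if_pos h, if_pos h.symm, map_one, mul_one]
    · rw [if_neg h, if_neg (fun h' => h h'.symm), map_zero, mul_zero]
  rw [h1, mul_comm]

private noncomputable def TTq {c : ℕ} (u : Fin c → A) (q : Fin c → R) :
    Matrix (Fin (Module.finrank ℂ A)) (Fin c × Fin (Module.finrank ℂ A)) R :=
  (TT u).map fun P => aeval q P

private theorem TTq_apply {c : ℕ} (u : Fin c → A) (q : Fin c → R)
    (r : Fin (Module.finrank ℂ A)) (p : Fin c × Fin (Module.finrank ℂ A)) :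
    TTq u q r p = algebraMap ℂ R ((Module.finBasis ℂ A).repr (u p.1 * Module.finBasis ℂ A p.2) r) -
      (if r = p.2 then q p.1 else 0) := by
  unfold TTq TT
  rw [Matrix.map_apply, Matrix.of_apply, map_sub, aeval_C]
  congr 1
  split_ifs
  · rw [aeval_X]
  · rw [map_zero]

private theorem TTq_sub {c : ℕ} (u : Fin c → A) (q : Fin c → R) (G : Gam A c) :
    (TTq u q).submatrix id G = (TG u G).map fun P => aeval q P := rfl

private theorem TTq_det {c : ℕ} (u : Fin c → A) (q : Fin c → R) (G : Gam A c) :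
    ((TTq u q).submatrix id G).det = aeval q (dG u G) := by
  rw [TTq_sub]
  exact (AlgHom.map_det (aeval q : MvPolynomial (Fin c) ℂ →ₐ[ℂ] R) (TG u G)).symm

private theorem TTq_adj {c : ℕ} (u : Fin c → A) (q : Fin c → R) (G : Gam A c) :
    ((TTq u q).submatrix id G).adjugate = (TG u G).adjugate.map fun P => aeval q P := by
  rw [TTq_sub]
  exact (AlgHom.map_adjugate (aeval q : MvPolynomial (Fin c) ℂ →ₐ[ℂ] R) (TG u G)).symm

private theorem core {c : ℕ} (u : Fin c → A) (q : Fin c → R) (t : R)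
    (ht : ∀ G : Gam A c, t ∣ aeval q (dG u G)) (k : A)
    (hk : (1 : R) ⊗ₜ[ℂ] k ∈ Ideal.span (Set.range (fun j : Fin c =>
      (1 : R) ⊗ₜ[ℂ] u j - q j ⊗ₜ[ℂ] (1 : A)))) (G : Gam A c)
    (l : Fin (Module.finrank ℂ A)) :
    ∃ z : R, aeval q ((TG u G).adjugate.mulVec
      (fun s => C ((Module.finBasis ℂ A).repr k s)) l) = t * z := by
  classical
  obtain ⟨y, hy⟩ := Ideal.mem_span_range_iff_exists_fun.mp hk
  let B := Algebra.TensorProduct.basis R (Module.finBasis ℂ A)
  let Y : Fin c × Fin (Module.finrank ℂ A) → R := fun p => B.repr (y p.1) p.2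
  have hTY : (TTq u q).mulVec Y = fun r => algebraMap ℂ R ((Module.finBasis ℂ A).repr k r) := by
    funext r
    have h1 : B.repr ((1 : R) ⊗ₜ[ℂ] k) r = algebraMap ℂ R ((Module.finBasis ℂ A).repr k r) := by
      rw [Algebra.TensorProduct.basis_repr_tmul, Finsupp.smul_apply, Finsupp.mapRange_apply,
        smul_eq_mul, one_mul]
    rw [← h1, ← hy, map_sum, Finsupp.finset_sum_apply]
    show ∑ p, TTq u q r p * Y p = _
    rw [Fintype.sum_prod_type]
    refine Finset.sum_congr rfl fun j _ => ?_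
    rw [coord_mul u q (y j) j r]
    refine Finset.sum_congr rfl fun s _ => ?_
    rw [TTq_apply]
  have hI : ∀ G : Gam A c, ((TTq u q).submatrix id G).det ∈ Ideal.span {t} := by
    intro G
    rw [TTq_det, Ideal.mem_span_singleton]
    exact ht G
  have h1 : aeval q ((TG u G).adjugate.mulVec
      (fun s => C ((Module.finBasis ℂ A).repr k s)) l) =
      ((TTq u q).submatrix id G).adjugate.mulVec ((TTq u q).mulVec Y) l := by
    rw [hTY, TTq_adj]
    simp only [Matrix.mulVec, dotProduct, map_sum, map_mul, aeval_C, Matrix.map_apply]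
  have h2 := adj_mem (TTq u q) (Ideal.span {t}) hI G Y l
  rw [Ideal.mem_span_singleton] at h2
  obtain ⟨z, hz⟩ := h2
  exact ⟨z, h1.trans hz⟩

end gen

theorem YG_est {c : ℕ} (u : Fin c → A) (q : Fin c → VV) (t : VV)
    (ht : ∀ G : Gam A c, t ∣ aeval q (dG u G)) (k : A)
    (hk : (1 : VV) ⊗ₜ[ℂ] k ∈ Ideal.span (Set.range (fun j : Fin c =>
      (1 : VV) ⊗ₜ[ℂ] u j - q j ⊗ₜ[ℂ] (1 : A)))) (G : Gam A c) (j : Fin c) :
    ∃ w : VV ⊗[ℂ] A, evA q (YG u G k j) = t • w := by
  classical
  have hent := fun l => core u q t ht k hk G l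
  choose z hz using hent
  refine ⟨∑ l : Fin (Module.finrank ℂ A), if (G l).1 = j then
    z l • ((1 : VV) ⊗ₜ[ℂ] Module.finBasis ℂ A (G l).2) else 0, ?_⟩
  unfold YG
  rw [map_sum, Finset.smul_sum]
  refine Finset.sum_congr rfl fun l _ => ?_
  by_cases h : (G l).1 = j
  · rw [if_pos h, if_pos h, map_mul, evA_map, evA_C, hz l, Algebra.algebraMap_eq_smul_one,
      smul_mul_assoc, one_mul, smul_smul]
  · rw [if_neg h, if_neg h, map_zero, smul_zero]

end Pool.DeQ
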