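import Pool.Agent.Lib.DeQ.Defs
import Pool.Agent.Lib.DeQ.PhiS
import Pool.Agent.Lib.DeQ.YEst

/-!
Module DDNear (90 lines). The estimate of `DD` at an arc.
PROOF. `evA q` is a ring homomorphism: `evA q (DDm u lam k).det = det (evA q (Yp u lam i (k i) j))` (`RingHom.map_det`). Each entry is `t • w_ij` (`YG_est` for the block and for all `G`;
`evA q (Yp ..) = ± q i • evA q (YG ..) + ∑_G lam • evA q (YG ..)`). So the determinant is `t^c • det w` (`Matrix.det_smul`; the entries are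
`algebraMap t * w_ij`), and `aeval q (phiS φ det) = phiT φ (t^c • _) = t^c * _` (`phiT_evA`, `VV`-linear).
-/

set_option autoImplicit false

open MvPolynomial TensorProduct Pool.DeB

namespace Pool.DeQ

variable {A : Type*} [CommRing A] [Algebra ℂ A] [FiniteDimensional ℂ A]

private theorem DDNear_entry {c : ℕ} (u : Fin c → A) (lam : Fin c × Gam A c → ℂ)
    (q : Fin c → VV) (t : VV) (ht : ∀ G : Gam A c, t ∣ aeval q (dG u G)) (k : A)
    (hk : (1 : VV) ⊗ₜ[ℂ] k ∈ Ideal.span (Set.range (fun j : Fin c =>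
      (1 : VV) ⊗ₜ[ℂ] u j - q j ⊗ₜ[ℂ] (1 : A)))) (i j : Fin c) :
    algebraMap VV (VV ⊗[ℂ] A) t ∣ evA q (Yp u lam i k j) := by
  have h1 : ∀ G : Gam A c, algebraMap VV (VV ⊗[ℂ] A) t ∣ evA q (YG u G k j) := by
    intro G
    obtain ⟨w, hw⟩ := YG_est u q t ht k hk G j
    exact ⟨w, hw.trans (Algebra.smul_def t w)⟩
  unfold Yp
  rw [map_add, map_mul, map_sum]
  refine dvd_add (Dvd.dvd.mul_left (h1 _) _) (Finset.dvd_sum fun G _ => ?_)
  rw [map_mul]
  exact Dvd.dvd.mul_left (h1 _) _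

theorem DD_near {c : ℕ} (u : Fin c → A) (lam : Fin c × Gam A c → ℂ) (k : Fin c → A)
    (q : Fin c → VV) (t : VV) (ht : ∀ G : Gam A c, t ∣ aeval q (dG u G))
    (hk : ∀ i, (1 : VV) ⊗ₜ[ℂ] k i ∈ Ideal.span (Set.range (fun j : Fin c =>
      (1 : VV) ⊗ₜ[ℂ] u j - q j ⊗ₜ[ℂ] (1 : A)))) (φ : A →ₗ[ℂ] ℂ) :
    t ^ c ∣ aeval q (phiS φ (DDm u lam k).det) := by
  rw [← phiT_evA, RingHom.map_det]
  have h1 : ∀ i j : Fin c, ∃ w : VV ⊗[ℂ] A,
      evA q (Yp u lam i (k i) j) = algebraMap VV (VV ⊗[ℂ] A) t * w :=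
    fun i j => DDNear_entry u lam q t ht (k i) (hk i) i j
  choose w hw using h1
  have h2 : (evA q).mapMatrix (DDm u lam k) =
      algebraMap VV (VV ⊗[ℂ] A) t • Matrix.of fun i j => w i j := by
    ext i j
    rw [RingHom.mapMatrix_apply, Matrix.map_apply, Matrix.smul_apply, Matrix.of_apply, smul_eq_mul]
    exact hw i j
  rw [h2, Matrix.det_smul, Fintype.card_fin, ← map_pow, ← Algebra.smul_def, map_smul, smul_eq_mul]
  exact Dvd.intro _ rfl

end Pool.DeQ
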