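import Pool.Agent.Lib.DeB.Defs

/-!
Module Den (120 lines). Denominators of the solutions.
PROOF. As DeB/Mono.lean (copy the private lemmas `tw`, `tw_cf`, `tw_fix`, `chi_eq` with `M = 1`): `τ_k f = ∑ exp(2 π i k e) f_e t^e` is a ring
homomorphism of `Om` fixing `SM 1`, `τ_k = (τ_1)^k`. So the vectors `τ_k(q)` (`k = 0, ..., b`) are all in `S`, which has at most `b`
elements: two of them agree, `τ_k(q) = τ_l(q)`, `l < k`; with `h = k - l` every exponent `e` of every `q_j` satisfies
`exp(2πi k e) = exp(2πi l e)`, so `h e ∈ ℤ`: `q_j ∈ SM h` for all `j`.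
-/

set_option autoImplicit false

namespace Pool.DeQ

open Pool.DeB

private noncomputable def chi (N : ℕ) (e : ℝ) : ℂ :=
  Complex.exp ((N : ℂ) * (e : ℂ) * (2 * Real.pi * Complex.I))

private theorem chi_ne (N : ℕ) (e : ℝ) : chi N e ≠ 0 := Complex.exp_ne_zero _

private theorem chi_add (N : ℕ) (e e' : ℝ) : chi N (e + e') = chi N e * chi N e' := by
  unfold chi
  rw [← Complex.exp_add]
  congr 1
  push_cast
  ring

private noncomputable def tw0 (N : ℕ) (f : HahnSeries ℝ ℂ) : HahnSeries ℝ ℂ where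
  coeff e := chi N e * f.coeff e
  isPWO_support' := f.isPWO_support'.mono (by
    intro e he
    exact right_ne_zero_of_mul he)

private theorem tw0_coeff (N : ℕ) (f : HahnSeries ℝ ℂ) (e : ℝ) :
    (tw0 N f).coeff e = chi N e * f.coeff e := rfl

private theorem tw0_supp (N : ℕ) (f : HahnSeries ℝ ℂ) : (tw0 N f).support = f.support := by
  ext e
  rw [HahnSeries.mem_support, HahnSeries.mem_support, tw0_coeff, mul_ne_zero_iff]
  exact ⟨fun h => h.2, fun h => ⟨chi_ne N e, h⟩⟩

private theorem tw0_mul (N : ℕ) (f g : HahnSeries ℝ ℂ) : tw0 N (f * g) = tw0 N f * tw0 N g := by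
  ext e
  rw [tw0_coeff, HahnSeries.coeff_mul, HahnSeries.coeff_mul, Finset.mul_sum]
  refine Finset.sum_congr ?_ ?_
  · ext p
    rw [Finset.mem_antidiagonal, Finset.mem_antidiagonal, tw0_supp, tw0_supp]
  · intro p hp
    rw [Finset.mem_antidiagonal] at hp
    rw [tw0_coeff, tw0_coeff, ← hp.2.2, chi_add]
    ring

private noncomputable def tw (N : ℕ) : Om →+* Om where
  toFun f := tw0 N f
  map_one' := by
    apply Om_ext
    intro e
    change chi N e * cf (1 : Om) e = cf (1 : Om) e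
    have h := cf_alg 1 e
    rw [map_one] at h
    rw [h]
    by_cases he : e = 0
    · subst he
      simp [chi]
    · rw [if_neg he, mul_zero]
  map_mul' f g := tw0_mul N f g
  map_zero' := by
    apply Om_ext
    intro e
    change chi N e * cf (0 : Om) e = cf (0 : Om) e
    rw [cf_zero, mul_zero]
  map_add' f g := by
    apply Om_ext
    intro e
    change chi N e * cf (f + g) e = chi N e * cf f e + chi N e * cf g e
    rw [cf_add, mul_add]

private theorem tw_cf (N : ℕ) (f : Om) (e : ℝ) : cf (tw N f) e = chi N e * cf f e := rfl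

private theorem tw_fix {M j : ℕ} {f : Om} (hf : f ∈ SM M) : tw (M * j) f = f := by
  apply Om_ext
  intro e
  rw [tw_cf]
  by_cases h : cf f e = 0
  · rw [h, mul_zero]
  · obtain ⟨k, hk⟩ := hf e h
    have h1 : chi (M * j) e = 1 := by
      unfold chi
      have h2 : (((M * j : ℕ) : ℂ) * (e : ℂ)) = ((k * j : ℤ) : ℂ) := by
        have h3 : ((M : ℂ) * (e : ℂ)) = (k : ℂ) := by exact_mod_cast congrArg Complex.ofReal hk
        push_cast
        rw [← h3]
        ring
      rw [h2]
      exact Complex.exp_int_mul_two_pi_mul_I _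
    rw [h1, one_mul]

private theorem chi_eq {M j j' : ℕ} {e : ℝ} (h : chi (M * j) e = chi (M * j') e) (hj : j' ≤ j) :
    ∃ k : ℤ, ((M * (j - j') : ℕ) : ℝ) * e = k := by
  unfold chi at h
  obtain ⟨n, hn⟩ := Complex.exp_eq_exp_iff_exists_int.1 h
  refine ⟨n, ?_⟩
  have h2 : (2 * Real.pi * Complex.I : ℂ) ≠ 0 := Complex.two_pi_I_ne_zero
  have h3 : (((M * j : ℕ) : ℂ) * (e : ℂ) - ((M * j' : ℕ) : ℂ) * (e : ℂ) - (n : ℂ)) *
      (2 * Real.pi * Complex.I : ℂ) = 0 := by
    linear_combination hn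
  have h4 := (mul_eq_zero.1 h3).resolve_right h2
  have h5 : (((M * (j - j') : ℕ) : ℝ) * e : ℝ) = ((n : ℝ)) := by
    have h6 : ((((M * (j - j') : ℕ) : ℝ) * e : ℝ) : ℂ) = ((n : ℝ) : ℂ) := by
      push_cast [Nat.cast_sub hj] at h4 ⊢
      linear_combination h4
    exact_mod_cast h6
  exact h5

theorem den_exists {c b : ℕ} (S : Set (Fin c → Om)) (hS : S.Finite) (hb : S.ncard ≤ b)
    (hinv : ∀ τ : Om →+* Om, (∀ f ∈ SM 1, τ f = f) → ∀ q ∈ S, (fun j => τ (q j)) ∈ S)
    (q : Fin c → Om) (hq : q ∈ S) : ∃ h : ℕ, 1 ≤ h ∧ h ≤ b ∧ ∀ j, q j ∈ SM h := by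
  classical
  have hroot : ∀ k, (fun j => tw (1 * k) (q j)) ∈ hS.toFinset := by
    intro k
    rw [Set.Finite.mem_toFinset]
    exact hinv (tw (1 * k)) (fun f hf => tw_fix hf) q hq
  have hcard : hS.toFinset.card < (Finset.range (b + 1)).card := by
    rw [Finset.card_range, ← Set.ncard_eq_toFinset_card S hS]
    omega
  obtain ⟨i, hi, i', hi', hii, he⟩ := Finset.exists_ne_map_eq_of_card_lt_of_maps_to hcard
    (f := fun k => fun j => tw (1 * k) (q j)) (fun k _ => hroot k)
  rw [Finset.mem_range] at hi hi'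
  have key : ∀ i i' : ℕ, i < b + 1 → i' < i →
      (fun j => tw (1 * i) (q j)) = (fun j => tw (1 * i') (q j)) →
      ∃ h : ℕ, 1 ≤ h ∧ h ≤ b ∧ ∀ j, q j ∈ SM h := by
    intro i i' hi hji he
    refine ⟨i - i', by omega, by omega, ?_⟩
    intro j e hne
    have h1 := congrArg (fun f => cf f e) (congrFun he j)
    simp only [tw_cf] at h1
    have h2 := chi_eq (mul_right_cancel₀ hne h1) hji.le
    rwa [one_mul] at h2
  rcases lt_or_gt_of_ne hii with h | h
  · exact key i' i hi' h he.symm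
  · exact key i i' hi h he

end Pool.DeQ
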