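import Mathlib

/-!
Module DerC (150 lines). Generic complex numbers and derivations of `ℂ`.
PROOF. `C0 = Subfield.closure T` (countable; or `IntermediateField.adjoin ℚ T`). `ℂ` has a transcendence basis `s : Set ℂ` over `C0`
(`exists_isTranscendenceBasis`), which is infinite: otherwise `ℂ` would be countable (`Algebra.IsAlgebraic.cardinalMk_le_max`,
`MvPolynomial` over a countable ring in finitely many variables and its fraction field are countable; `Cardinal.mk_complex`/
`not_countable_complex`). Choose an injection `ι → s` (`Finite ι`, `s` infinite), `lam i` = the image. DERIVATIONS: let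
`P = MvPolynomial s C0`, an algebra structure on `ℂ` by `aeval Subtype.val` (injective). `ℂ` is formally etale over `P`: `FractionRing P` is
(localisation, `Algebra.FormallyEtale.of_isLocalization`), `ℂ` is algebraic and separable over `FractionRing P` (characteristic `0`),
`Algebra.FormallyEtale.of_isSeparable`, `Algebra.FormallyEtale.comp`. So the derivation `P → ℂ` over `C0` with `X_a ↦ 1`, `X_b ↦ 0` for
`b ≠ a` (`MvPolynomial.mkDerivation`) extends to `ℂ`: `KaehlerDifferential.tensorKaehlerEquivOfFormallyEtale` (or similar; see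
`Mathlib.RingTheory.Etale.Kaehler`, `Derivation.liftOfFormallySmooth`...; `KaehlerDifferential.map` is an isomorphism
`ℂ ⊗[P] Ω[P⁄C0] ≃ Ω[ℂ⁄C0]`). Restrict scalars to `ℤ`. It vanishes on `C0 ⊇ T`. (See also Pool/Agent/Lib/MSF/GerB.lean for the extension of
derivations to an algebraic closure.)
-/

set_option autoImplicit false

namespace Pool.DeQ

private theorem ext_der {C R A : Type} [CommRing C] [CommRing R] [Algebra C R] [CommRing A]
    [Algebra C A] [Algebra R A] [IsScalarTower C R A] [Algebra.FormallyEtale R A]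
    (D₀ : Derivation C R A) :
    ∃ D' : Derivation C A A, ∀ r, D' (algebraMap R A r) = D₀ r := by
  let L : TensorProduct R A (Ω[R⁄C]) →ₗ[A] A := LinearMap.liftBaseChange A D₀.liftKaehlerDifferential
  let D' : Derivation C A A :=
    (L ∘ₗ (KaehlerDifferential.tensorKaehlerEquivOfFormallyEtale C R A).symm.toLinearMap).compDer
      (KaehlerDifferential.D C A)
  refine ⟨D', fun r => ?_⟩
  change L ((KaehlerDifferential.tensorKaehlerEquivOfFormallyEtale C R A).symm
      (KaehlerDifferential.D C A (algebraMap R A r))) = _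
  rw [KaehlerDifferential.tensorKaehlerEquivOfFormallyEtale_symm_D_algebraMap]
  simp only [L, LinearMap.liftBaseChange_tmul, one_smul, Derivation.liftKaehlerDifferential_comp_D]

private theorem der_of_basis {C : Type} [Field C] [Algebra C ℂ] {s : Set ℂ}
    (hs : IsTranscendenceBasis C ((↑) : s → ℂ)) (v : s → ℂ) :
    ∃ D : Derivation C ℂ ℂ, ∀ a : s, D (a : ℂ) = v a := by
  let P := MvPolynomial s C
  letI : Algebra P ℂ := (MvPolynomial.aeval (Subtype.val : s → ℂ)).toRingHom.toAlgebra
  haveI t1 : IsScalarTower C P ℂ := IsScalarTower.of_algebraMap_eq fun x => by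
    change _ = MvPolynomial.aeval (Subtype.val : s → ℂ) (MvPolynomial.C x)
    simp
  have hinj : Function.Injective (algebraMap P ℂ) := hs.1
  let K := FractionRing P
  letI : Algebra K ℂ := (IsFractionRing.lift (A := P) (K := K) hinj).toAlgebra
  haveI t2 : IsScalarTower P K ℂ := IsScalarTower.of_algebraMap_eq fun x =>
    (IsFractionRing.lift_algebraMap hinj x).symm
  haveI f2 : Algebra.FormallyEtale P K :=
    Algebra.FormallyEtale.of_isLocalization (nonZeroDivisors P)
  haveI alg0 : Algebra.IsAlgebraic (Algebra.adjoin C (Set.range (Subtype.val : s → ℂ))) ℂ :=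
    hs.isAlgebraic
  haveI alg1 : Algebra.IsAlgebraic P ℂ := by
    refine Algebra.IsAlgebraic.of_ringHom_of_comp_eq
      (S := Algebra.adjoin C (Set.range (Subtype.val : s → ℂ))) (B := ℂ)
      hs.1.aevalEquiv (RingHom.id ℂ) hs.1.aevalEquiv.surjective Function.injective_id
      (RingHom.ext fun x => ?_)
    change ((hs.1.aevalEquiv x : Algebra.adjoin C (Set.range (Subtype.val : s → ℂ))) : ℂ) =
      MvPolynomial.aeval (Subtype.val : s → ℂ) x
    simp
  haveI alg : Algebra.IsAlgebraic K ℂ :=
    (IsFractionRing.comap_isAlgebraic_iff (A := P) (K := K) (C := ℂ)).1 alg1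
  haveI cz : CharZero K := (algebraMap K ℂ).charZero
  haveI sep : Algebra.IsSeparable K ℂ := inferInstance
  haveI f4 : Algebra.FormallyEtale K ℂ := Algebra.FormallyEtale.of_isSeparable K ℂ
  haveI f5 : Algebra.FormallyEtale P ℂ := Algebra.FormallyEtale.comp P K ℂ
  obtain ⟨D, hD⟩ := ext_der (C := C) (R := P) (A := ℂ) (MvPolynomial.mkDerivation C v)
  refine ⟨D, fun a => ?_⟩
  have h := hD (MvPolynomial.X a)
  rw [MvPolynomial.mkDerivation_X] at h
  rw [← h]
  congr 1
  change _ = MvPolynomial.aeval (Subtype.val : s → ℂ) (MvPolynomial.X a)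
  simp

theorem exists_lam (T : Set ℂ) (hT : T.Countable) (ι : Type) [Finite ι] [DecidableEq ι] :
    ∃ (lam : ι → ℂ) (δ : ι → Derivation ℤ ℂ ℂ), (∀ i, ∀ a ∈ T, δ i a = 0) ∧
      ∀ i j, δ i (lam j) = if i = j then 1 else 0 := by
  classical
  let C0 := Subfield.closure T
  have hC0 : Cardinal.mk C0 ≤ Cardinal.aleph0 :=
    (Subfield.cardinalMk_closure_le_max T).trans
      (max_le (Cardinal.le_aleph0_iff_set_countable.2 hT) le_rfl)
  obtain ⟨s, hs⟩ := exists_isTranscendenceBasis C0 ℂ
  have hinf : Infinite s := by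
    by_contra hfin
    rw [not_infinite_iff_finite] at hfin
    have h1 := IsAlgClosed.cardinal_le_max_transcendence_basis' _ hs
    have h2 : Cardinal.mk ℂ ≤ Cardinal.aleph0 :=
      h1.trans (max_le (max_le hC0 Cardinal.mk_le_aleph0) le_rfl)
    rw [Cardinal.mk_complex] at h2
    exact absurd h2 (not_le.2 Cardinal.aleph0_lt_continuum)
  let e : ι ↪ s := (Finite.equivFin ι).toEmbedding.trans
    (Fin.valEmbedding.trans (Infinite.natEmbedding s))
  have hD : ∀ i : ι, ∃ D : Derivation C0 ℂ ℂ, ∀ a : s, D (a : ℂ) = if e i = a then 1 else 0 :=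
    fun i => der_of_basis hs _
  choose D hD using hD
  refine ⟨fun j => (e j : ℂ), fun i => (D i).restrictScalars ℤ, fun i a ha => ?_, fun i j => ?_⟩
  · have h := (D i).map_algebraMap ⟨a, Subfield.subset_closure ha⟩
    exact h
  · change D i (e j : ℂ) = _
    rw [hD]
    simp only [e.injective.eq_iff]

end Pool.DeQ
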