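import Pool.Agent.Lib.DeQ.Defs

/-!
Module DetTop (110 lines). Leading term of a determinant.
PROOF. `Matrix.det_apply`. For a permutation `s ≠ 1` there is an `i` with `s i ≠ i`: the factor `M (s i) i` has total degree `< m`,
all others `≤ m` (`C a * X^m` has total degree `≤ m`), so the product has total degree `< c * m`. For `s = 1`:
`∏ (C (a i) X_i^m + E_i) - ∏ C (a i) X_i^m` with `totalDegree E_i < m` has total degree `< c m` (telescoping / induction over a
`Finset`: `∏_{s} (P_i + E_i) - ∏_s P_i` has degree `< card s * m` if `s` is nonempty, and `0` if `s` is empty).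
`totalDegree_finset_prod_le`-like lemmas, `totalDegree_finset_sum`, `totalDegree_smul_le`, `totalDegree_sub`.
-/

set_option autoImplicit false

open MvPolynomial Pool.DeB

namespace Pool.DeQ

private theorem dt_tel {B : Type*} [CommRing B] {c m : ℕ} (P E : Fin c → MvPolynomial (Fin c) B)
    (hP : ∀ i, (P i).totalDegree ≤ m) (hE : ∀ i, (E i).totalDegree < m) (s : Finset (Fin c)) :
    s.Nonempty → (∏ i ∈ s, (P i + E i) - ∏ i ∈ s, P i).totalDegree < s.card * m := by
  classical
  induction s using Finset.induction_on with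
  | empty => exact fun h => absurd h Finset.not_nonempty_empty
  | insert a s ha ih =>
    intro _
    have hPE : (P a + E a).totalDegree ≤ m :=
      (totalDegree_add _ _).trans (max_le (hP a) (hE a).le)
    have hpr : (∏ i ∈ s, P i).totalDegree ≤ s.card * m := by
      refine (totalDegree_finsetProd _ _).trans ?_
      calc ∑ i ∈ s, (P i).totalDegree ≤ ∑ _i ∈ s, m := Finset.sum_le_sum (fun i _ => hP i)
        _ = s.card * m := by rw [Finset.sum_const, smul_eq_mul]
    have e : ∏ i ∈ insert a s, (P i + E i) - ∏ i ∈ insert a s, P i =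
        (P a + E a) * (∏ i ∈ s, (P i + E i) - ∏ i ∈ s, P i) + E a * ∏ i ∈ s, P i := by
      rw [Finset.prod_insert ha, Finset.prod_insert ha]
      ring
    have hcm : (s.card + 1) * m = s.card * m + m := by ring
    rw [e, Finset.card_insert_of_notMem ha, hcm]
    refine lt_of_le_of_lt (totalDegree_add _ _) (max_lt ?_ ?_)
    · rcases s.eq_empty_or_nonempty with rfl | hs
      · have := hE a
        simp only [Finset.prod_empty, sub_self, mul_zero, totalDegree_zero, Finset.card_empty]
        omega
      · have h1 := ih hs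
        have h2 := totalDegree_mul (P a + E a) (∏ i ∈ s, (P i + E i) - ∏ i ∈ s, P i)
        omega
    · have h2 := totalDegree_mul (E a) (∏ i ∈ s, P i)
      have := hE a
      omega

theorem det_top {B : Type*} [CommRing B] {c m : ℕ} (hc : 1 ≤ c) (hm : 1 ≤ m)
    (M : Matrix (Fin c) (Fin c) (MvPolynomial (Fin c) B)) (a : Fin c → B)
    (hM : ∀ i j, (M i j - (if i = j then C (a i) * X i ^ m else 0)).totalDegree < m) :
    (M.det - C (∏ i, a i) * ∏ i, X i ^ m).totalDegree < c * m := by
  classical
  have hmon : ∀ i : Fin c, (C (a i) * X i ^ m : MvPolynomial (Fin c) B).totalDegree ≤ m := by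
    intro i
    rw [C_mul_X_pow_eq_monomial]
    refine (totalDegree_monomial_le _ _).trans (le_of_eq ?_)
    rw [Finsupp.sum_single_index rfl]
    rfl
  have hle : ∀ i j, (M i j).totalDegree ≤ m := by
    intro i j
    have e : M i j = (M i j - (if i = j then C (a i) * X i ^ m else 0)) +
        (if i = j then C (a i) * X i ^ m else 0) := by ring
    rw [e]
    refine (totalDegree_add _ _).trans (max_le (hM i j).le ?_)
    split_ifs
    · exact hmon i
    · simp
  have hlt : ∀ i j, i ≠ j → (M i j).totalDegree < m := by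
    intro i j hij
    have h := hM i j
    rwa [if_neg hij, sub_zero] at h
  have hcard : (Finset.univ : Finset (Fin c)).card = c := by simp
  have hdiag : (∏ i, M i i - C (∏ i, a i) * ∏ i, X i ^ m).totalDegree < c * m := by
    have : Nonempty (Fin c) := ⟨⟨0, hc⟩⟩
    have h1 := dt_tel (fun i => C (a i) * X i ^ m) (fun i => M i i - C (a i) * X i ^ m) hmon
      (fun i => by
        have h := hM i i
        rwa [if_pos rfl] at h) Finset.univ Finset.univ_nonempty
    rw [hcard] at h1
    have e1 : ∏ i : Fin c, (C (a i) * X i ^ m + (M i i - C (a i) * X i ^ m)) = ∏ i, M i i :=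
      Finset.prod_congr rfl (fun i _ => by ring)
    have e2 : ∏ i : Fin c, (C (a i) * X i ^ m : MvPolynomial (Fin c) B) =
        C (∏ i, a i) * ∏ i, X i ^ m := by
      rw [Finset.prod_mul_distrib, map_prod]
    rw [e1, e2] at h1
    exact h1
  rw [Matrix.det_apply, ← Finset.add_sum_erase _ _ (Finset.mem_univ (1 : Equiv.Perm (Fin c)))]
  have e3 : Equiv.Perm.sign (1 : Equiv.Perm (Fin c)) • ∏ i, M ((1 : Equiv.Perm (Fin c)) i) i =
      ∏ i, M i i := by simp
  rw [e3]
  have e4 : ∀ x y z : MvPolynomial (Fin c) B, x + y - z = (x - z) + y := fun x y z => by ring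
  rw [e4]
  refine lt_of_le_of_lt (totalDegree_add _ _) (max_lt hdiag ?_)
  refine lt_of_le_of_lt (totalDegree_finsetSum _ _) ?_
  rw [Finset.sup_lt_iff (by
    show 0 < c * m
    positivity)]
  intro σ hσ
  have hσ1 : σ ≠ 1 := Finset.ne_of_mem_erase hσ
  have hex : ∃ i, σ i ≠ i := by
    by_contra h
    push Not at h
    exact hσ1 (Equiv.ext h)
  obtain ⟨i₀, hi₀⟩ := hex
  have h5 : (∏ i, M (σ i) i).totalDegree < c * m := by
    refine lt_of_le_of_lt (totalDegree_finsetProd _ _) ?_
    calc ∑ i, (M (σ i) i).totalDegree < ∑ _i : Fin c, m :=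
          Finset.sum_lt_sum (fun i _ => hle _ _) ⟨i₀, Finset.mem_univ _, hlt _ _ hi₀⟩
      _ = c * m := by rw [Finset.sum_const, hcard, smul_eq_mul]
  rcases Int.units_eq_one_or (Equiv.Perm.sign σ) with h | h
  · rw [h, one_smul]
    exact h5
  · rw [h, Units.neg_smul, one_smul, totalDegree_neg]
    exact h5

end Pool.DeQ
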