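import Pool.Agent.Lib.DeQ.Defs

/-!
Module Quot (130 lines). Difference quotients.
PROOF. It is enough to treat monomials of degree `≤ d` (all three properties are additive in `F` and compatible with constants; write `F` as
the sum of its monomials, `totalDegree F ≤ d`). For a monomial by induction on the degree: `X_i M = C q_i C (M(q)) + M (X_i - C q_i) +
C q_i (M - C (M(q)))`, so `a_j (X_i M) = δ_ij M + C q_i a_j(M)`: degree `≤ |M| = |X_i M| - 1`; evaluated at `q`:
`δ_ij M(q) + q_i ∂_j M (q) = ∂_j (X_i M) (q)`. For `d = 0` the polynomial is constant and `a = 0` works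
(with the monomial version: degree `≤ |α| - 1` if `|α| ≥ 1`, `a = 0` if `α = 0`).
-/

set_option autoImplicit false

open MvPolynomial Pool.DeB

namespace Pool.DeQ

private theorem quot_mono {B : Type*} [CommRing B] {c : ℕ} (q : Fin c → B) (n : ℕ) :
    ∀ α : Fin c →₀ ℕ, α.degree = n →
    ∃ a : Fin c → MvPolynomial (Fin c) B, (∀ j, (a j).totalDegree ≤ n - 1) ∧
      monomial α (1 : B) = C (eval q (monomial α (1 : B))) + ∑ j, a j * (X j - C (q j)) ∧
      ∀ j, eval q (a j) = eval q (pderiv j (monomial α (1 : B))) := by
  classical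
  induction n with
  | zero =>
    intro α hα
    have h0 : α = 0 := by
      rwa [Finsupp.degree_eq_zero_iff] at hα
    subst h0
    refine ⟨fun _ => 0, fun j => by simp, by simp, fun j => ?_⟩
    rw [monomial_zero', pderiv_C]

  | succ n ih =>
    intro α hα
    have hne : α ≠ 0 := by
      rintro rfl
      simp at hα
    obtain ⟨i, hi⟩ := Finsupp.ne_iff.1 hne
    rw [Finsupp.coe_zero, Pi.zero_apply] at hi
    obtain ⟨β, hβ⟩ : ∃ β : Fin c →₀ ℕ, α = β + Finsupp.single i 1 := by
      refine ⟨α - Finsupp.single i 1, ?_⟩
      rw [tsub_add_cancel_of_le]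
      rw [Finsupp.single_le_iff]
      omega
    have hβd : β.degree = n := by
      rw [hβ, map_add, Finsupp.degree_single] at hα
      omega
    obtain ⟨a, ha1, ha2, ha3⟩ := ih β hβd
    have hM : monomial α (1 : B) = monomial β (1 : B) * X i := by
      rw [hβ, monomial_add_single, pow_one]
    refine ⟨fun j => (if j = i then monomial β (1 : B) else 0) + C (q i) * a j, ?_, ?_, ?_⟩
    · intro j
      refine (totalDegree_add _ _).trans (max_le ?_ ?_)
      · split_ifs
        · refine (totalDegree_monomial_le _ _).trans ?_
          change β.degree ≤ _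
          omega
        · simp
      · refine (totalDegree_mul _ _).trans ?_
        rw [totalDegree_C, zero_add]
        exact (ha1 j).trans (by omega)
    · have e1 : ∑ j, ((if j = i then monomial β (1 : B) else 0) + C (q i) * a j) *
          (X j - C (q j)) = monomial β (1 : B) * (X i - C (q i)) +
          C (q i) * ∑ j, a j * (X j - C (q j)) := by
        rw [Finset.mul_sum]
        simp only [add_mul, Finset.sum_add_distrib, ite_mul, zero_mul, Finset.sum_ite_eq',
          Finset.mem_univ, if_true, mul_assoc]
      have e2 : ∑ j, a j * (X j - C (q j)) =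
          monomial β (1 : B) - C (eval q (monomial β (1 : B))) :=
        eq_sub_of_add_eq' ha2.symm
      rw [e1, e2, hM, map_mul, eval_X, map_mul]
      ring
    · intro j
      rw [hM, map_add, map_mul, eval_C, ha3, Derivation.leibniz, pderiv_X]
      by_cases hij : j = i
      · subst hij
        simp
      · rw [if_neg hij, Pi.single_eq_of_ne (Ne.symm hij)]
        simp

theorem quot_exists {B : Type*} [CommRing B] {c : ℕ} (q : Fin c → B)
    (F : MvPolynomial (Fin c) B) (d : ℕ) (hF : F.totalDegree ≤ d) :
    ∃ a : Fin c → MvPolynomial (Fin c) B, (∀ j, (a j).totalDegree ≤ d - 1) ∧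
      F = C (eval q F) + ∑ j, a j * (X j - C (q j)) ∧
      ∀ j, eval q (a j) = eval q (pderiv j F) := by
  classical
  choose a ha1 ha2 ha3 using fun α : Fin c →₀ ℕ => quot_mono q α.degree α rfl
  have hF2 : F = ∑ α ∈ F.support, C (coeff α F) * monomial α (1 : B) := by
    conv_lhs => rw [F.as_sum]
    refine Finset.sum_congr rfl fun α _ => ?_
    rw [C_mul_monomial, mul_one]
  refine ⟨fun j => ∑ α ∈ F.support, C (coeff α F) * a α j, ?_, ?_, ?_⟩
  · intro j
    refine (totalDegree_finsetSum _ _).trans (Finset.sup_le fun α hα => ?_)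
    refine (totalDegree_mul _ _).trans ?_
    rw [totalDegree_C, zero_add]
    refine (ha1 α j).trans ?_
    have : α.degree ≤ d := (le_totalDegree hα).trans hF
    omega
  · have e1 : ∑ j, (∑ α ∈ F.support, C (coeff α F) * a α j) * (X j - C (q j)) =
        ∑ α ∈ F.support, C (coeff α F) * ∑ j, a α j * (X j - C (q j)) := by
      simp only [Finset.sum_mul, Finset.mul_sum, mul_assoc]
      rw [Finset.sum_comm]
    have e2 : (C (eval q F) : MvPolynomial (Fin c) B) = ∑ α ∈ F.support, C (coeff α F) *
        C (eval q (monomial α (1 : B))) := by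
      conv_lhs => rw [hF2]
      simp only [map_sum, map_mul, eval_C]
    rw [e1, e2, ← Finset.sum_add_distrib]
    conv_lhs => rw [hF2]
    refine Finset.sum_congr rfl fun α _ => ?_
    rw [← mul_add]
    exact congrArg _ (ha2 α)
  · intro j
    conv_rhs => rw [hF2]
    simp only [map_sum, map_mul, eval_C, ha3]
    refine Finset.sum_congr rfl fun α _ => ?_
    rw [Derivation.leibniz, pderiv_C]
    simp

end Pool.DeQ
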