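import Pool.Agent.Lib.DeQ.Defs
import Pool.Agent.Lib.DeQ.DetTop
import Pool.Agent.Lib.DeQ.Quot

/-!
Module Del (130 lines). The determinant of the difference quotients.
PROOF. `low_i = f_i - X_i^D`, total degree `≤ D - 1`; `quot_exists q low_i (D-1)` gives `a_ij` of degree `≤ D - 2 < D - 1`.
`X_i^D - C q_i^D = g_i * (X_i - C q_i)`, `g_i = ∑_{k<D} X_i^k (C q_i)^(D-1-k)` (`Commute.geom_sum₂_mul` or `geom_sum₂`), `g_i - X_i^(D-1)` has
total degree `< D - 1` and `eval q g_i = D q_i^(D-1)`. `M i j = a_ij + δ_ij g_i`; then `∑_j M i j (X_j - C q_j) = f_i - C (eval q f_i) = f_i`,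
`eval q (M i j) = eval q (pderiv j (f i))`. `E = M.det`: Cramer (`Matrix.adjugate_mul`): `(X_j - C q_j) E = ∑_i adj_ji f_i` is in the
ideal; `eval q E = det` by `RingHom.map_det`; degree: `det_top` with `m = D - 1`, `a = 1`.
-/

set_option autoImplicit false

open MvPolynomial Pool.DeB

namespace Pool.DeQ

theorem del_exists {B : Type*} [CommRing B] {c D : ℕ} (hc : 1 ≤ c) (hD : 2 ≤ D)
    (f : Fin c → MvPolynomial (Fin c) B) (hf : IsSys D f) (q : Fin c → B)
    (hq : ∀ i, eval q (f i) = 0) :
    ∃ E : MvPolynomial (Fin c) B, (∀ j, (X j - C (q j)) * E ∈ Ideal.span (Set.range f)) ∧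
      eval q E = (Jm f q).det ∧ (E - ∏ i, X i ^ (D - 1)).totalDegree < c * (D - 1) := by
  obtain ⟨m, rfl⟩ : ∃ m, D = m + 1 := ⟨D - 1, by omega⟩
  have hm : 1 ≤ m := by omega
  have hquot := fun i => quot_exists q (f i - X i ^ (m + 1)) m (Nat.lt_succ_iff.1 (hf i))
  choose a ha1 ha2 ha3 using hquot
  set g : Fin c → MvPolynomial (Fin c) B := fun i =>
    ∑ k ∈ Finset.range (m + 1), X i ^ k * C (q i) ^ (m + 1 - 1 - k) with hg
  have hgeom : ∀ i, g i * (X i - C (q i)) = X i ^ (m + 1) - C (q i) ^ (m + 1) := fun i =>
    geom_sum₂_mul (X i) (C (q i)) (m + 1)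
  set M : Matrix (Fin c) (Fin c) (MvPolynomial (Fin c) B) :=
    Matrix.of fun i j => a i j + if i = j then g i else 0 with hM
  have hMij : ∀ i j, M i j = a i j + if i = j then g i else 0 := fun i j => rfl
  have hsum : ∀ i, ∑ j, M i j * (X j - C (q j)) = f i := by
    intro i
    simp only [hMij, add_mul, Finset.sum_add_distrib, ite_mul, zero_mul]
    rw [Finset.sum_ite_eq, if_pos (Finset.mem_univ i), hgeom]
    have h1 := ha2 i
    have h2 : eval q (f i - X i ^ (m + 1)) = - q i ^ (m + 1) := by
      rw [map_sub, hq i, map_pow, eval_X]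
      ring
    rw [h2, map_neg, map_pow] at h1
    have h3 : ∑ j, a i j * (X j - C (q j)) = f i - X i ^ (m + 1) + C (q i) ^ (m + 1) := by
      rw [h1]
      ring
    rw [h3]
    ring
  refine ⟨M.det, ?_, ?_, ?_⟩
  · intro j
    have h1 : M.adjugate.mulVec (M.mulVec fun j => X j - C (q j)) =
        M.det • (fun j => X j - C (q j) : Fin c → MvPolynomial (Fin c) B) := by
      rw [Matrix.mulVec_mulVec, Matrix.adjugate_mul, Matrix.smul_mulVec, Matrix.one_mulVec]
    have h2 : (M.mulVec fun j => X j - C (q j)) = f := by
      funext i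
      exact hsum i
    rw [h2] at h1
    have h3 := congrFun h1 j
    have h4 : (X j - C (q j)) * M.det = ∑ i, M.adjugate j i * f i := by
      have h5 : (M.det • (fun j => X j - C (q j) : Fin c → MvPolynomial (Fin c) B)) j =
          M.det * (X j - C (q j)) := rfl
      rw [mul_comm, ← h5, ← h3]
      rfl
    rw [h4]
    exact Ideal.sum_mem _ (fun i _ =>
      Ideal.mul_mem_left _ _ (Ideal.subset_span (Set.mem_range_self i)))
  · rw [RingHom.map_det]
    congr 1
    ext i j
    rw [RingHom.mapMatrix_apply, Matrix.map_apply, hMij, map_add, ha3]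
    show _ = eval q (pderiv j (f i))
    have h1 : pderiv j (f i - X i ^ (m + 1)) = pderiv j (f i) - pderiv j (X i ^ (m + 1)) :=
      map_sub _ _ _
    rw [h1, map_sub]
    by_cases hij : i = j
    · subst hij
      have h2 : eval q (pderiv i (X i ^ (m + 1) : MvPolynomial (Fin c) B)) =
          (m + 1 : ℕ) * q i ^ m := by
        rw [Derivation.leibniz_pow, pderiv_X_self]
        simp
      have h3 : eval q (g i) = (m + 1 : ℕ) * q i ^ m := by
        simp only [hg, map_sum, map_mul, map_pow, eval_X, eval_C]
        have h4 : ∀ k ∈ Finset.range (m + 1), q i ^ k * q i ^ (m + 1 - 1 - k) = q i ^ m := by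
          intro k hk
          rw [← pow_add]
          congr 1
          have := Finset.mem_range.1 hk
          omega
        rw [Finset.sum_congr rfl h4, Finset.sum_const, Finset.card_range, nsmul_eq_mul]
      rw [if_pos rfl, h2, h3]
      ring
    · have h2 : pderiv j (X i ^ (m + 1) : MvPolynomial (Fin c) B) = 0 := by
        rw [Derivation.leibniz_pow, pderiv_X_of_ne hij]
        simp
      rw [if_neg hij, h2, map_zero]
      ring
  · have h := det_top hc hm M (fun _ => 1) (by
      intro i j
      have hlt : (a i j).totalDegree < m := by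
        have := ha1 i j
        omega
      by_cases hij : i = j
      · subst hij
        rw [hMij, if_pos rfl, if_pos rfl, map_one, one_mul]
        have h1 : a i i + g i - X i ^ m =
            a i i + ∑ k ∈ Finset.range m, X i ^ k * C (q i) ^ (m - k) := by
          simp only [hg, Nat.add_sub_cancel, Finset.sum_range_succ, Nat.sub_self, pow_zero,
            mul_one]
          ring
        rw [h1]
        refine lt_of_le_of_lt (totalDegree_add _ _) (max_lt hlt ?_)
        refine lt_of_le_of_lt (totalDegree_finset_sum _ _) ?_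
        rw [Finset.sup_lt_iff (by
          have : 0 < m := by omega
          simpa using this)]
        intro k hk
        refine lt_of_le_of_lt (totalDegree_mul _ _) ?_
        have e1 : (X i ^ k : MvPolynomial (Fin c) B).totalDegree ≤ k := by
          rw [X_pow_eq_monomial]
          refine (totalDegree_monomial_le _ _).trans ?_
          rw [Finsupp.sum_single_index rfl]
          exact le_rfl
        have e2 : (C (q i) ^ (m - k) : MvPolynomial (Fin c) B).totalDegree = 0 := by
          rw [← map_pow, totalDegree_C]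
        have := Finset.mem_range.1 hk
        omega
      · rw [hMij, if_neg hij, if_neg hij, add_zero, sub_zero]
        exact hlt)
    simpa using h

end Pool.DeQ
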