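import Pool.Agent.Lib.DeQ.Defs

/-!
Module FinD (140 lines). The quotient by a system over a field has dimension at most `D^c`.
PROOF. As in `Div`: by strong induction on the degree every monomial is congruent modulo `Ideal.span (range f)` to a linear combination
of the monomials `∏ X_i^(β i)`, `β : Fin c → Fin D` (if `α_i ≥ D` replace `X_i^D` by `-(f_i - X_i^D)`, of total degree `< D`). So the
images of these `D^c` monomials span the quotient: `Module.Finite.of_surjective`/`finrank_le_of_span_eq_top`
(`finrank_range_le_card`, `Fintype.card (Fin c → Fin D) = D^c`).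
-/

set_option autoImplicit false

open MvPolynomial Pool.DeB

namespace Pool.DeQ

theorem finite_quot {K : Type*} [Field K] {c D : ℕ} (hD : 1 ≤ D)
    (f : Fin c → MvPolynomial (Fin c) K) (hf : IsSys D f) :
    Module.Finite K (MvPolynomial (Fin c) K ⧸ Ideal.span (Set.range f)) ∧
      Module.finrank K (MvPolynomial (Fin c) K ⧸ Ideal.span (Set.range f)) ≤ D ^ c := by
  classical
  set I : Ideal (MvPolynomial (Fin c) K) := Ideal.span (Set.range f) with hI
  set π := Ideal.Quotient.mkₐ K I with hπ
  set g : (Fin c → Fin D) → (MvPolynomial (Fin c) K ⧸ I) := fun β =>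
    π (monomial (Finsupp.equivFunOnFinite.symm (fun i => (β i : ℕ))) 1) with hg
  have key : ∀ N : ℕ, ∀ W : MvPolynomial (Fin c) K, W.totalDegree < N →
      π W ∈ Submodule.span K (Set.range g) := by
    intro N
    induction N with
    | zero => intro W hW; exact absurd hW (Nat.not_lt_zero _)
    | succ N ih =>
      intro W hW
      rw [W.as_sum, map_sum]
      refine Submodule.sum_mem _ fun α hα => ?_
      have hdeg : (α.sum fun _ e => e) ≤ N :=
        (le_totalDegree hα).trans (Nat.lt_succ_iff.1 hW)
      by_cases h : ∀ i, α i < D
      · have h1 : monomial α (coeff α W) = coeff α W • (monomial α 1 : MvPolynomial (Fin c) K) := by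
          rw [smul_monomial, smul_eq_mul, mul_one]
        rw [h1, map_smul]
        refine Submodule.smul_mem _ _ (Submodule.subset_span ⟨fun i => ⟨α i, h i⟩, ?_⟩)
        have h10 : Finsupp.equivFunOnFinite.symm (fun i => α i) = α := by
          ext i
          rfl
        rw [hg]
        simp only
        rw [h10]
      · push Not at h
        obtain ⟨i, hi⟩ := h
        set β : Fin c →₀ ℕ := α - Finsupp.single i D with hβ
        have hαβ : α = β + Finsupp.single i D := by
          rw [hβ, tsub_add_cancel_of_le]
          rw [Finsupp.single_le_iff]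
          exact hi
        have h2 : monomial α (coeff α W) = monomial β (coeff α W) * X i ^ D := by
          rw [X_pow_eq_monomial, monomial_mul, mul_one, ← hαβ]
        have h3 : monomial β (coeff α W) * X i ^ D = monomial β (coeff α W) * f i -
            monomial β (coeff α W) * (f i - X i ^ D) := by ring
        have h4 : π (monomial β (coeff α W) * f i) = 0 := by
          rw [hπ, Ideal.Quotient.mkₐ_eq_mk, Ideal.Quotient.eq_zero_iff_mem]
          exact Ideal.mul_mem_left _ _ (Ideal.subset_span ⟨i, rfl⟩)
        rw [h2, h3, map_sub, h4, zero_sub]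
        refine Submodule.neg_mem _ (ih _ ?_)
        have h5 : (monomial β (coeff α W) * (f i - X i ^ D)).totalDegree ≤
            (β.sum fun _ e => e) + (f i - X i ^ D).totalDegree :=
          (totalDegree_mul _ _).trans (Nat.add_le_add_right (totalDegree_monomial_le _ _) _)
        have h6 : (α.sum fun _ e => e) = (β.sum fun _ e => e) + D := by
          conv_lhs => rw [hαβ]
          rw [Finsupp.sum_add_index' (fun _ => rfl) (fun _ _ _ => rfl), Finsupp.sum_single_index rfl]
        have h7 := hf i
        omega
  have htop : Submodule.span K (Set.range g) = ⊤ := by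
    rw [eq_top_iff]
    rintro w -
    obtain ⟨W, rfl⟩ := Ideal.Quotient.mk_surjective w
    exact key _ W (Nat.lt_succ_self _)
  refine ⟨⟨?_⟩, ?_⟩
  · rw [← htop]
    exact Submodule.fg_span (Set.finite_range g)
  · have h8 := finrank_range_le_card (R := K) g
    rw [Set.finrank, htop, finrank_top] at h8
    simpa using h8

end Pool.DeQ
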