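import Pool.Agent.Lib.DeQ.Defs
import Pool.Agent.Lib.DeQ.Del
import Pool.Agent.Lib.DeQ.FinD

/-!
Module Interp (200 lines). Lagrange interpolation and the formula of Jacobi.
PROOF. `I = Ideal.span (range f)`, `Z = {q | ∀ i, eval q (f i) = 0}`. For `q ∈ Z` let `E_q` be as in `del_exists`, `J_q = det`. For every `W`:
`W E_q - C (W(q)) E_q ∈ I` (`W - C (W(q))` is in the ideal generated by the `X_j - C q_j`: `quot_exists`). `E_q(q) = J_q ≠ 0`, and for
`q' ∈ Z`, `q' ≠ q`: some `q'_j ≠ q_j`, `(X_j - C q_j) E_q ∈ I` vanishes at `q'`, so `E_q(q') = 0`. FINITENESS: if `S' ⊆ Z` is a finite subset,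
the images of the `E_q`, `q ∈ S'`, in the quotient are linearly independent (evaluate a relation at `q`; evaluation at points of `Z`
vanishes on `I`), so `S'.card ≤ finrank ≤ D^c` (`finite_quot`, `LinearIndependent.fintype_card_le_finrank`). So `Z` is finite
(`Set.infinite` has finite subsets of every cardinality) and `Z.toFinset = S` has at most `D^c` elements.
INTERPOLATION: `e = 1 - ∑_{q ∈ S} C (J_q⁻¹) E_q` vanishes on `Z`, so `e` is in the radical of `I`
(`MvPolynomial.vanishingIdeal_zeroLocus_eq_radical`, `Z = zeroLocus I`). `e^2 - e ∈ I` (the `C (J_q⁻¹) E_q` are orthogonal idempotents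
modulo `I` by `W E_q ≡ W(q) E_q`), so `e^n ≡ e` for `n ≥ 1` and `e ∈ I`. Hence `W ≡ ∑_q W C (J_q⁻¹) E_q ≡ ∑_q C (W(q)/J_q) E_q` modulo `I`. `ρ` vanishes
on `I` (`IsRho.mul`), `ρ (E_q) = 1` (`low`, `top`).
-/

set_option autoImplicit false

open MvPolynomial Pool.DeB

namespace Pool.DeQ

private theorem mul_sub_mem {K : Type*} [Field K] {c : ℕ} (I : Ideal (MvPolynomial (Fin c) K))
    (q : Fin c → K) (E : MvPolynomial (Fin c) K) (hE : ∀ j, (X j - C (q j)) * E ∈ I)
    (W : MvPolynomial (Fin c) K) : W * E - C (eval q W) * E ∈ I := by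
  induction W using MvPolynomial.induction_on with
  | C a => simp
  | add p r hp hr =>
    have : (p + r) * E - C (eval q (p + r)) * E =
        (p * E - C (eval q p) * E) + (r * E - C (eval q r) * E) := by
      rw [map_add, C_add]; ring
    rw [this]
    exact I.add_mem hp hr
  | mul_X p j hp =>
    have : p * X j * E - C (eval q (p * X j)) * E =
        p * ((X j - C (q j)) * E) + C (q j) * (p * E - C (eval q p) * E) := by
      rw [map_mul, eval_X, C_mul]; ring
    rw [this]
    exact I.add_mem (I.mul_mem_left _ (hE j)) (I.mul_mem_left _ hp)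

private theorem eval_zero_of_mem {K : Type*} [Field K] {c : ℕ}
    (f : Fin c → MvPolynomial (Fin c) K) (q : Fin c → K) (hq : ∀ i, eval q (f i) = 0)
    {x : MvPolynomial (Fin c) K} (hx : x ∈ Ideal.span (Set.range f)) : eval q x = 0 := by
  have h : Ideal.span (Set.range f) ≤ RingHom.ker (eval q) := by
    rw [Ideal.span_le]
    rintro _ ⟨i, rfl⟩
    exact (RingHom.mem_ker).2 (hq i)
  exact (RingHom.mem_ker).1 (h hx)

private theorem rho_zero_of_mem {K : Type*} [Field K] {c D : ℕ}
    (f : Fin c → MvPolynomial (Fin c) K) (ρ : MvPolynomial (Fin c) K →ₗ[K] K)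
    (hρ : IsRho D f ρ) {x : MvPolynomial (Fin c) K} (hx : x ∈ Ideal.span (Set.range f)) :
    ρ x = 0 := by
  rw [Ideal.mem_span_range_iff_exists_fun] at hx
  obtain ⟨g, rfl⟩ := hx
  rw [map_sum]
  exact Finset.sum_eq_zero fun i _ => by rw [mul_comm]; exact hρ.mul i (g i)

theorem interp {K : Type*} [Field K] [IsAlgClosed K] {c D : ℕ} (hc : 1 ≤ c) (hD : 2 ≤ D)
    (f : Fin c → MvPolynomial (Fin c) K) (hf : IsSys D f)
    (hJ : ∀ q : Fin c → K, (∀ i, eval q (f i) = 0) → (Jm f q).det ≠ 0) :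
    ∃ S : Finset (Fin c → K), (∀ q, q ∈ S ↔ ∀ i, eval q (f i) = 0) ∧ S.card ≤ D ^ c ∧
      ∀ ρ : MvPolynomial (Fin c) K →ₗ[K] K, IsRho D f ρ →
        ∀ W, ρ W = ∑ q ∈ S, eval q W / (Jm f q).det := by
  classical
  set I : Ideal (MvPolynomial (Fin c) K) := Ideal.span (Set.range f) with hI
  have hex : ∀ q : Fin c → K, ∃ E : MvPolynomial (Fin c) K, (∀ i, eval q (f i) = 0) →
      (∀ j, (X j - C (q j)) * E ∈ I) ∧
      eval q E = (Jm f q).det ∧ (E - ∏ i, X i ^ (D - 1)).totalDegree < c * (D - 1) := by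
    intro q
    by_cases hq : ∀ i, eval q (f i) = 0
    · obtain ⟨E, h1, h2, h3⟩ := del_exists hc hD f hf q hq
      exact ⟨E, fun _ => ⟨h1, h2, h3⟩⟩
    · exact ⟨0, fun h => absurd h hq⟩
  choose E hE using hex
  have hmul : ∀ q : Fin c → K, (∀ i, eval q (f i) = 0) → ∀ W : MvPolynomial (Fin c) K,
      W * E q - C (eval q W) * E q ∈ I := fun q hq W => mul_sub_mem I q (E q) (hE q hq).1 W
  have hself : ∀ q : Fin c → K, (∀ i, eval q (f i) = 0) → eval q (E q) ≠ 0 := fun q hq => by
    rw [(hE q hq).2.1]; exact hJ q hq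
  have hother : ∀ q : Fin c → K, (∀ i, eval q (f i) = 0) → ∀ q' : Fin c → K,
      (∀ i, eval q' (f i) = 0) → q' ≠ q → eval q' (E q) = 0 := by
    intro q hq q' hq' hne
    obtain ⟨j, hj⟩ := Function.ne_iff.1 hne
    have h := eval_zero_of_mem f q' hq' ((hE q hq).1 j)
    rw [map_mul, map_sub, eval_X, eval_C] at h
    exact (mul_eq_zero.1 h).resolve_left (sub_ne_zero.2 hj)
  obtain ⟨hfin, hrank⟩ := finite_quot (by omega : 1 ≤ D) f hf
  have hcard : ∀ S : Finset (Fin c → K), (∀ q ∈ S, ∀ i, eval q (f i) = 0) → S.card ≤ D ^ c := by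
    intro S hS
    have hli : LinearIndependent K
        (fun q : S => (Ideal.Quotient.mk I (E q.1) : MvPolynomial (Fin c) K ⧸ I)) := by
      rw [Fintype.linearIndependent_iff]
      intro g hg q
      have h1 : Ideal.Quotient.mk I (∑ q : S, C (g q) * E q.1) = 0 := by
        rw [map_sum, ← hg]
        refine Finset.sum_congr rfl fun q _ => ?_
        rw [← smul_eq_C_mul]
        rfl
      rw [Ideal.Quotient.eq_zero_iff_mem] at h1
      have h2 := eval_zero_of_mem f q.1 (hS q.1 q.2) h1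
      rw [map_sum, Finset.sum_eq_single q] at h2
      · rw [map_mul, eval_C] at h2
        exact (mul_eq_zero.1 h2).resolve_right (hself q.1 (hS q.1 q.2))
      · intro q' _ hne
        rw [map_mul, hother q'.1 (hS q'.1 q'.2) q.1 (hS q.1 q.2)
          (fun h => hne (Subtype.ext h.symm)), mul_zero]
      · intro h
        exact absurd (Finset.mem_univ q) h
    have h3 := hli.fintype_card_le_finrank
    rw [Fintype.card_coe] at h3
    exact h3.trans hrank
  have hZ : {q : Fin c → K | ∀ i, eval q (f i) = 0}.Finite := by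
    by_contra hinf
    obtain ⟨t, ht, htc⟩ := Set.Infinite.exists_subset_card_eq hinf (D ^ c + 1)
    have := hcard t (fun q hq => ht hq)
    omega
  refine ⟨hZ.toFinset, fun q => by simp, hcard _ (fun q hq => by simpa using hq), ?_⟩
  intro ρ hρ W
  have hS : ∀ q ∈ hZ.toFinset, ∀ i, eval q (f i) = 0 := fun q hq => by simpa using hq
  set S := hZ.toFinset with hSdef
  set e : MvPolynomial (Fin c) K := 1 - ∑ q ∈ S, C ((Jm f q).det⁻¹) * E q with he
  have hev : ∀ q ∈ S, eval q e = 0 := by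
    intro q hq
    rw [he, map_sub, map_one, map_sum, Finset.sum_eq_single q]
    · rw [map_mul, eval_C, (hE q (hS q hq)).2.1, inv_mul_cancel₀ (hJ q (hS q hq)), sub_self]
    · intro q' hq' hne
      rw [map_mul, hother q' (hS q' hq') q (hS q hq) hne.symm, mul_zero]
    · intro h
      exact absurd hq h
  have hid : e * (1 - e) ∈ I := by
    have h1 : e * (1 - e) = ∑ q ∈ S, C ((Jm f q).det⁻¹) * (e * E q - C (eval q e) * E q) := by
      have h2 : (1 : MvPolynomial (Fin c) K) - e = ∑ q ∈ S, C ((Jm f q).det⁻¹) * E q := by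
        rw [he]; ring
      rw [h2, Finset.mul_sum]
      refine Finset.sum_congr rfl fun q hq => ?_
      rw [hev q hq, C_0]
      ring
    rw [h1]
    exact I.sum_mem fun q hq => I.mul_mem_left _ (hmul q (hS q hq) e)
  have hrad : e ∈ I.radical := by
    rw [← vanishingIdeal_zeroLocus_eq_radical (K := K) I, mem_vanishingIdeal_iff]
    intro x hx
    have hx' : x ∈ S := by
      rw [hSdef, Set.Finite.mem_toFinset]
      intro i
      have := hx (f i) (Ideal.subset_span ⟨i, rfl⟩)
      rwa [aeval_eq_eval] at this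
    rw [aeval_eq_eval]
    exact hev x hx'
  obtain ⟨n, hn⟩ := hrad
  have hpow : ∀ k : ℕ, e ^ (k + 1) - e ∈ I := by
    intro k
    induction k with
    | zero => simp
    | succ k ih =>
      have : e ^ (k + 1 + 1) - e = e * (e ^ (k + 1) - e) - e * (1 - e) := by ring
      rw [this]
      exact I.sub_mem (I.mul_mem_left _ ih) hid
  have heI : e ∈ I := by
    have h1 : e ^ (n + 1) ∈ I := by
      rw [pow_succ]
      exact I.mul_mem_right _ hn
    have h2 := I.sub_mem h1 (hpow n)
    rwa [sub_sub_cancel] at h2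
  have hρE : ∀ q ∈ S, ρ (E q) = 1 := by
    intro q hq
    have h1 := hρ.low _ (hE q (hS q hq)).2.2
    rw [map_sub, hρ.top, sub_eq_zero] at h1
    exact h1
  have hρS : ∀ a : K, ∀ P : MvPolynomial (Fin c) K, ρ (C a * P) = a * ρ P := by
    intro a P
    rw [← smul_eq_C_mul, map_smul, smul_eq_mul]
  have h0 : ρ (W * e) = 0 := rho_zero_of_mem f ρ hρ (I.mul_mem_left _ heI)
  have h1 : W * e = W - ∑ q ∈ S, C ((Jm f q).det⁻¹) * (W * E q) := by
    rw [he, mul_sub, mul_one, Finset.mul_sum]
    congr 1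
    refine Finset.sum_congr rfl fun q _ => ?_
    ring
  rw [h1, map_sub, sub_eq_zero, map_sum] at h0
  rw [h0]
  refine Finset.sum_congr rfl fun q hq => ?_
  have h2 := rho_zero_of_mem f ρ hρ (hmul q (hS q hq) W)
  rw [map_sub, sub_eq_zero, hρS, hρE q hq, mul_one] at h2
  rw [hρS, h2, div_eq_mul_inv, mul_comm]

end Pool.DeQ
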