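import Mathlib

/-!
Module DerEv (70 lines). Chain rule.
PROOF. Both sides are additive in `(P, P')`; by the uniqueness of `P'` (its coefficients are `Δ (coeff β P)`), use induction on `P`
(`MvPolynomial.induction_on'` or: write `P` as the sum of its monomials and `P' = ∑ β ∈ P.support, monomial β (Δ (coeff β P))`). Monomials:
`Derivation.leibniz`, `Δ (∏ q_i^(β i)) = ∑_l β_l q_l^(β l - 1) ∏_{i ≠ l} q_i^(β i) Δ(q_l)`, or by induction `C a` and `X_i * monomial`.
-/

set_option autoImplicit false

open MvPolynomial

namespace Pool.DeQ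

private noncomputable def dco {K : Type*} [CommRing K] {c : ℕ} (Δ : Derivation ℤ K K)
    (P : MvPolynomial (Fin c) K) : MvPolynomial (Fin c) K :=
  ∑ β ∈ P.support, monomial β (Δ (coeff β P))

private theorem coeff_dco {K : Type*} [CommRing K] {c : ℕ} (Δ : Derivation ℤ K K)
    (P : MvPolynomial (Fin c) K) (β : Fin c →₀ ℕ) : coeff β (dco Δ P) = Δ (coeff β P) := by
  classical
  unfold dco
  rw [coeff_sum]
  simp only [coeff_monomial]
  rw [Finset.sum_ite_eq']
  split_ifs with h
  · rfl
  · rw [notMem_support_iff.1 h, map_zero]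

private theorem dco_eval {K : Type*} [CommRing K] {c : ℕ} (Δ : Derivation ℤ K K)
    (q : Fin c → K) (P : MvPolynomial (Fin c) K) :
    Δ (eval q P) = ∑ l, eval q (pderiv l P) * Δ (q l) + eval q (dco Δ P) := by
  classical
  induction P using MvPolynomial.induction_on with
  | C a =>
    have h : dco Δ (C a : MvPolynomial (Fin c) K) = C (Δ a) := by
      ext β
      rw [coeff_dco, coeff_C, coeff_C]
      split_ifs
      · rfl
      · exact map_zero _
    simp [h]
  | add p r hp hr =>
    have h : dco Δ (p + r) = dco Δ p + dco Δ r := by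
      ext β
      rw [coeff_dco, coeff_add, coeff_add, coeff_dco, coeff_dco, map_add]
    rw [h, map_add, map_add, hp, hr, map_add]
    simp only [map_add, add_mul, Finset.sum_add_distrib]
    ring
  | mul_X p i hp =>
    have h : dco Δ (p * X i) = dco Δ p * X i := by
      ext β
      rw [coeff_dco, coeff_mul_X', coeff_mul_X', coeff_dco]
      split_ifs
      · rfl
      · exact map_zero _
    have h2 : ∀ l, eval q (pderiv l (p * X i)) * Δ (q l)
        = q i * (eval q (pderiv l p) * Δ (q l)) + (if l = i then eval q p * Δ (q l) else 0) := by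
      intro l
      rw [pderiv_mul, map_add, map_mul, map_mul, eval_X]
      by_cases hl : l = i
      · subst hl
        rw [pderiv_X_self, map_one, if_pos rfl]
        ring
      · rw [pderiv_X_of_ne (Ne.symm hl), map_zero, if_neg hl]
        ring
    have h3 : eval q (p * X i) = eval q p * q i := by rw [map_mul, eval_X]
    have h4 : eval q (dco Δ p * X i) = eval q (dco Δ p) * q i := by rw [map_mul, eval_X]
    rw [h, h3, h4, Derivation.leibniz, hp]
    rw [Finset.sum_congr rfl fun l _ => h2 l, Finset.sum_add_distrib, ← Finset.mul_sum,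
      Finset.sum_ite_eq' Finset.univ i, if_pos (Finset.mem_univ i)]
    simp only [smul_eq_mul]
    ring

theorem der_eval {K : Type*} [CommRing K] {c : ℕ} (Δ : Derivation ℤ K K)
    (P P' : MvPolynomial (Fin c) K) (h : ∀ β, coeff β P' = Δ (coeff β P)) (q : Fin c → K) :
    Δ (eval q P) = ∑ l, eval q (pderiv l P) * Δ (q l) + eval q P' := by
  have hP : P' = dco Δ P := by
    ext β
    rw [h, coeff_dco]
  rw [hP]
  exact dco_eval Δ q P

end Pool.DeQ
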