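import Pool.Agent.Lib.DeB.Defs

/-!
Module DerH (80 lines). Coefficientwise extension of a derivation of `ℂ` to the Hahn field.
PROOF. `Δ f` has the coefficients `δ (cf f e)`; the support is contained in that of `f` (`δ 0 = 0`), so it is a Hahn series (compare with `tw0`
in DeB/Mono.lean). Leibniz rule: `HahnSeries.coeff_mul` is a finite sum over the antidiagonal of the supports; the supports of
`Δ f`, `Δ g` are smaller: use `HahnSeries.coeff_mul_left'`/`coeff_mul_right'` (sum over a larger set).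
Consequences: `v f ≤ v (Δ f)` (`le_v_iff`), `Δ (tp κ) = 0` (`δ 1 = 0`), `Δ (algebraMap ℂ Om u) = algebraMap ℂ Om (δ u)`.
-/

set_option autoImplicit false

namespace Pool.DeQ

open Pool.DeB

private noncomputable def dh0 (δ : Derivation ℤ ℂ ℂ) (f : HahnSeries ℝ ℂ) : HahnSeries ℝ ℂ where
  coeff e := δ (f.coeff e)
  isPWO_support' := f.isPWO_support'.mono (by
    intro e he
    rw [Function.mem_support] at he ⊢
    intro h
    exact he (by rw [h, map_zero]))

private theorem dh0_coeff (δ : Derivation ℤ ℂ ℂ) (f : HahnSeries ℝ ℂ) (e : ℝ) :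
    (dh0 δ f).coeff e = δ (f.coeff e) := rfl

private theorem dh0_supp (δ : Derivation ℤ ℂ ℂ) (f : HahnSeries ℝ ℂ) :
    (dh0 δ f).support ⊆ f.support := by
  intro e he
  rw [HahnSeries.mem_support, dh0_coeff] at he
  rw [HahnSeries.mem_support]
  intro h
  exact he (by rw [h, map_zero])

private theorem dh0_mul (δ : Derivation ℤ ℂ ℂ) (f g : HahnSeries ℝ ℂ) :
    dh0 δ (f * g) = f * dh0 δ g + g * dh0 δ f := by
  ext e
  rw [dh0_coeff, HahnSeries.coeff_mul, HahnSeries.coeff_add, mul_comm g (dh0 δ f),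
    HahnSeries.coeff_mul_right' g.isPWO_support (dh0_supp δ g),
    HahnSeries.coeff_mul_left' f.isPWO_support (dh0_supp δ f), map_sum, ← Finset.sum_add_distrib]
  refine Finset.sum_congr rfl fun p _ => ?_
  rw [Derivation.leibniz, dh0_coeff, dh0_coeff, smul_eq_mul, smul_eq_mul]
  ring

private noncomputable def dhA (δ : Derivation ℤ ℂ ℂ) : Om →+ Om where
  toFun f := dh0 δ f
  map_zero' := by
    apply Om_ext
    intro e
    show δ (cf (0 : Om) e) = cf (0 : Om) e
    rw [cf_zero, map_zero]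
  map_add' f g := by
    apply Om_ext
    intro e
    rw [cf_add]
    show δ (cf (f + g) e) = δ (cf f e) + δ (cf g e)
    rw [cf_add, map_add]

theorem derH (δ : Derivation ℤ ℂ ℂ) : ∃ Δ : Derivation ℤ Om Om,
    (∀ f e, cf (Δ f) e = δ (cf f e)) ∧ (∀ f, v f ≤ v (Δ f)) ∧ (∀ κ, Δ (tp κ) = 0) ∧
      ∀ u : ℂ, Δ (algebraMap ℂ Om u) = algebraMap ℂ Om (δ u) := by
  have hmul : ∀ f g : Om, (dhA δ).toIntLinearMap (f * g) =
      f • (dhA δ).toIntLinearMap g + g • (dhA δ).toIntLinearMap f := fun f g => dh0_mul δ f g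
  have key : ∀ f e, cf ((Derivation.mk' (dhA δ).toIntLinearMap hmul) f) e = δ (cf f e) :=
    fun f e => rfl
  refine ⟨Derivation.mk' (dhA δ).toIntLinearMap hmul, key, ?_, ?_, ?_⟩
  · intro f
    rw [le_v_iff]
    intro e he
    rw [key, cf_eq_zero_of_lt he, map_zero]
  · intro κ
    apply Om_ext
    intro e
    rw [key, cf_zero, cf_tp]
    split_ifs
    · exact δ.map_one_eq_zero
    · exact map_zero δ
  · intro u
    apply Om_ext
    intro e
    rw [key, cf_alg, cf_alg]
    split_ifs
    · rfl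
    · exact map_zero δ

end Pool.DeQ
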