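import Pool.Agent.Lib.DeQ.Defs
import Pool.Agent.Lib.DeQ.DerH
import Pool.Agent.Lib.DeQ.DerEv

/-!
Module Jac (170 lines). The estimate of the Jacobian determinant.
PROOF. Fix `G`. For `j : Fin c` let `Δ_j` be the extension (`derH`) of `δ (j, G)`. Apply it to `eval q (fp u lam i) = 0` with `der_eval`: the
polynomial with coefficients `Δ_j (coeff β (fp u lam i))` is `δ_ij` times `map (algebraMap ℂ Om) (dG u G)`: `coeff β (fp u lam i) =
algebraMap (coeff β (X_i^(n+1)) + ∑_G' lam (i,G') coeff β (dG u G')) - (tp 1 or 0)`, `δ (j,G)` kills the coefficients `0`, `1` of `X_i^(n+1)` and those of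
the `dG` (`hδ0`), `δ (j,G) (lam (i,G')) = 1` iff `j = i`, `G = G'`; `Δ_j (tp 1) = 0`. So `∑_l J_il Δ_j (q_l) = - δ_ij x`, `x = aeval q (dG u G)`:
`J * Q = - x • 1` with `J = Jm (fp u lam) q`, `Q l j = Δ_j (q l)`. Determinants: `det J * det Q = (-x)^c`, so `det J ≠ 0` and
`v (det J) + v (det Q) = c • v x`. The entries of `Q` have order `≥ v (q l) ≥ 0`, so `v (det Q) ≥ 0` (`Matrix.det_apply`, `VV` is a subalgebra); if all
`v (q l) > 0` each term of `det Q` (`c ≥ 1` factors) has positive order, so `v (det Q) > 0`. (All in `WithTop ℝ`; `v x ≠ ⊤`.)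
-/

set_option autoImplicit false

open MvPolynomial Pool.DeB

namespace Pool.DeQ

variable {A : Type*} [CommRing A] [Algebra ℂ A] [FiniteDimensional ℂ A]

theorem jac_bound {c : ℕ} (hc : 1 ≤ c) (u : Fin c → A) (lam : Fin c × Gam A c → ℂ)
    (δ : Fin c × Gam A c → Derivation ℤ ℂ ℂ)
    (hδ0 : ∀ x (G : Gam A c) β, δ x (coeff β (dG u G)) = 0)
    (hδ1 : ∀ x y, δ x (lam y) = if x = y then 1 else 0) (q : Fin c → Om)
    (hq : ∀ i, eval q (fp u lam i) = 0) (hV : ∀ j, q j ∈ VV) (G : Gam A c)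
    (hG : aeval q (dG u G) ≠ 0) :
    (Jm (fp u lam) q).det ≠ 0 ∧
      v (Jm (fp u lam) q).det ≤ c • v (aeval q (dG u G)) ∧
      ((∀ j, (0 : WithTop ℝ) < v (q j)) →
        v (Jm (fp u lam) q).det < c • v (aeval q (dG u G))) := by
  classical
  have hd : ∀ j : Fin c, ∃ Δ : Derivation ℤ Om Om,
      (∀ f e, cf (Δ f) e = δ (j, G) (cf f e)) ∧ (∀ f, v f ≤ v (Δ f)) ∧ (∀ κ, Δ (tp κ) = 0) ∧
        ∀ u : ℂ, Δ (algebraMap ℂ Om u) = algebraMap ℂ Om (δ (j, G) u) := fun j => derH (δ (j, G))
  choose Δ hΔc hΔv hΔt hΔa using hd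
  have hcoef : ∀ (i j : Fin c) (β : Fin c →₀ ℕ),
      coeff β (if i = j then map (algebraMap ℂ Om) (dG u G) else 0)
        = Δ j (coeff β (fp u lam i)) := by
    intro i j β
    have ht : Δ j (if 0 = β then tp 1 else 0) = 0 := by
      split_ifs
      · exact hΔt j 1
      · exact map_zero _
    have hX : δ (j, G) (coeff β ((X i : MvPolynomial (Fin c) ℂ) ^ (Module.finrank ℂ A + 1))) = 0 := by
      rw [coeff_X_pow]
      split_ifs
      · exact Derivation.map_one_eq_zero _
      · exact map_zero _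
    have hS1 : ∀ G' : Gam A c, δ (j, G) (coeff β (C (lam (i, G')) * dG u G'))
        = if (j, G) = (i, G') then coeff β (dG u G') else 0 := by
      intro G'
      rw [coeff_C_mul, Derivation.leibniz, hδ0, hδ1, smul_zero, zero_add]
      split_ifs
      · rw [smul_eq_mul, mul_one]
      · rw [smul_zero]
    have hS : δ (j, G) (coeff β (∑ G' : Gam A c, C (lam (i, G')) * dG u G'))
        = if i = j then coeff β (dG u G) else 0 := by
      rw [coeff_sum, map_sum, Finset.sum_congr rfl fun G' _ => hS1 G']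
      by_cases h : i = j
      · subst h
        rw [if_pos rfl, Finset.sum_eq_single_of_mem G (Finset.mem_univ _)]
        · rw [if_pos rfl]
        · intro G' _ hG'
          rw [if_neg]
          intro h2
          exact hG' (Prod.mk.inj h2).2.symm
      · rw [if_neg h]
        refine Finset.sum_eq_zero fun G' _ => ?_
        rw [if_neg]
        intro h2
        exact h (Prod.mk.inj h2).1.symm
    have hF : δ (j, G) (coeff β (Fp u lam i)) = if i = j then coeff β (dG u G) else 0 := by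
      unfold Fp
      rw [coeff_add, map_add, hX, hS, zero_add]
    unfold fp
    rw [coeff_sub, coeff_map, coeff_C, map_sub, hΔa, ht, sub_zero, hF]
    split_ifs
    · rw [coeff_map]
    · rw [coeff_zero, map_zero]
  have hx : aeval q (dG u G) = eval q (map (algebraMap ℂ Om) (dG u G)) := by
    rw [eval_map, aeval_def]
  have key : ∀ i j, ∑ l, Jm (fp u lam) q i l * Δ j (q l)
      = if i = j then -aeval q (dG u G) else 0 := by
    intro i j
    have h1 := der_eval (Δ j) (fp u lam i) (if i = j then map (algebraMap ℂ Om) (dG u G) else 0)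
      (hcoef i j) q
    rw [hq i, map_zero] at h1
    have h2 : ∑ l, Jm (fp u lam) q i l * Δ j (q l)
        = - eval q (if i = j then map (algebraMap ℂ Om) (dG u G) else 0) := by
      have h3 : ∑ l, Jm (fp u lam) q i l * Δ j (q l)
          = ∑ l, eval q (pderiv l (fp u lam i)) * Δ j (q l) := rfl
      rw [h3]
      exact eq_neg_of_add_eq_zero_left h1.symm
    rw [h2]
    split_ifs
    · rw [hx]
    · rw [map_zero, neg_zero]
  obtain ⟨Q, hQ⟩ : ∃ Q : Matrix (Fin c) (Fin c) Om, ∀ l j, Q l j = Δ j (q l) :=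
    ⟨Matrix.of fun l j => Δ j (q l), fun _ _ => rfl⟩
  have hJQ : Jm (fp u lam) q * Q = (-aeval q (dG u G)) • (1 : Matrix (Fin c) (Fin c) Om) := by
    ext i j
    rw [Matrix.mul_apply, Matrix.smul_apply, Matrix.one_apply, smul_eq_mul, mul_ite, mul_one,
      mul_zero, ← key i j]
    exact Finset.sum_congr rfl fun l _ => by rw [hQ]
  have hdet : (Jm (fp u lam) q).det * Q.det = (-aeval q (dG u G)) ^ c := by
    rw [← Matrix.det_mul, hJQ, Matrix.det_smul, Matrix.det_one, mul_one, Fintype.card_fin]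
  have hne : (Jm (fp u lam) q).det ≠ 0 := by
    intro h
    rw [h, zero_mul] at hdet
    exact pow_ne_zero c (neg_ne_zero.2 hG) hdet.symm
  have hval : v (Jm (fp u lam) q).det + v Q.det = c • v (aeval q (dG u G)) := by
    rw [← v_mul, hdet, v_pow, v_neg]
  have hQv : ∑ l, v (q l) ≤ v Q.det := by
    rw [Matrix.det_apply]
    refine v_sum_ge _ _ _ fun σ _ => ?_
    have h4 : v (Equiv.Perm.sign σ • ∏ i, Q (σ i) i) = v (∏ i, Q (σ i) i) := by
      rcases Int.units_eq_one_or (Equiv.Perm.sign σ) with h | h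
      · rw [h, one_smul]
      · rw [h, Units.neg_smul, one_smul, v_neg]
    rw [h4, v_prod, ← Equiv.sum_comp σ (fun l => v (q l))]
    refine Finset.sum_le_sum fun i _ => ?_
    rw [hQ]
    exact hΔv i _
  have hqv : ∀ l, (0 : WithTop ℝ) ≤ v (q l) := fun l => mem_VV.1 (hV l)
  have hs0 : (0 : WithTop ℝ) ≤ ∑ l, v (q l) := Finset.sum_nonneg fun l _ => hqv l
  refine ⟨hne, ?_, ?_⟩
  · rw [← hval]
    exact le_add_of_nonneg_right (hs0.trans hQv)
  · intro hpos
    have h5 : (0 : WithTop ℝ) < v Q.det := by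
      have h6 : v (q ⟨0, hc⟩) ≤ ∑ l, v (q l) :=
        Finset.single_le_sum (f := fun l => v (q l)) (fun l _ => hqv l) (Finset.mem_univ _)
      exact lt_of_lt_of_le (hpos _) (h6.trans hQv)
    rw [← hval]
    obtain ⟨a, ha⟩ := WithTop.ne_top_iff_exists.1 (v_ne_top.2 hne)
    rw [← ha]
    rcases eq_or_ne (v Q.det) ⊤ with h7 | h7
    · rw [h7, add_top]
      exact WithTop.coe_lt_top a
    · obtain ⟨b, hb⟩ := WithTop.ne_top_iff_exists.1 h7
      rw [← hb] at h5 ⊢
      have h8 : 0 < b := by exact_mod_cast h5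
      have h9 : a < a + b := by linarith
      exact_mod_cast h9

end Pool.DeQ
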