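import Pool.Agent.Lib.DeQ.Defs

/-!
Module Rho. The residue functional of a system `f_i = X_i^D + low_i`, `totalDegree low_i < D`.
-/

set_option autoImplicit false

open MvPolynomial Pool.DeB

namespace Pool.DeQ

section
variable {B : Type*} [CommRing B] {c : ℕ}

private noncomputable def ee (D : ℕ) (n : Fin c → ℕ) : Fin c →₀ ℕ :=
  Finsupp.equivFunOnFinite.symm (fun i => D * (n i + 1) - 1)

private theorem ee_apply (D : ℕ) (n : Fin c → ℕ) (i : Fin c) : ee D n i = D * (n i + 1) - 1 := rfl

private noncomputable def PP (D : ℕ) (f : Fin c → MvPolynomial (Fin c) B) (n : Fin c → ℕ) :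
    MvPolynomial (Fin c) B := ∏ i, (-(f i - X i ^ D)) ^ n i

private theorem deg_PP {D : ℕ} {f : Fin c → MvPolynomial (Fin c) B} (hf : IsSys D f)
    (n : Fin c → ℕ) (W : MvPolynomial (Fin c) B) :
    (W * PP D f n).totalDegree ≤ W.totalDegree + (D - 1) * ∑ i, n i := by
  refine (totalDegree_mul _ _).trans (Nat.add_le_add_left ?_ _)
  refine (totalDegree_finsetProd _ _).trans ?_
  rw [Finset.mul_sum]
  refine Finset.sum_le_sum fun i _ => ?_
  refine (totalDegree_pow _ _).trans ?_
  rw [totalDegree_neg, mul_comm]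
  have := hf i
  exact Nat.mul_le_mul_right _ (by omega)

private theorem sum_ee {D : ℕ} (hD : 1 ≤ D) (n : Fin c → ℕ) :
    ((ee D n).sum fun _ m => m) = D * ∑ i, n i + c * (D - 1) := by
  rw [Finsupp.sum_fintype _ _ (fun _ => rfl)]
  have h : ∀ i, ee D n i = D * n i + (D - 1) := by
    intro i
    rw [ee_apply, mul_add, mul_one]
    omega
  rw [Finset.sum_congr rfl fun i _ => h i, Finset.sum_add_distrib, ← Finset.mul_sum]
  simp

private theorem term_zero {D : ℕ} (hD : 1 ≤ D) {f : Fin c → MvPolynomial (Fin c) B}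
    (hf : IsSys D f) {W : MvPolynomial (Fin c) B} {n : Fin c → ℕ}
    (h : W.totalDegree < ∑ i, n i + c * (D - 1)) : coeff (ee D n) (W * PP D f n) = 0 := by
  by_contra hne
  have h1 := le_totalDegree (mem_support_iff.2 hne)
  have h2 := h1.trans (deg_PP hf n W)
  rw [sum_ee hD] at h2
  obtain ⟨D', rfl⟩ : ∃ D', D = D' + 1 := ⟨D - 1, by omega⟩
  simp only [Nat.add_sub_cancel] at h h2
  have h3 : (D' + 1) * ∑ i, n i = D' * ∑ i, n i + ∑ i, n i := by ring
  omega

private theorem fin_supp {D : ℕ} (hD : 1 ≤ D) {f : Fin c → MvPolynomial (Fin c) B}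
    (hf : IsSys D f) (W : MvPolynomial (Fin c) B) :
    (Function.support fun n : Fin c → ℕ => coeff (ee D n) (W * PP D f n)).Finite := by
  refine (Fintype.piFinset fun _ : Fin c => Finset.range (W.totalDegree + 1)).finite_toSet.subset
    fun n hn => ?_
  rw [Finset.mem_coe, Fintype.mem_piFinset]
  intro i
  rw [Finset.mem_range]
  by_contra hlt
  apply hn
  refine term_zero hD hf ?_
  have : n i ≤ ∑ i, n i := Finset.single_le_sum (fun _ _ => Nat.zero_le _) (Finset.mem_univ i)
  omega

private noncomputable def rho {D : ℕ} (hD : 1 ≤ D) {f : Fin c → MvPolynomial (Fin c) B}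
    (hf : IsSys D f) : MvPolynomial (Fin c) B →ₗ[B] B where
  toFun W := ∑ᶠ n : Fin c → ℕ, coeff (ee D n) (W * PP D f n)
  map_add' := by
    intro W W'
    rw [← finsum_add_distrib (fin_supp hD hf W) (fin_supp hD hf W')]
    exact finsum_congr fun n => by rw [add_mul, coeff_add]
  map_smul' := by
    intro r W
    rw [RingHom.id_apply, smul_finsum' r (fin_supp hD hf W)]
    exact finsum_congr fun n => by rw [smul_mul_assoc, coeff_smul]

private def bump (i : Fin c) (n : Fin c → ℕ) : Fin c → ℕ := Function.update n i (n i + 1)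

private theorem bump_inj (i : Fin c) : Function.Injective (bump i) := by
  intro n n' h
  funext j
  have hj := congrFun h j
  unfold bump at hj
  by_cases hji : j = i
  · subst hji
    rw [Function.update_self, Function.update_self] at hj
    omega
  · rwa [Function.update_of_ne hji, Function.update_of_ne hji] at hj

private theorem ee_bump {D : ℕ} (hD : 1 ≤ D) (i : Fin c) (n : Fin c → ℕ) :
    ee D (bump i n) = ee D n + Finsupp.single i D := by
  ext j
  rw [Finsupp.add_apply, ee_apply, ee_apply]
  unfold bump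
  by_cases hji : j = i
  · subst hji
    rw [Function.update_self, Finsupp.single_eq_same]
    have : D * (n j + 1 + 1) = D * (n j + 1) + D := by ring
    have h2 : 1 ≤ D * (n j + 1) := Nat.mul_pos hD (Nat.succ_pos _)
    omega
  · rw [Function.update_of_ne hji, Finsupp.single_eq_of_ne hji, add_zero]

private theorem PP_bump (D : ℕ) (f : Fin c → MvPolynomial (Fin c) B) (i : Fin c)
    (n : Fin c → ℕ) : PP D f (bump i n) = PP D f n * (-(f i - X i ^ D)) := by
  classical
  unfold PP
  rw [← Finset.mul_prod_erase _ _ (Finset.mem_univ i), ← Finset.mul_prod_erase _ (fun i => (-(f i - X i ^ D)) ^ n i) (Finset.mem_univ i)]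
  have h : ∏ j ∈ Finset.univ.erase i, (-(f j - X j ^ D)) ^ bump i n j
      = ∏ j ∈ Finset.univ.erase i, (-(f j - X j ^ D)) ^ n j := by
    refine Finset.prod_congr rfl fun j hj => ?_
    unfold bump
    rw [Function.update_of_ne (Finset.ne_of_mem_erase hj)]
  rw [h]
  unfold bump
  rw [Function.update_self, pow_succ]
  ring

private theorem rho_mul {D : ℕ} (hD : 1 ≤ D) {f : Fin c → MvPolynomial (Fin c) B}
    (hf : IsSys D f) (i : Fin c) (W : MvPolynomial (Fin c) B) : rho hD hf (f i * W) = 0 := by
  have e1 : f i * W = (X i ^ D * W) + (f i - X i ^ D) * W := by ring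
  rw [e1, map_add]
  have h1 : rho hD hf (X i ^ D * W) = ∑ᶠ n : Fin c → ℕ,
      coeff (ee D (bump i n)) ((X i ^ D * W) * PP D f (bump i n)) := by
    show ∑ᶠ n : Fin c → ℕ, coeff (ee D n) ((X i ^ D * W) * PP D f n) = _
    rw [← finsum_mem_range (bump_inj i)
      (f := fun n : Fin c → ℕ => coeff (ee D n) ((X i ^ D * W) * PP D f n)), ← finsum_mem_univ]
    refine finsum_mem_inter_support_eq' _ _ _ fun n hn => ⟨fun _ => ?_, fun _ => Set.mem_univ n⟩
    rcases Nat.eq_zero_or_pos (n i) with h0 | h0
    · exfalso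
      apply hn
      have e2 : (X i ^ D * W) * PP D f n = (W * PP D f n) * monomial (Finsupp.single i D) 1 := by
        rw [← X_pow_eq_monomial]; ring
      show coeff (ee D n) ((X i ^ D * W) * PP D f n) = 0
      rw [e2, coeff_mul_monomial', if_neg]
      intro hle
      have := hle i
      rw [Finsupp.single_eq_same, ee_apply, h0] at this
      omega
    · refine ⟨Function.update n i (n i - 1), ?_⟩
      funext j
      unfold bump
      by_cases hji : j = i
      · subst hji
        rw [Function.update_self, Function.update_self]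
        omega
      · rw [Function.update_of_ne hji, Function.update_of_ne hji]
  have h2 : rho hD hf ((f i - X i ^ D) * W) = ∑ᶠ n : Fin c → ℕ,
      coeff (ee D n) (((f i - X i ^ D) * W) * PP D f n) := rfl
  rw [h1, h2]
  have h3 : ∀ n : Fin c → ℕ, coeff (ee D (bump i n)) ((X i ^ D * W) * PP D f (bump i n))
      = - coeff (ee D n) (((f i - X i ^ D) * W) * PP D f n) := by
    intro n
    have e2 : (X i ^ D * W) * PP D f (bump i n)
        = (-(((f i - X i ^ D) * W) * PP D f n)) * monomial (Finsupp.single i D) 1 := by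
      rw [← X_pow_eq_monomial, PP_bump]; ring
    rw [e2, ee_bump hD, coeff_mul_monomial, coeff_neg, mul_one]
  rw [finsum_congr h3, finsum_neg_distrib, neg_add_cancel]

private theorem rho_top {D : ℕ} (hD : 1 ≤ D) {f : Fin c → MvPolynomial (Fin c) B}
    (hf : IsSys D f) : rho hD hf (∏ i, X i ^ (D - 1)) = 1 := by
  classical
  have e1 : (∏ i, X i ^ (D - 1) : MvPolynomial (Fin c) B)
      = monomial (ee D (fun _ : Fin c => 0)) 1 := by
    rw [monomial_eq, C_1, one_mul, Finsupp.prod_fintype _ _ (fun _ => pow_zero _)]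
    refine Finset.prod_congr rfl fun i _ => ?_
    rw [ee_apply]; simp
  show ∑ᶠ n : Fin c → ℕ, coeff (ee D n) ((∏ i, X i ^ (D - 1)) * PP D f n) = 1
  rw [finsum_eq_single _ (fun _ : Fin c => 0)]
  · rw [e1]
    have : PP D f (fun _ : Fin c => 0) = 1 := by unfold PP; simp
    rw [this, mul_one, coeff_monomial, if_pos rfl]
  · intro n hn
    refine term_zero hD hf ?_
    have h1 : (∏ i, X i ^ (D - 1) : MvPolynomial (Fin c) B).totalDegree ≤ c * (D - 1) := by
      rw [e1]
      refine (totalDegree_monomial_le _ _).trans (le_of_eq ?_)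
      have := sum_ee hD (fun _ : Fin c => 0)
      simp only [Finset.sum_const_zero, mul_zero, zero_add] at this
      exact this
    have h2 : 0 < ∑ i, n i := by
      rw [Nat.pos_iff_ne_zero]
      intro h0
      apply hn
      funext i
      exact (Finset.sum_eq_zero_iff.1 h0) i (Finset.mem_univ i)
    omega

end

theorem rho_exists {B : Type*} [CommRing B] {c D : ℕ} (hD : 1 ≤ D)
    (f : Fin c → MvPolynomial (Fin c) B) (hf : IsSys D f) :
    ∃ ρ : MvPolynomial (Fin c) B →ₗ[B] B, IsRho D f ρ := by
  refine ⟨rho hD hf, ⟨fun i W => rho_mul hD hf i W, fun W hW => ?_, rho_top hD hf⟩⟩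
  show ∑ᶠ n : Fin c → ℕ, coeff (ee D n) (W * PP D f n) = 0
  refine finsum_eq_zero_of_forall_eq_zero fun n => term_zero hD hf (by omega)

end Pool.DeQ
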