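import Pool.Agent.Lib.DeQ.Defs

/-!
Module Div (150 lines). Division by a system.
PROOF. `top = ∏ X_i^(D-1)`, `low_i = f_i - X_i^D`, `I = Ideal.span (range f)`. Let `P` be the set of the `W` with the property; it
is closed under addition (`C` is additive, `totalDegree_add`) and multiplication by constants. So it is enough to treat the
monomials `X^α` (`MvPolynomial.as_sum`/`induction_on'''`); strong induction on `|α|`. If all `α_i ≤ D - 1`: either `α` is `D-1`
everywhere (`β = 1`, `L = 0`) or `|α| < c (D-1)` (`β = 0`, `L = X^α`). If `α_i ≥ D`: `X^α = X^(α - D e_i) X_i^D =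
X^(α - D e_i) f_i - X^(α - D e_i) low_i`, the first term is in `I`, the second is a combination of monomials of degree
`≤ |α| - D + (D-1) < |α|`: induction.
-/

set_option autoImplicit false

open MvPolynomial Pool.DeB

namespace Pool.DeQ

private def DivP {B : Type*} [CommRing B] {c : ℕ} (D : ℕ) (f : Fin c → MvPolynomial (Fin c) B)
    (W : MvPolynomial (Fin c) B) : Prop :=
  ∃ (β : B) (L : MvPolynomial (Fin c) B), L.totalDegree < c * (D - 1) ∧
      W - C β * ∏ i, X i ^ (D - 1) - L ∈ Ideal.span (Set.range f)

private theorem divP_mem {B : Type*} [CommRing B] {c D : ℕ} (hc : 1 ≤ c) (hD : 2 ≤ D)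
    {f : Fin c → MvPolynomial (Fin c) B} {W : MvPolynomial (Fin c) B}
    (hW : W ∈ Ideal.span (Set.range f)) : DivP D f W := by
  refine ⟨0, 0, ?_, ?_⟩
  · rw [totalDegree_zero]
    exact Nat.mul_pos (by omega) (by omega)
  · simpa using hW

private theorem divP_add {B : Type*} [CommRing B] {c D : ℕ}
    {f : Fin c → MvPolynomial (Fin c) B} {W W' : MvPolynomial (Fin c) B}
    (h : DivP D f W) (h' : DivP D f W') : DivP D f (W + W') := by
  obtain ⟨β, L, hL, hI⟩ := h
  obtain ⟨β', L', hL', hI'⟩ := h'
  refine ⟨β + β', L + L', lt_of_le_of_lt (totalDegree_add _ _) (max_lt hL hL'), ?_⟩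
  have e : W + W' - C (β + β') * ∏ i, X i ^ (D - 1) - (L + L') =
      (W - C β * ∏ i, X i ^ (D - 1) - L) + (W' - C β' * ∏ i, X i ^ (D - 1) - L') := by
    rw [C_add]
    ring
  rw [e]
  exact Ideal.add_mem _ hI hI'

private theorem divP_mono {B : Type*} [CommRing B] {c D : ℕ} (hc : 1 ≤ c) (hD : 2 ≤ D)
    {f : Fin c → MvPolynomial (Fin c) B} (hf : IsSys D f) {N : ℕ}
    (ih : ∀ W : MvPolynomial (Fin c) B, W.totalDegree < N → DivP D f W)
    (α : Fin c →₀ ℕ) (u : B) (hα : ∑ i, α i ≤ N) : DivP D f (monomial α u) := by
  by_cases h1 : ∃ i, D ≤ α i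
  · obtain ⟨i, hi⟩ := h1
    have hα2 : α = (α - Finsupp.single i D) + Finsupp.single i D := by
      ext j
      rw [Finsupp.add_apply, Finsupp.tsub_apply]
      by_cases hj : j = i
      · subst hj
        rw [Finsupp.single_eq_same]
        omega
      · rw [Finsupp.single_eq_of_ne hj]
        omega
    have hXD : (X i : MvPolynomial (Fin c) B) ^ D = monomial (Finsupp.single i D) 1 := by
      rw [X_pow_eq_monomial]
    have e1 : (monomial α u : MvPolynomial (Fin c) B) =
        monomial (α - Finsupp.single i D) u * X i ^ D := by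
      rw [hXD, monomial_mul, mul_one, ← hα2]
    have e2 : (monomial α u : MvPolynomial (Fin c) B) =
        monomial (α - Finsupp.single i D) u * f i +
          (-(monomial (α - Finsupp.single i D) u * (f i - X i ^ D))) := by
      rw [e1]
      ring
    rw [e2]
    refine divP_add (divP_mem hc hD (Ideal.mul_mem_left _ _ (Ideal.subset_span ⟨i, rfl⟩))) ?_
    apply ih
    rw [totalDegree_neg]
    have h3 : (monomial (α - Finsupp.single i D) u : MvPolynomial (Fin c) B).totalDegree ≤
        ∑ j, (α - Finsupp.single i D) j := by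
      refine le_trans (totalDegree_monomial_le _ _) ?_
      rw [Finsupp.sum_fintype _ _ (fun _ => rfl)]
      exact le_refl _
    have h4 : ∑ j, α j = ∑ j, (α - Finsupp.single i D) j + D := by
      conv_lhs => rw [hα2]
      simp only [Finsupp.add_apply, Finset.sum_add_distrib]
      congr 1
      rw [Finset.sum_eq_single i]
      · rw [Finsupp.single_eq_same]
      · intro j _ hj
        exact Finsupp.single_eq_of_ne hj
      · intro h
        exact absurd (Finset.mem_univ _) h
    have h5 := hf i
    have h6 := totalDegree_mul (monomial (α - Finsupp.single i D) u) (f i - X i ^ D)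
    omega
  · push Not at h1
    by_cases h2 : ∀ i, α i = D - 1
    · refine ⟨u, 0, ?_, ?_⟩
      · rw [totalDegree_zero]
        exact Nat.mul_pos (by omega) (by omega)
      · have e : (monomial α u : MvPolynomial (Fin c) B) = C u * ∏ i, X i ^ (D - 1) := by
          rw [monomial_eq, Finsupp.prod_fintype _ _ (fun i => pow_zero _)]
          congr 1
          exact Finset.prod_congr rfl fun i _ => by rw [h2 i]
        rw [e, sub_self, zero_sub, neg_zero]
        exact Ideal.zero_mem _
    · push Not at h2
      obtain ⟨i0, hi0⟩ := h2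
      refine ⟨0, monomial α u, ?_, ?_⟩
      · have h3 : (monomial α u : MvPolynomial (Fin c) B).totalDegree ≤ ∑ j, α j := by
          refine le_trans (totalDegree_monomial_le _ _) ?_
          rw [Finsupp.sum_fintype _ _ (fun _ => rfl)]
          exact le_refl _
        refine lt_of_le_of_lt h3 ?_
        have h4 : ∑ j, α j < ∑ _j : Fin c, (D - 1) := by
          apply Finset.sum_lt_sum
          · intro i _
            have := h1 i
            omega
          · refine ⟨i0, Finset.mem_univ _, ?_⟩
            have := h1 i0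
            omega
        rw [Finset.sum_const, Finset.card_univ, Fintype.card_fin, smul_eq_mul] at h4
        exact h4
      · rw [C_0, zero_mul, sub_zero, sub_self]
        exact Ideal.zero_mem _

private theorem divP_all {B : Type*} [CommRing B] {c D : ℕ} (hc : 1 ≤ c) (hD : 2 ≤ D)
    {f : Fin c → MvPolynomial (Fin c) B} (hf : IsSys D f) :
    ∀ (N : ℕ) (W : MvPolynomial (Fin c) B), W.totalDegree < N → DivP D f W := by
  intro N
  induction N with
  | zero => intro W hW; exact absurd hW (Nat.not_lt_zero _)
  | succ N ih =>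
    intro W hW
    rw [W.as_sum]
    refine Finset.sum_induction _ (DivP D f) (fun a b => divP_add)
      (divP_mem hc hD (Ideal.zero_mem _)) ?_
    intro α hα
    refine divP_mono hc hD hf ih α _ ?_
    have h1 := le_totalDegree hα
    rw [Finsupp.sum_fintype _ _ (fun _ => rfl)] at h1
    omega

theorem div_exists {B : Type*} [CommRing B] {c D : ℕ} (hc : 1 ≤ c) (hD : 2 ≤ D)
    (f : Fin c → MvPolynomial (Fin c) B) (hf : IsSys D f) (W : MvPolynomial (Fin c) B) :
    ∃ (β : B) (L : MvPolynomial (Fin c) B), L.totalDegree < c * (D - 1) ∧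
      W - C β * ∏ i, X i ^ (D - 1) - L ∈ Ideal.span (Set.range f) :=
  divP_all hc hD hf _ W (Nat.lt_succ_self _)

end Pool.DeQ
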