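import Pool.Agent.Lib.DeQ.Defs
import Pool.Agent.Lib.DeQ.Div

/-!
Module RhoInt (70 lines). Integrality of the residue functional.
PROOF. `div_exists` over `B`: `W = C β * top + L + J`, `J ∈ Ideal.span (range f)`. Apply `map ψ` and `ρ`: `ρ (map ψ J) = 0`
(`Submodule.span_induction`/`Ideal.span` induction; `map ψ (f i) * _`, `hρ.mul`), `ρ (map ψ L) = 0` (`totalDegree (map ψ L) ≤ totalDegree L`,
`hρ.low`), `ρ (map ψ (C β * top)) = ρ (ψ β • top) = ψ β` (`hρ.top`).
-/

set_option autoImplicit false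

open MvPolynomial Pool.DeB

namespace Pool.DeQ

theorem rho_int {B B' : Type*} [CommRing B] [CommRing B'] (ψ : B →+* B') {c D : ℕ} (hc : 1 ≤ c)
    (hD : 2 ≤ D) (f : Fin c → MvPolynomial (Fin c) B) (hf : IsSys D f)
    (ρ : MvPolynomial (Fin c) B' →ₗ[B'] B') (hρ : IsRho D (fun i => map ψ (f i)) ρ)
    (W : MvPolynomial (Fin c) B) : ∃ β : B, ρ (map ψ W) = ψ β := by
  obtain ⟨β, L, hL, hJ⟩ := div_exists hc hD f hf W
  refine ⟨β, ?_⟩
  have key : ∀ J ∈ Ideal.span (Set.range f), ∀ Q : MvPolynomial (Fin c) B',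
      ρ (Q * map ψ J) = 0 := by
    intro J hJ'
    refine Submodule.span_induction ?_ ?_ ?_ ?_ hJ'
    · rintro x ⟨i, rfl⟩ Q
      rw [mul_comm]
      exact hρ.mul i Q
    · intro Q
      simp
    · intro x y _ _ hx hy Q
      rw [map_add, mul_add, map_add, hx, hy, add_zero]
    · intro a x _ hx Q
      have e : Q * map ψ (a • x) = (Q * map ψ a) * map ψ x := by
        rw [smul_eq_mul, (map ψ).map_mul, mul_assoc]
      rw [e]
      exact hx _
  have h1 := key _ hJ 1
  have h2 : ρ (map ψ L) = 0 :=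
    hρ.low _ (lt_of_le_of_lt (Finset.sup_mono (support_map_subset ψ L)) hL)
  have h3 : ρ (map ψ (C β * ∏ i, X i ^ (D - 1))) = ψ β := by
    have e : map ψ (C β * ∏ i, X i ^ (D - 1) : MvPolynomial (Fin c) B) =
        ψ β • (∏ i, X i ^ (D - 1) : MvPolynomial (Fin c) B') := by
      rw [map_mul, map_C, map_prod, smul_eq_C_mul]
      simp
    rw [e, map_smul, hρ.top, smul_eq_mul, mul_one]
  rw [one_mul, map_sub, map_sub, map_sub, map_sub, h2, h3, sub_zero] at h1
  exact sub_eq_zero.mp h1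

end Pool.DeQ
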