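import Pool.Agent.Lib.DeQ.Defs

/-!
Module YBlk (170 lines). The block `j`: the matrix `M = TG u (blk A j)` of `u_j - z_j`.
PROOF. `M = N.map C - X j • 1`, `N = leftMulMatrix (finBasis ℂ A) (u j)`, a nilpotent matrix with `N^n = 0`, `n = finrank ℂ A` (`u_j^n = 0`: DeB.NBasic
`pow_finrank`; or charpoly of a nilpotent endomorphism). `dG_blk`: `det (N - X) = (-1)^n charpoly-like`: the characteristic polynomial of a
nilpotent matrix is `X^n` (`Matrix.charpoly`, `LinearMap.charpoly_nilpotent_tfae`/`Matrix.isNilpotent_charpoly_sub_pow_of_isNilpotent` over a field: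
reduced), evaluate it at `X j` in `MvPolynomial`: `det (X j • 1 - N.map C) = X j ^ n`. `adjugate`: `P = ∑_{s<n} X_j^(n-1-s) • (N.map C)^s` satisfies `M * P = (N.map C)^n - X_j^n = - X_j^n`,
so `adj M * (-X_j^n) = adj M * M * P = (-X_j)^n * P`; cancel `X_j^n` (domain): `adj M = (-1)^(n-1) P` (`n ≥ 1`), whose `s = 0` part is `(-X_j)^(n-1) • 1` and
the rest has total degree `≤ n - 2` (empty if `n = 1`). `YG u (blk A j) k j = ∑_l map (adj M *ᵥ k)_l * C (b l)`, so
`YG - C k * (-X j)^(n-1) = (-1)^(n-1) ∑_{1≤s<n} X_j^(n-1-s) C (u_j^s k)`; multiplied by `X j` it has total degree `≤ n - 1 < n`.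
`YG_blk_ne`: all the conditions `(G l).1 = l'` are false.
-/

set_option autoImplicit false

open MvPolynomial Pool.DeB

namespace Pool.DeQ

variable {A : Type*} [CommRing A] [Algebra ℂ A] [FiniteDimensional ℂ A]

private theorem TG_blk {c : ℕ} (u : Fin c → A) (j : Fin c) :
    TG u (blk A j) = (Algebra.leftMulMatrix (Module.finBasis ℂ A) (u j)).map
      (C : ℂ → MvPolynomial (Fin c) ℂ) -
      Matrix.scalar (Fin (Module.finrank ℂ A)) (X j : MvPolynomial (Fin c) ℂ) := by
  ext1 r l
  rw [Matrix.sub_apply, Matrix.map_apply, Algebra.leftMulMatrix_eq_repr_mul,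
    Matrix.scalar_apply, Matrix.diagonal_apply]
  rfl

private theorem charp {c : ℕ} (u : Fin c → A) (j : Fin c) (hu : IsNilpotent (u j)) :
    (Algebra.leftMulMatrix (Module.finBasis ℂ A) (u j)).charpoly =
      Polynomial.X ^ Module.finrank ℂ A := by
  have h1 : IsNilpotent (Algebra.leftMulMatrix (Module.finBasis ℂ A) (u j)) := hu.map _
  have h2 := Matrix.isNilpotent_charpoly_sub_pow_of_isNilpotent h1
  rw [Fintype.card_fin] at h2
  exact sub_eq_zero.1 h2.eq_zero

private theorem pow_zero' {c : ℕ} (u : Fin c → A) (j : Fin c) (hu : IsNilpotent (u j)) :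
    (Algebra.leftMulMatrix (Module.finBasis ℂ A) (u j)) ^ Module.finrank ℂ A = 0 := by
  have h := Matrix.aeval_self_charpoly (Algebra.leftMulMatrix (Module.finBasis ℂ A) (u j))
  rw [charp u j hu, map_pow, Polynomial.aeval_X] at h
  exact h

theorem dG_blk {c : ℕ} (u : Fin c → A) (j : Fin c) (hu : IsNilpotent (u j)) :
    dG u (blk A j) = (-X j) ^ Module.finrank ℂ A := by
  unfold dG
  set N := Algebra.leftMulMatrix (Module.finBasis ℂ A) (u j) with hN
  set φ : Polynomial ℂ →+* MvPolynomial (Fin c) ℂ := Polynomial.eval₂RingHom C (X j) with hφ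
  have h1 : TG u (blk A j) = -(N.charmatrix.map φ) := by
    rw [TG_blk]
    ext1 r l
    rw [Matrix.sub_apply, Matrix.map_apply, Matrix.neg_apply, Matrix.map_apply,
      Matrix.charmatrix_apply, Matrix.scalar_apply, Matrix.diagonal_apply,
      Matrix.diagonal_apply, hφ, ← hN]
    split_ifs with h
    · rw [map_sub, Polynomial.coe_eval₂RingHom, Polynomial.eval₂_X, Polynomial.eval₂_C]
      ring
    · rw [map_sub, Polynomial.coe_eval₂RingHom, Polynomial.eval₂_C, Polynomial.eval₂_zero]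
      ring
  rw [h1, Matrix.det_neg, Fintype.card_fin]
  have h2 : (N.charmatrix.map φ).det = φ N.charpoly := by
    rw [Matrix.charpoly, RingHom.map_det]
    rfl
  rw [h2, hN, charp u j hu, hφ, Polynomial.coe_eval₂RingHom, Polynomial.eval₂_pow,
    Polynomial.eval₂_X, neg_pow (X j : MvPolynomial (Fin c) ℂ)]

theorem YG_blk_ne {c : ℕ} (u : Fin c → A) (j l : Fin c) (h : l ≠ j) (k : A) :
    YG u (blk A j) k l = 0 := by
  unfold YG
  refine Finset.sum_eq_zero fun i _ => ?_
  rw [if_neg]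
  exact fun h1 => h h1.symm

private theorem adj_blk {c : ℕ} (u : Fin c → A) (j : Fin c) (hu : IsNilpotent (u j)) :
    (TG u (blk A j)).adjugate = (-(-1) ^ Module.finrank ℂ A : MvPolynomial (Fin c) ℂ) •
      ∑ i ∈ Finset.range (Module.finrank ℂ A),
        (X j ^ (Module.finrank ℂ A - 1 - i) : MvPolynomial (Fin c) ℂ) •
          (Algebra.leftMulMatrix (Module.finBasis ℂ A) (u j ^ i)).map
            (C : ℂ → MvPolynomial (Fin c) ℂ) := by
  set n := Module.finrank ℂ A with hn
  set N := Algebra.leftMulMatrix (Module.finBasis ℂ A) (u j) with hN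
  set x : Matrix (Fin n) (Fin n) (MvPolynomial (Fin c) ℂ) :=
    N.map (C : ℂ → MvPolynomial (Fin c) ℂ) with hx
  set y : Matrix (Fin n) (Fin n) (MvPolynomial (Fin c) ℂ) :=
    Matrix.scalar (Fin n) (X j : MvPolynomial (Fin c) ℂ) with hy
  have hTG : TG u (blk A j) = x - y := TG_blk u j
  have hxpow : ∀ i, x ^ i = (Algebra.leftMulMatrix (Module.finBasis ℂ A) (u j ^ i)).map
      (C : ℂ → MvPolynomial (Fin c) ℂ) := by
    intro i
    rw [map_pow, ← hN]
    have := (map_pow ((C : ℂ →+* MvPolynomial (Fin c) ℂ).mapMatrix) N i).symm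
    exact this
  have hcomm : Commute x y := by
    rw [hy]
    exact (Matrix.scalar_commute _ (fun r => Commute.all _ _) x).symm
  have hypow : ∀ i (Q : Matrix (Fin n) (Fin n) (MvPolynomial (Fin c) ℂ)),
      Q * y ^ i = (X j ^ i : MvPolynomial (Fin c) ℂ) • Q := by
    intro i Q
    rw [hy, ← map_pow, Matrix.scalar_apply, ← Matrix.smul_one_eq_diagonal, Matrix.mul_smul,
      Matrix.mul_one]
  set P := ∑ i ∈ Finset.range n, x ^ i * y ^ (n - 1 - i) with hP
  have hgeom : (x - y) * P = x ^ n - y ^ n := hcomm.mul_geom_sum₂ n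
  have hxn : x ^ n = 0 := by
    have h0 : Algebra.leftMulMatrix (Module.finBasis ℂ A) (u j ^ n) = 0 := by
      rw [map_pow]
      exact pow_zero' u j hu
    rw [hxpow, h0]
    ext1 r l
    simp
  have hPs : P = ∑ i ∈ Finset.range n, (X j ^ (n - 1 - i) : MvPolynomial (Fin c) ℂ) •
      (Algebra.leftMulMatrix (Module.finBasis ℂ A) (u j ^ i)).map
            (C : ℂ → MvPolynomial (Fin c) ℂ) := by
    rw [hP]
    refine Finset.sum_congr rfl fun i _ => ?_
    rw [hypow, hxpow]
  rw [← hPs]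
  -- multiply by the adjugate
  have h1 : (TG u (blk A j)).adjugate * ((x - y) * P) =
      (X j ^ n : MvPolynomial (Fin c) ℂ) • (-(TG u (blk A j)).adjugate) := by
    rw [hgeom, hxn, zero_sub, Matrix.mul_neg, hypow, smul_neg]
  have h2 : (TG u (blk A j)).adjugate * ((x - y) * P) =
      (X j ^ n : MvPolynomial (Fin c) ℂ) • (((-1) ^ n : MvPolynomial (Fin c) ℂ) • P) := by
    rw [← Matrix.mul_assoc, ← hTG, Matrix.adjugate_mul, Matrix.smul_mul, Matrix.one_mul]
    have h3 : (TG u (blk A j)).det = (-X j) ^ n := dG_blk u j hu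
    rw [h3, smul_smul, neg_pow (X j : MvPolynomial (Fin c) ℂ), mul_comm]
  have h4 := h1.symm.trans h2
  ext1 r l
  have h5 := congrFun (congrFun h4 r) l
  rw [Matrix.smul_apply, Matrix.smul_apply, smul_eq_mul, smul_eq_mul] at h5
  have hX : (X j ^ n : MvPolynomial (Fin c) ℂ) ≠ 0 := pow_ne_zero _ (X_ne_zero j)
  have h6 := mul_left_cancel₀ hX h5
  rw [Matrix.neg_apply, Matrix.smul_apply, smul_eq_mul] at h6
  rw [Matrix.smul_apply, smul_eq_mul, neg_mul, ← h6, neg_neg]

private theorem YG_blk_eq {c : ℕ} (u : Fin c → A) (j : Fin c) (hu : IsNilpotent (u j))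
    (k : A) : YG u (blk A j) k j = ∑ i ∈ Finset.range (Module.finrank ℂ A),
      -(-1) ^ Module.finrank ℂ A * (X j ^ (Module.finrank ℂ A - 1 - i) * C (u j ^ i * k)) := by
  set n := Module.finrank ℂ A with hn
  set b := Module.finBasis ℂ A with hb
  unfold YG
  have h1 : ∀ l : Fin n, (if (blk A j l).1 = j then
      map (algebraMap ℂ A) ((TG u (blk A j)).adjugate.mulVec
      (fun s => C (b.repr k s)) l) * C (b (blk A j l).2) else 0) =
      ∑ i ∈ Finset.range n, -(-1) ^ n * (X j ^ (n - 1 - i) *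
        (C (algebraMap ℂ A (b.repr (u j ^ i * k) l) * b l) : MvPolynomial (Fin c) A)) := by
    intro l
    rw [if_pos (show (blk A j l).1 = j from rfl)]
    have hv : (TG u (blk A j)).adjugate.mulVec (fun s => C (b.repr k s)) l =
        ∑ i ∈ Finset.range n, -(-1) ^ n * (X j ^ (n - 1 - i) *
          (C (b.repr (u j ^ i * k) l) : MvPolynomial (Fin c) ℂ)) := by
      rw [adj_blk u j hu, Matrix.smul_mulVec, Pi.smul_apply, Matrix.sum_mulVec,
        Finset.sum_apply, smul_eq_mul, Finset.mul_sum]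
      refine Finset.sum_congr rfl fun i _ => ?_
      congr 1
      rw [Matrix.smul_mulVec, Pi.smul_apply, smul_eq_mul]
      congr 1
      have h3 := congrFun (Algebra.leftMulMatrix_mulVec_repr b (u j ^ i) k) l
      rw [← h3, Matrix.mulVec, Matrix.mulVec, dotProduct, dotProduct, map_sum]
      refine Finset.sum_congr rfl fun s _ => ?_
      rw [Matrix.map_apply, C_mul]
    rw [hv, map_sum, Finset.sum_mul]
    refine Finset.sum_congr rfl fun i _ => ?_
    have h4 : (blk A j l).2 = l := rfl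
    rw [h4, map_mul, map_mul, map_neg, map_pow, map_pow, map_neg, map_one, map_X, map_C, C_mul]
    ring
  have h2 : ∀ i, ∑ l : Fin n, algebraMap ℂ A (b.repr (u j ^ i * k) l) * b l = u j ^ i * k := by
    intro i
    have := b.sum_repr (u j ^ i * k)
    simp only [Algebra.smul_def] at this
    exact this
  refine (Finset.sum_congr rfl fun l _ => h1 l).trans ?_
  rw [Finset.sum_comm]
  refine Finset.sum_congr rfl fun i _ => ?_
  rw [← Finset.mul_sum, ← Finset.mul_sum, ← map_sum, h2]

theorem YG_blk_top [Nontrivial A] {c : ℕ} (u : Fin c → A) (j : Fin c) (hu : IsNilpotent (u j))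
    (k : A) : (X j * (YG u (blk A j) k j -
      C k * (-X j) ^ (Module.finrank ℂ A - 1))).totalDegree < Module.finrank ℂ A := by
  have hnpos : 0 < Module.finrank ℂ A := Module.finrank_pos
  rw [YG_blk_eq u j hu]
  obtain ⟨n, hn⟩ : ∃ n, Module.finrank ℂ A = n + 1 := ⟨Module.finrank ℂ A - 1, by omega⟩
  rw [hn, Finset.sum_range_succ']
  have h0 : (-(-1) ^ (n + 1) * (X j ^ (n + 1 - 1 - 0) * C (u j ^ 0 * k)) :
      MvPolynomial (Fin c) A) = C k * (-X j) ^ (n + 1 - 1) := by
    rw [pow_zero, one_mul, Nat.sub_zero, Nat.add_sub_cancel, neg_pow (X j : MvPolynomial (Fin c) A),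
      pow_succ]
    ring
  rw [h0, add_sub_cancel_right, Finset.mul_sum]
  refine Nat.lt_succ_of_le (totalDegree_finsetSum_le fun i hi => ?_)
  rw [Finset.mem_range] at hi
  have h1 : (X j * (-(-1) ^ (n + 1) * (X j ^ (n + 1 - 1 - (i + 1)) * C (u j ^ (i + 1) * k))) :
      MvPolynomial (Fin c) A) = C (-(-1) ^ (n + 1) * (u j ^ (i + 1) * k)) * X j ^ (n - i) := by
    have h2 : n - i = (n + 1 - 1 - (i + 1)) + 1 := by omega
    have h3 : (C (-(-1) ^ (n + 1) * (u j ^ (i + 1) * k)) : MvPolynomial (Fin c) A) =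
        -(-1) ^ (n + 1) * C (u j ^ (i + 1) * k) := by
      rw [C_mul, C_neg, C_pow, C_neg, C_1]
    rw [h2, pow_succ (X j : MvPolynomial (Fin c) A), h3]
    ring
  rw [h1]
  refine (totalDegree_mul _ _).trans ?_
  rw [totalDegree_C, zero_add]
  refine (totalDegree_pow _ _).trans ?_
  rw [totalDegree_X]
  omega

end Pool.DeQ
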