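import Pool.Agent.Lib.DeQ.Defs

/-!
Module YDeg (100 lines). Degrees of the minors and of the Cramer solutions.
PROOF. The entries of `TT u` have total degree `≤ 1`. A determinant of an `n × n` matrix with entries of total degree `≤ 1` has total degree
`≤ n` (`Matrix.det_apply`, `totalDegree_finset_sum`, products); the adjugate entry `adj i l = det (M.updateRow l (Pi.single i 1))`
(`Matrix.adjugate_apply`) has one row with entries `0, 1`: total degree `≤ n - 1`. `map`, `C _` do not increase the total degree.
`zero`: the constant coefficient of `dG u G` (`eval 0`) is the determinant of `n` columns of the matrix of `(y_j) ↦ ∑ u_j y_j`, whose image is contained in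
the ideal generated by the `u j`; this is a nilpotent ideal, so proper (`A` nontrivial), so the square matrix is not surjective and its determinant is
`0`: if it were not `0`, then `1 = ∑_j u_j y_j` for some `y` (solve with the inverse matrix), but `∑_j u_j y_j` is nilpotent.
-/

set_option autoImplicit false

open MvPolynomial Pool.DeB

namespace Pool.DeQ

variable {A : Type*} [CommRing A] [Algebra ℂ A] [FiniteDimensional ℂ A]

private theorem det_deg {σ : Type*} {n : ℕ} (M : Matrix (Fin n) (Fin n) (MvPolynomial σ ℂ))
    (w : Fin n → ℕ) (h : ∀ i j, (M i j).totalDegree ≤ w i) : M.det.totalDegree ≤ ∑ i, w i := by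
  rw [Matrix.det_apply']
  apply totalDegree_finsetSum_le
  intro p _
  have h1 : (∏ i, M (p i) i).totalDegree ≤ ∑ i, w i := by
    refine le_trans (totalDegree_finsetProd _ _) ?_
    calc ∑ i, (M (p i) i).totalDegree ≤ ∑ i, w (p i) := Finset.sum_le_sum fun i _ => h _ _
      _ = ∑ i, w i := Equiv.sum_comp p w
  have h2 : ∀ e : ℤˣ, (((e : ℤ) : MvPolynomial σ ℂ) * ∏ i, M (p i) i).totalDegree ≤
      ∑ i, w i := by
    intro e
    rcases Int.units_eq_one_or e with he | he
    · rw [he]; simpa using h1
    · rw [he]; simpa using h1
  exact h2 _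

private theorem TT_deg {c : ℕ} (u : Fin c → A) (r : Fin (Module.finrank ℂ A))
    (p : Fin c × Fin (Module.finrank ℂ A)) : (TT u r p).totalDegree ≤ 1 := by
  unfold TT
  rw [Matrix.of_apply]
  refine le_trans (totalDegree_sub _ _) (max_le ?_ ?_)
  · rw [totalDegree_C]; exact Nat.zero_le _
  · split_ifs
    · rw [totalDegree_X]
    · rw [totalDegree_zero]; exact Nat.zero_le _

theorem dG_deg {c : ℕ} (u : Fin c → A) (G : Gam A c) :
    (dG u G).totalDegree ≤ Module.finrank ℂ A := by
  have h := det_deg (TG u G) (fun _ => 1) (fun i j => TT_deg u i (G j))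
  simpa [dG] using h

private theorem adj_deg {c : ℕ} (u : Fin c → A) (G : Gam A c)
    (l s : Fin (Module.finrank ℂ A)) :
    ((TG u G).adjugate l s).totalDegree ≤ Module.finrank ℂ A - 1 := by
  rw [Matrix.adjugate_apply]
  refine le_trans (det_deg _ (fun i => if i = s then 0 else 1) ?_) ?_
  · intro i j
    by_cases h : i = s
    · subst h
      rw [Matrix.updateRow_self, if_pos rfl]
      by_cases h2 : j = l
      · subst h2
        rw [Pi.single_eq_same, totalDegree_one]
      · rw [Pi.single_eq_of_ne h2, totalDegree_zero]
    · rw [Matrix.updateRow_ne h, if_neg h]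
      exact TT_deg u i (G j)
  · have h1 : ∑ i : Fin (Module.finrank ℂ A), (if i = s then 0 else 1) + 1 =
        Module.finrank ℂ A := by
      have h2 : ∑ i : Fin (Module.finrank ℂ A), ((if i = s then 0 else 1) +
          (if i = s then 1 else 0)) = Module.finrank ℂ A := by
        have h3 : ∀ i : Fin (Module.finrank ℂ A), ((if i = s then 0 else 1) +
          (if i = s then 1 else 0)) = 1 := by
          intro i
          split_ifs <;> rfl
        rw [Finset.sum_congr rfl fun i _ => h3 i]
        simp
      rw [Finset.sum_add_distrib, Finset.sum_ite_eq' Finset.univ s] at h2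
      simpa using h2
    omega

private theorem map_deg {σ : Type*} {R S : Type*} [CommSemiring R] [CommSemiring S] (f : R →+* S)
    (p : MvPolynomial σ R) : (map f p).totalDegree ≤ p.totalDegree :=
  Finset.sup_mono (support_map_subset f p)

theorem YG_deg {c : ℕ} (u : Fin c → A) (G : Gam A c) (k : A) (j : Fin c) :
    (YG u G k j).totalDegree ≤ Module.finrank ℂ A - 1 := by
  unfold YG
  apply totalDegree_finsetSum_le
  intro l _
  split_ifs
  · refine le_trans (totalDegree_mul _ _) ?_
    rw [totalDegree_C, add_zero]
    refine le_trans (map_deg _ _) ?_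
    show (∑ s, (TG u G).adjugate l s * C ((Module.finBasis ℂ A).repr k s)).totalDegree ≤ _
    apply totalDegree_finsetSum_le
    intro s _
    refine le_trans (totalDegree_mul _ _) ?_
    rw [totalDegree_C, add_zero]
    exact adj_deg u G l s
  · rw [totalDegree_zero]; exact Nat.zero_le _

theorem dG_zero [Nontrivial A] {c : ℕ} (u : Fin c → A) (hu : ∀ j, IsNilpotent (u j))
    (G : Gam A c) : eval 0 (dG u G) = 0 := by
  classical
  by_contra hdet
  unfold dG at hdet
  rw [RingHom.map_det] at hdet
  set N : Matrix (Fin (Module.finrank ℂ A)) (Fin (Module.finrank ℂ A)) ℂ :=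
    (eval (0 : Fin c → ℂ)).mapMatrix (TG u G) with hN
  set b := Module.finBasis ℂ A with hb
  have hNe : ∀ r l, N r l = b.repr (u (G l).1 * b (G l).2) r := by
    intro r l
    rw [hN, RingHom.mapMatrix_apply, Matrix.map_apply]
    show eval 0 (TT u r (G l)) = _
    unfold TT
    rw [Matrix.of_apply, map_sub, eval_C]
    have : eval (0 : Fin c → ℂ) (if r = (G l).2 then X (G l).1 else 0) = 0 := by
      split_ifs
      · rw [eval_X]; rfl
      · rw [map_zero]
    rw [this, sub_zero]
  have hunit : IsUnit N.det := isUnit_iff_ne_zero.2 hdet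
  set x : Fin (Module.finrank ℂ A) → ℂ := N⁻¹.mulVec (fun r => b.repr 1 r) with hx
  have hNx : N.mulVec x = fun r => b.repr 1 r := by
    rw [hx, Matrix.mulVec_mulVec, Matrix.mul_nonsing_inv _ hunit, Matrix.one_mulVec]
  have hone : ∑ l, x l • (u (G l).1 * b (G l).2) = 1 := by
    apply b.repr.injective
    apply Finsupp.ext
    intro r
    rw [map_sum, Finsupp.finsetSum_apply]
    have h1 := congrFun hNx r
    rw [← h1]
    show _ = ∑ l, N r l * x l
    apply Finset.sum_congr rfl
    intro l _
    rw [map_smul, Finsupp.smul_apply, smul_eq_mul, hNe, mul_comm]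
  have hnil : IsNilpotent (∑ l, x l • (u (G l).1 * b (G l).2)) := by
    apply isNilpotent_sum
    intro l _
    exact (Commute.isNilpotent_mul_right (Commute.all _ _) (hu (G l).1)).smul _
  rw [hone] at hnil
  obtain ⟨m, hm⟩ := hnil
  rw [one_pow] at hm
  exact one_ne_zero hm

end Pool.DeQ
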