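import Pool.Agent.Lib.DeQ.Defs

/-!
Module YRel. The Cramer solutions.
-/

set_option autoImplicit false

open MvPolynomial Pool.DeB

namespace Pool.DeQ

variable {A : Type*} [CommRing A] [Algebra ℂ A] [FiniteDimensional ℂ A]

private theorem col {c : ℕ} (u : Fin c → A) (p : Fin c × Fin (Module.finrank ℂ A)) :
    (C (u p.1) - X p.1 : MvPolynomial (Fin c) A) * C (Module.finBasis ℂ A p.2) =
      ∑ r, map (algebraMap ℂ A) (TT u r p) * C (Module.finBasis ℂ A r) := by
  have h1 : ∀ r, map (algebraMap ℂ A) (TT u r p) * C (Module.finBasis ℂ A r) =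
      C ((Module.finBasis ℂ A).repr (u p.1 * Module.finBasis ℂ A p.2) r • Module.finBasis ℂ A r) -
        if r = p.2 then (X p.1 : MvPolynomial (Fin c) A) * C (Module.finBasis ℂ A r) else 0 := by
    intro r
    show map (algebraMap ℂ A) (C ((Module.finBasis ℂ A).repr (u p.1 * Module.finBasis ℂ A p.2) r) -
      if r = p.2 then X p.1 else 0) * C (Module.finBasis ℂ A r) = _
    rw [map_sub, map_C, sub_mul, ← C_mul, Algebra.smul_def]
    congr 1
    split_ifs
    · rw [map_X]
    · rw [map_zero, zero_mul]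
  simp only [h1]
  rw [Finset.sum_sub_distrib, Finset.sum_ite_eq' Finset.univ p.2, if_pos (Finset.mem_univ _),
    ← map_sum, Module.Basis.sum_repr, sub_mul, C_mul]

theorem YG_rel {c : ℕ} (u : Fin c → A) (G : Gam A c) (k : A) :
    ∑ j, (C (u j) - X j) * YG u G k j = map (algebraMap ℂ A) (dG u G) * C k := by
  have h1 : ∑ j, (C (u j) - X j) * YG u G k j = ∑ l : Fin (Module.finrank ℂ A),
      (C (u (G l).1) - X (G l).1) * (map (algebraMap ℂ A) ((TG u G).adjugate.mulVec
      (fun s => C ((Module.finBasis ℂ A).repr k s)) l) * C (Module.finBasis ℂ A (G l).2)) := by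
    unfold YG
    simp only [Finset.mul_sum]
    rw [Finset.sum_comm]
    refine Finset.sum_congr rfl fun l _ => ?_
    rw [Finset.sum_eq_single (G l).1]
    · rw [if_pos rfl]
    · intro j _ hj
      rw [if_neg (Ne.symm hj), mul_zero]
    · intro h
      exact absurd (Finset.mem_univ _) h
  rw [h1]
  set w : Fin (Module.finrank ℂ A) → MvPolynomial (Fin c) ℂ :=
    (TG u G).adjugate.mulVec (fun s => C ((Module.finBasis ℂ A).repr k s)) with hw
  have h2 : (TG u G).mulVec w = dG u G • (fun s => C ((Module.finBasis ℂ A).repr k s)) := by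
    rw [hw, Matrix.mulVec_mulVec, Matrix.mul_adjugate, Matrix.smul_mulVec, Matrix.one_mulVec]
    rfl
  have h3 : ∀ l, (C (u (G l).1) - X (G l).1 : MvPolynomial (Fin c) A) *
      (map (algebraMap ℂ A) (w l) * C (Module.finBasis ℂ A (G l).2)) =
      ∑ r, map (algebraMap ℂ A) (TG u G r l * w l) * C (Module.finBasis ℂ A r) := by
    intro l
    have e : (C (u (G l).1) - X (G l).1 : MvPolynomial (Fin c) A) *
      (map (algebraMap ℂ A) (w l) * C (Module.finBasis ℂ A (G l).2)) =
      map (algebraMap ℂ A) (w l) * ((C (u (G l).1) - X (G l).1 : MvPolynomial (Fin c) A) *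
        C (Module.finBasis ℂ A (G l).2)) := by ring
    rw [e, col u (G l), Finset.mul_sum]
    refine Finset.sum_congr rfl fun r _ => ?_
    rw [map_mul]
    show _ = map (algebraMap ℂ A) (TT u r (G l)) * _ * _
    ring
  simp only [h3]
  rw [Finset.sum_comm]
  have h4 : ∀ r, ∑ l, map (algebraMap ℂ A) (TG u G r l * w l) * C (Module.finBasis ℂ A r) =
      map (algebraMap ℂ A) (dG u G) * C ((Module.finBasis ℂ A).repr k r • Module.finBasis ℂ A r) := by
    intro r
    rw [← Finset.sum_mul, ← map_sum]
    have e : ∑ l, TG u G r l * w l = dG u G * C ((Module.finBasis ℂ A).repr k r) := by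
      have := congrFun h2 r
      rw [Pi.smul_apply, smul_eq_mul] at this
      rw [← this]
      rfl
    rw [e, map_mul, map_C, Algebra.smul_def, C_mul]
    ring
  simp only [h4]
  rw [← Finset.mul_sum, ← map_sum, Module.Basis.sum_repr]

end Pool.DeQ
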