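import Pool.Agent.Lib.DeQ.Defs
import Pool.Agent.Lib.DeQ.YRel
import Pool.Agent.Lib.DeQ.YDeg
import Pool.Agent.Lib.DeQ.YBlk
import Pool.Agent.Lib.DeQ.DetTop

/-!
Module SysP (150 lines). The generic system and its solutions.
PROOFS. `fp_sys`: `fp u lam i - X i^(n+1) = map (∑ C (lam) dG) - C (tp 1)` has total degree `≤ n` (`dG_deg`). `Yp_rel`: `YG_rel`, and
`(-1)^n X_i (-X_i)^n = X_i^(n+1)` (`dG_blk`). `Yp_top`: `Yp u lam i k j - (if i = j then C (-k) * X i^n else 0)` has total degree `< n`: the sum over `G` has total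
degree `≤ n - 1` (`YG_deg`, `n ≥ 1`); for `j ≠ i` the first term is `0` (`YG_blk_ne`); for `j = i`: `(-1)^n X_i (C k (-X_i)^(n-1)) = C (-k) X_i^n` and
`YG_blk_top`. `DD_top`: `det_top` with `m = n`, `a i = - k i`, `∏ (-k i) = (-1)^c ∏ k i`. `DD_cramer`: `(DDm).mulVec (fun j => C (u j) - X j) = fun i => map (Fp i) * C (k i)` (`Yp_rel`), multiply by the adjugate
(`Matrix.adjugate_mul`). `DD_g`: `map g - C (aeval u g)` is in the ideal generated by the `C (u l) - X l` (induction on `g`, or: `MvPolynomial` version of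
`g(z) - g(v) ∈ (z - v)`), multiplied by `det` it is in the span by `DD_cramer`.
-/

set_option autoImplicit false

open MvPolynomial Pool.DeB

namespace Pool.DeQ

variable {A : Type*} [CommRing A] [Algebra ℂ A] [FiniteDimensional ℂ A] [Nontrivial A]

private theorem sp_sum_le {B σ ι : Type*} [CommRing B] (s : Finset ι) (f : ι → MvPolynomial σ B)
    (g : ι → B) (m : ℕ) (h : ∀ i ∈ s, (f i).totalDegree ≤ m) :
    (∑ i ∈ s, C (g i) * f i).totalDegree ≤ m := by
  refine (totalDegree_finsetSum _ _).trans (Finset.sup_le fun i hi => ?_)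
  refine (totalDegree_mul _ _).trans ?_
  rw [totalDegree_C, zero_add]
  exact h i hi

private theorem sp_map {R S σ : Type*} [CommRing R] [CommRing S] (f : R →+* S)
    (p : MvPolynomial σ R) : (map f p).totalDegree ≤ p.totalDegree := by
  unfold totalDegree
  exact Finset.sup_mono (support_map_subset f p)

theorem fp_sys {c : ℕ} (u : Fin c → A) (lam : Fin c × Gam A c → ℂ) :
    IsSys (Module.finrank ℂ A + 1) (fp u lam) := by
  intro i
  have e : fp u lam i - X i ^ (Module.finrank ℂ A + 1) =
      map (algebraMap ℂ Om) (∑ G : Gam A c, C (lam (i, G)) * dG u G) - C (tp 1) := by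
    unfold fp Fp
    rw [map_add, map_pow, map_X]
    ring
  rw [e]
  refine lt_of_le_of_lt (totalDegree_sub _ _) (max_lt ?_ ?_)
  · refine lt_of_le_of_lt (sp_map _ _) (Nat.lt_succ_of_le ?_)
    exact sp_sum_le _ _ _ _ (fun G _ => dG_deg u G)
  · rw [totalDegree_C]
    omega

theorem Yp_rel {c : ℕ} (u : Fin c → A) (hu : ∀ j, IsNilpotent (u j))
    (lam : Fin c × Gam A c → ℂ) (i : Fin c) (k : A) :
    ∑ j, (C (u j) - X j) * Yp u lam i k j = map (algebraMap ℂ A) (Fp u lam i) * C k := by
  have h1 : ∑ j, (C (u j) - X j) * Yp u lam i k j =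
      (-1) ^ Module.finrank ℂ A * X i * (∑ j, (C (u j) - X j) * YG u (blk A i) k j) +
      ∑ G : Gam A c, C (algebraMap ℂ A (lam (i, G))) * (∑ j, (C (u j) - X j) * YG u G k j) := by
    simp only [Finset.mul_sum]
    rw [Finset.sum_comm, ← Finset.sum_add_distrib]
    refine Finset.sum_congr rfl fun j _ => ?_
    unfold Yp
    rw [mul_add, Finset.mul_sum]
    congr 1
    · ring
    · exact Finset.sum_congr rfl fun G _ => by ring
  rw [h1, YG_rel, dG_blk u i (hu i)]
  have h2 : ∀ G : Gam A c, C (algebraMap ℂ A (lam (i, G))) *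
      (∑ j, (C (u j) - X j) * YG u G k j) =
      C (algebraMap ℂ A (lam (i, G))) * map (algebraMap ℂ A) (dG u G) * C k := by
    intro G
    rw [YG_rel, mul_assoc]
  rw [Finset.sum_congr rfl fun G _ => h2 G, ← Finset.sum_mul]
  unfold Fp
  simp only [map_add, map_pow, map_X, map_sum, map_neg, map_mul, map_C]
  have h3 : (-1 : MvPolynomial (Fin c) A) ^ Module.finrank ℂ A * X i *
      ((-X i) ^ Module.finrank ℂ A * C k) = X i ^ (Module.finrank ℂ A + 1) * C k := by
    have h4 : (-1 : MvPolynomial (Fin c) A) ^ Module.finrank ℂ A *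
        (-X i) ^ Module.finrank ℂ A = X i ^ Module.finrank ℂ A := by
      rw [← mul_pow]
      congr 1
      ring
    calc (-1 : MvPolynomial (Fin c) A) ^ Module.finrank ℂ A * X i *
        ((-X i) ^ Module.finrank ℂ A * C k) =
        ((-1 : MvPolynomial (Fin c) A) ^ Module.finrank ℂ A *
        (-X i) ^ Module.finrank ℂ A) * X i * C k := by ring
      _ = _ := by rw [h4, pow_succ]
  rw [h3]
  ring

private theorem sp_entry {c : ℕ} (u : Fin c → A) (hu : ∀ j, IsNilpotent (u j))
    (lam : Fin c × Gam A c → ℂ) (i j : Fin c) (k : A) :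
    (Yp u lam i k j - (if i = j then C (-k) * X i ^ Module.finrank ℂ A else 0)).totalDegree <
      Module.finrank ℂ A := by
  have hn : 0 < Module.finrank ℂ A := Module.finrank_pos
  have hsum : (∑ G : Gam A c, C (algebraMap ℂ A (lam (i, G))) * YG u G k j).totalDegree <
      Module.finrank ℂ A := by
    refine lt_of_le_of_lt (sp_sum_le _ _ _ (Module.finrank ℂ A - 1)
      (fun G _ => YG_deg u G k j)) (by omega)
  rcases eq_or_ne i j with rfl | hij
  · rw [if_pos rfl]
    have h1 := YG_blk_top u i (hu i) k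
    have e : Yp u lam i k i - C (-k) * X i ^ Module.finrank ℂ A =
        C ((-1) ^ Module.finrank ℂ A) * (X i * (YG u (blk A i) k i -
          C k * (-X i) ^ (Module.finrank ℂ A - 1))) +
        ∑ G : Gam A c, C (algebraMap ℂ A (lam (i, G))) * YG u G k i := by
      unfold Yp
      obtain ⟨n, hn'⟩ : ∃ n, Module.finrank ℂ A = n + 1 := ⟨Module.finrank ℂ A - 1, by omega⟩
      have h2 : (-1 : MvPolynomial (Fin c) A) ^ (n + 1) * (X i * (C k * (-X i) ^ n)) =
          C (-k) * X i ^ (n + 1) := by
        have h3 : (-1 : MvPolynomial (Fin c) A) ^ n * (-X i) ^ n = X i ^ n := by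
          rw [← mul_pow]
          congr 1
          ring
        calc (-1 : MvPolynomial (Fin c) A) ^ (n + 1) * (X i * (C k * (-X i) ^ n)) =
            -(C k * X i * ((-1 : MvPolynomial (Fin c) A) ^ n * (-X i) ^ n)) := by
              rw [pow_succ]; ring
          _ = C (-k) * X i ^ (n + 1) := by rw [h3, map_neg, pow_succ]; ring
      generalize YG u (blk A i) k i = y
      generalize ∑ G : Gam A c, C (algebraMap ℂ A (lam (i, G))) * YG u G k i = S
      have h5 : (C ((-1) ^ (n + 1)) : MvPolynomial (Fin c) A) = (-1) ^ (n + 1) := by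
        rw [C_pow, C_neg, C_1]
      rw [hn', Nat.add_sub_cancel, ← h2, h5]
      ring
    rw [e]
    refine lt_of_le_of_lt (totalDegree_add _ _) (max_lt ?_ hsum)
    refine lt_of_le_of_lt (totalDegree_mul _ _) ?_
    rw [totalDegree_C, zero_add]
    exact h1
  · rw [if_neg hij, sub_zero]
    unfold Yp
    rw [YG_blk_ne u i j (Ne.symm hij) k, mul_zero, zero_add]
    exact hsum

theorem DD_top {c : ℕ} (hc : 1 ≤ c) (u : Fin c → A) (hu : ∀ j, IsNilpotent (u j))
    (lam : Fin c × Gam A c → ℂ) (k : Fin c → A) :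
    ((DDm u lam k).det - C ((-1) ^ c * ∏ i, k i) *
      ∏ i, X i ^ Module.finrank ℂ A).totalDegree < c * Module.finrank ℂ A := by
  have hn : 1 ≤ Module.finrank ℂ A := Module.finrank_pos
  have h := det_top hc hn (DDm u lam k) (fun i => -k i) (fun i j => by
    have h1 := sp_entry u hu lam i j (k i)
    exact h1)
  have e : ∏ i, (-k i) = (-1) ^ c * ∏ i, k i := by
    have h2 : ∏ i, (-k i) = ∏ i, ((-1) * k i) :=
      Finset.prod_congr rfl fun i _ => by ring
    rw [h2, Finset.prod_mul_distrib, Finset.prod_const, Finset.card_univ, Fintype.card_fin]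
  rwa [e] at h

private theorem sp_cramer {c : ℕ} (u : Fin c → A) (hu : ∀ j, IsNilpotent (u j))
    (lam : Fin c × Gam A c → ℂ) (k : Fin c → A) (j : Fin c) :
    (DDm u lam k).det * (C (u j) - X j) ∈
      Ideal.span (Set.range (fun i => map (algebraMap ℂ A) (Fp u lam i))) := by
  have h1 : (DDm u lam k).mulVec (fun j => C (u j) - X j) =
      fun i => map (algebraMap ℂ A) (Fp u lam i) * C (k i) := by
    funext i
    rw [← Yp_rel u hu lam i (k i)]
    unfold Matrix.mulVec DDm
    simp only [dotProduct, Matrix.of_apply]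
    exact Finset.sum_congr rfl fun j _ => mul_comm _ _
  have h2 : (DDm u lam k).adjugate.mulVec
      ((DDm u lam k).mulVec (fun j => C (u j) - X j)) j =
      (DDm u lam k).det * (C (u j) - X j) := by
    rw [Matrix.mulVec_mulVec, Matrix.adjugate_mul, Matrix.smul_mulVec, Matrix.one_mulVec,
      Pi.smul_apply, smul_eq_mul]
  rw [← h2, h1]
  unfold Matrix.mulVec
  simp only [dotProduct]
  refine Ideal.sum_mem _ fun i _ => ?_
  rw [← mul_assoc, mul_comm _ (map (algebraMap ℂ A) (Fp u lam i)), mul_assoc]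
  exact Ideal.mul_mem_right _ _ (Ideal.subset_span ⟨i, rfl⟩)

theorem DD_g {c : ℕ} (u : Fin c → A) (hu : ∀ j, IsNilpotent (u j))
    (lam : Fin c × Gam A c → ℂ) (k : Fin c → A) (g : MvPolynomial (Fin c) ℂ) :
    map (algebraMap ℂ A) g * (DDm u lam k).det - C (aeval u g) * (DDm u lam k).det ∈
      Ideal.span (Set.range (fun i => map (algebraMap ℂ A) (Fp u lam i))) := by
  induction g using MvPolynomial.induction_on with
  | C a =>
    rw [map_C, aeval_C, sub_self]
    exact Ideal.zero_mem _
  | add p q hp hq =>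
    have e : map (algebraMap ℂ A) (p + q) * (DDm u lam k).det -
        C (aeval u (p + q)) * (DDm u lam k).det =
        (map (algebraMap ℂ A) p * (DDm u lam k).det - C (aeval u p) * (DDm u lam k).det) +
        (map (algebraMap ℂ A) q * (DDm u lam k).det - C (aeval u q) * (DDm u lam k).det) := by
      rw [map_add, map_add, map_add]
      ring
    rw [e]
    exact Ideal.add_mem _ hp hq
  | mul_X p j hp =>
    have e : map (algebraMap ℂ A) (p * X j) * (DDm u lam k).det -
        C (aeval u (p * X j)) * (DDm u lam k).det =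
        X j * (map (algebraMap ℂ A) p * (DDm u lam k).det - C (aeval u p) * (DDm u lam k).det) +
        (-C (aeval u p)) * ((DDm u lam k).det * (C (u j) - X j)) := by
      rw [map_mul, map_mul, map_X, aeval_X, map_mul]
      ring
    rw [e]
    exact Ideal.add_mem _ (Ideal.mul_mem_left _ _ hp)
      (Ideal.mul_mem_left _ _ (sp_cramer u hu lam k j))

end Pool.DeQ
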