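import Pool.Agent.Lib.DeQ.Defs
import Pool.Agent.Lib.DeQ.SysP
import Pool.Agent.Lib.DeQ.PhiS
import Pool.Agent.Lib.DeQ.RhoInt

/-!
Module RhoDD (150 lines). The value of the residue functional on `g * DD`.
PROOF. `n = finrank ℂ A ≥ 1`, `D = n + 1`. `DD_g` and `Ideal.mem_span_range_iff_exists_fun`: `map g * DD = C (aeval u g) * DD + ∑_i W_i * map (Fp i)` with `W_i` over `A`.
Apply `phiS φ` (`phiS_add`, `phiS_mul`): `g * phiS φ DD = phiS φ (C a * DD) + ∑_i Fp i * phiS φ W_i`, `a = aeval u g`. Map to `Om` and use `map (Fp i) = fp i + C (tp 1)`: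
`ρ (fp i * _) = 0`, so `ρ (map (g * phiS φ DD)) = ρ (map (phiS φ (C a * DD))) + tp 1 * ∑_i ρ (map (phiS φ W_i))`. Integrality: `ρ (map (algebraMap ℂ Om) P) ∈ VV` for `P` over `ℂ`: `rho_int` with
`B = VV`, `ψ = VV.val`, `f i = map (algebraMap ℂ VV) (Fp i) - C (tV 1)` (`IsSys` as in `fp_sys`; `map ψ (f i) = fp u lam i`: `tV_coe`). So the last term `ε` has order `≥ 1 > 0`.
First term: `phiS φ (C a * DD) = C ((-1)^c φ (a ∏ k)) * ∏ X^n + (total degree < c n)` (`DD_top` multiplied by `C a`: the total degree does not increase;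
`phiS_C_mul`, `phiS_deg`, `phiS_add`), so `ρ` of it is `algebraMap ((-1)^c φ (a ∏ k))` (`hρ.top`, `hρ.low`).
-/

set_option autoImplicit false

open MvPolynomial Pool.DeB

namespace Pool.DeQ

variable {A : Type*} [CommRing A] [Algebra ℂ A] [FiniteDimensional ℂ A] [Nontrivial A]

private theorem rdd_map_deg {σ R S : Type*} [CommRing R] [CommRing S] (f : R →+* S)
    (P : MvPolynomial σ R) : (map f P).totalDegree ≤ P.totalDegree := by
  unfold totalDegree
  exact Finset.sup_mono (support_map_subset f P)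

private theorem rdd_map_deg_inj {σ R S : Type*} [CommRing R] [CommRing S] (f : R →+* S)
    (hf : Function.Injective f) (P : MvPolynomial σ R) :
    (map f P).totalDegree = P.totalDegree := by
  unfold totalDegree
  rw [support_map_of_injective P hf]

private theorem rdd_int {c : ℕ} (hc : 1 ≤ c) (u : Fin c → A)
    (lam : Fin c × Gam A c → ℂ)
    (ρ : MvPolynomial (Fin c) Om →ₗ[Om] Om) (hρ : IsRho (Module.finrank ℂ A + 1) (fp u lam) ρ)
    (P : MvPolynomial (Fin c) ℂ) : (0 : WithTop ℝ) ≤ v (ρ (map (algebraMap ℂ Om) P)) := by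
  have hn : 1 ≤ Module.finrank ℂ A := Module.finrank_pos
  let ψ : VV →+* Om := (VV.val : VV →ₐ[ℂ] Om)
  have hψinj : Function.Injective ψ := Subtype.val_injective
  have hψc : ψ.comp (algebraMap ℂ VV) = algebraMap ℂ Om := by
    ext x
    rfl
  let f : Fin c → MvPolynomial (Fin c) VV := fun i =>
    map (algebraMap ℂ VV) (Fp u lam i) - C (tV 1)
  have hf : ∀ i, map ψ (f i) = fp u lam i := by
    intro i
    show map ψ (map (algebraMap ℂ VV) (Fp u lam i) - C (tV 1)) = _
    rw [map_sub, map_map, map_C, hψc]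
    have h1 : ψ (tV 1) = tp 1 := tV_coe zero_le_one
    rw [h1]
    rfl
  have hsys : IsSys (Module.finrank ℂ A + 1) f := by
    intro i
    have h1 := fp_sys u lam i
    rw [← hf i] at h1
    have h2 : map ψ (f i) - X i ^ (Module.finrank ℂ A + 1) =
        map ψ (f i - X i ^ (Module.finrank ℂ A + 1)) := by
      rw [map_sub (map ψ) (f i), map_pow, map_X]
    rw [h2, rdd_map_deg_inj ψ hψinj] at h1
    exact h1
  have hρ' : IsRho (Module.finrank ℂ A + 1) (fun i => map ψ (f i)) ρ := by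
    have h1 : (fun i => map ψ (f i)) = fp u lam := funext hf
    rw [h1]
    exact hρ
  obtain ⟨β, hβ⟩ := rho_int ψ hc (by omega) f hsys ρ hρ' (map (algebraMap ℂ VV) P)
  rw [map_map, hψc] at hβ
  rw [hβ]
  exact β.2

theorem rho_DD {c : ℕ} (hc : 1 ≤ c) (u : Fin c → A) (hu : ∀ j, IsNilpotent (u j))
    (lam : Fin c × Gam A c → ℂ) (k : Fin c → A) (φ : A →ₗ[ℂ] ℂ) (g : MvPolynomial (Fin c) ℂ)
    (ρ : MvPolynomial (Fin c) Om →ₗ[Om] Om) (hρ : IsRho (Module.finrank ℂ A + 1) (fp u lam) ρ) :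
    ∃ ε : Om, (0 : WithTop ℝ) < v ε ∧
      ρ (map (algebraMap ℂ Om) (g * phiS φ (DDm u lam k).det)) =
        algebraMap ℂ Om ((-1) ^ c * φ (aeval u g * ∏ i, k i)) + ε := by
  have hn : 1 ≤ Module.finrank ℂ A := Module.finrank_pos
  obtain ⟨W, hW⟩ := Ideal.mem_span_range_iff_exists_fun.1 (DD_g u hu lam k g)
  set a : A := aeval u g with ha
  set DD := (DDm u lam k).det with hDD
  let S : MvPolynomial (Fin c) A →+ MvPolynomial (Fin c) ℂ := AddMonoidHom.mk' (phiS φ) (phiS_add φ)
  have hS : ∀ Q, S Q = phiS φ Q := fun _ => rfl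
  have hDl := DD_top hc u hu lam k
  rw [← hDD] at hDl
  set kk : A := (-1) ^ c * ∏ i, k i with hkk
  set Lw := DD - C kk * ∏ i, X i ^ Module.finrank ℂ A with hLw
  have hprod : (∏ i, X i ^ Module.finrank ℂ A : MvPolynomial (Fin c) A) =
      map (algebraMap ℂ A) (∏ i, X i ^ Module.finrank ℂ A) := by
    rw [map_prod]
    refine Finset.prod_congr rfl fun i _ => ?_
    rw [map_pow, map_X]
  -- the two terms
  have e1 : g * phiS φ DD = (C (φ (a * kk)) * (∏ i, X i ^ Module.finrank ℂ A) + phiS φ (C a * Lw)) +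
      ∑ i, Fp u lam i * phiS φ (W i) := by
    have h1 : map (algebraMap ℂ A) g * DD =
        (C (a * kk) * map (algebraMap ℂ A) (∏ i, X i ^ Module.finrank ℂ A) + C a * Lw) +
        ∑ i, map (algebraMap ℂ A) (Fp u lam i) * W i := by
      have h2 : ∑ i, map (algebraMap ℂ A) (Fp u lam i) * W i =
          map (algebraMap ℂ A) g * DD - C a * DD := by
        rw [← hW]
        exact Finset.sum_congr rfl fun i _ => mul_comm _ _
      rw [h2, ← hprod, hLw, C_mul]
      ring
    have h3 := congrArg S h1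
    rw [map_add, map_add, map_sum, hS, hS, hS, phiS_mul, phiS_C_mul] at h3
    rw [h3]
    congr 1
    exact Finset.sum_congr rfl fun i _ => by rw [hS, phiS_mul]
  have e2 : φ (a * kk) = (-1) ^ c * φ (a * ∏ i, k i) := by
    have h1 : a * kk = ((-1 : ℂ) ^ c) • (a * ∏ i, k i) := by
      rw [hkk, Algebra.smul_def, map_pow, map_neg, map_one]
      ring
    rw [h1, map_smul, smul_eq_mul]
  have hlow : ρ (map (algebraMap ℂ Om) (phiS φ (C a * Lw))) = 0 := by
    apply hρ.low
    rw [Nat.add_sub_cancel]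
    calc (map (algebraMap ℂ Om) (phiS φ (C a * Lw))).totalDegree
        ≤ (phiS φ (C a * Lw)).totalDegree := rdd_map_deg _ _
      _ ≤ (C a * Lw).totalDegree := phiS_deg φ _
      _ ≤ (C a : MvPolynomial (Fin c) A).totalDegree + Lw.totalDegree := totalDegree_mul _ _
      _ = Lw.totalDegree := by rw [totalDegree_C, zero_add]
      _ < _ := hDl
  have htop : ρ (map (algebraMap ℂ Om) (C (φ (a * kk)) * ∏ i, X i ^ Module.finrank ℂ A)) =
      algebraMap ℂ Om (φ (a * kk)) := by
    have h1 := hρ.top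
    rw [Nat.add_sub_cancel] at h1
    rw [map_mul, map_C, map_prod, ← smul_eq_C_mul, map_smul]
    have h2 : (∏ i, (map (algebraMap ℂ Om)) (X i ^ Module.finrank ℂ A) :
        MvPolynomial (Fin c) Om) = ∏ i, X i ^ Module.finrank ℂ A :=
      Finset.prod_congr rfl fun i _ => by rw [map_pow, map_X]
    rw [h2, h1, smul_eq_mul, mul_one]
  have hterm : ∀ i, ρ (map (algebraMap ℂ Om) (Fp u lam i * phiS φ (W i))) =
      tp 1 * ρ (map (algebraMap ℂ Om) (phiS φ (W i))) := by
    intro i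
    have h1 : map (algebraMap ℂ Om) (Fp u lam i) = fp u lam i + C (tp 1) := by
      unfold fp
      ring
    rw [map_mul, h1, add_mul, map_add, hρ.mul, zero_add, ← smul_eq_C_mul, map_smul, smul_eq_mul]
  refine ⟨tp 1 * ∑ i, ρ (map (algebraMap ℂ Om) (phiS φ (W i))), ?_, ?_⟩
  · rw [v_mul, v_tp]
    refine add_pos_of_pos_of_nonneg (by norm_num) ?_
    exact v_sum_ge _ _ _ fun i _ => rdd_int hc u lam ρ hρ _
  · rw [e1, map_add, map_add, map_add, map_add, htop, hlow, map_sum, map_sum, e2, add_zero,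
      Finset.mul_sum]
    congr 1
    exact Finset.sum_congr rfl fun i _ => hterm i

end Pool.DeQ
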