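import Pool.Agent.Lib.DeQ.Defs

/-!
Module Sol (90 lines). The solutions are integral.
PROOF. If some `v (q j) < 0` choose `i` with `v (q i) = ν` minimal (`Finset.exists_min_image`), `ν < 0` real (`q_i ≠ 0`).
`0 = eval q (f i) = q_i^D + eval q (f i - X i^D)`; `v (q_i^D) = D ν`; every monomial of `f i - X i^D` has coefficient in `VV` (the coefficients of
`X i ^ D` are in `VV`) and degree `k ≤ D - 1`, so its value has order `≥ k ν ≥ (D-1) ν > D ν` (`v_sum_ge`, `v_mul`, `v_prod`, `v_pow`);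
contradiction with `v (-x) = v x`.
-/

set_option autoImplicit false

open MvPolynomial Pool.DeB

namespace Pool.DeQ

theorem sol_mem_VV {c D : ℕ} (hD : 1 ≤ D) (f : Fin c → MvPolynomial (Fin c) Om)
    (hf : IsSys D f) (hV : ∀ i β, coeff β (f i) ∈ VV) (q : Fin c → Om)
    (hq : ∀ i, eval q (f i) = 0) (j : Fin c) : q j ∈ VV := by
  classical
  by_contra hj
  have hj' : v (q j) < 0 := by
    rw [mem_VV, not_le] at hj
    exact hj
  obtain ⟨i, -, hi⟩ := Finset.exists_min_image (Finset.univ : Finset (Fin c)) (fun k => v (q k))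
    ⟨j, Finset.mem_univ j⟩
  have hilt : v (q i) < 0 := (hi j (Finset.mem_univ j)).trans_lt hj'
  obtain ⟨ν, hν⟩ := WithTop.ne_top_iff_exists.1 (ne_top_of_lt hilt)
  have hν0 : ν < 0 := by
    rw [← hν] at hilt
    exact_mod_cast hilt
  set g : MvPolynomial (Fin c) Om := f i - X i ^ D with hg
  have hgd : g.totalDegree < D := hf i
  have hsum : q i ^ D = - eval q g := by
    have h1 : eval q g = eval q (f i) - q i ^ D := by
      rw [hg, map_sub, map_pow, eval_X]
    rw [h1, hq i, zero_sub, neg_neg]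
  have hvl : v (q i ^ D) = (((D : ℝ) * ν : ℝ) : WithTop ℝ) := by
    rw [v_pow, ← hν, ← WithTop.coe_nsmul, nsmul_eq_mul]
  have hvr : ((((D : ℝ) - 1) * ν : ℝ) : WithTop ℝ) ≤ v (eval q g) := by
    rw [eval_eq']
    apply v_sum_ge
    intro β hβ
    rw [v_mul, v_prod]
    have hβd : β.sum (fun _ e => e) ≤ g.totalDegree := le_totalDegree hβ
    have hβs : β.sum (fun _ e => e) = ∑ k, β k := by
      rw [Finsupp.sum_fintype]
      intro _
      rfl
    have hc : (0 : WithTop ℝ) ≤ v (coeff β g) := by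
      rw [← mem_VV, hg, coeff_sub]
      refine VV.sub_mem (hV i β) ?_
      rw [coeff_X_pow]
      split_ifs
      · exact VV.one_mem
      · exact VV.zero_mem
    have hp : (((∑ k, (β k : ℝ)) * ν : ℝ) : WithTop ℝ) ≤ ∑ k, v (q k ^ β k) := by
      have h2 : (((∑ k, (β k : ℝ)) * ν : ℝ) : WithTop ℝ) =
          ∑ k, β k • ((ν : ℝ) : WithTop ℝ) := by
        rw [Finset.sum_mul, WithTop.coe_sum]
        refine Finset.sum_congr rfl fun k _ => ?_
        rw [← WithTop.coe_nsmul, nsmul_eq_mul]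
      rw [h2]
      refine Finset.sum_le_sum fun k _ => ?_
      rw [v_pow, hν]
      exact nsmul_le_nsmul_right (hi k (Finset.mem_univ k)) _
    have hle : ((D : ℝ) - 1) * ν ≤ (∑ k, (β k : ℝ)) * ν := by
      have h3 : (∑ k, (β k : ℝ)) ≤ (D : ℝ) - 1 := by
        have h4 : ∑ k, β k + 1 ≤ D := by omega
        have h5 : ((∑ k, β k : ℕ) : ℝ) + 1 ≤ D := by exact_mod_cast h4
        push_cast at h5
        linarith
      nlinarith
    calc ((((D : ℝ) - 1) * ν : ℝ) : WithTop ℝ) ≤ (((∑ k, (β k : ℝ)) * ν : ℝ) : WithTop ℝ) := by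
          exact_mod_cast hle
      _ ≤ ∑ k, v (q k ^ β k) := hp
      _ ≤ v (coeff β g) + ∑ k, v (q k ^ β k) := le_add_of_nonneg_left hc
  rw [hsum, v_neg] at hvl
  rw [hvl] at hvr
  have h6 : ((D : ℝ) - 1) * ν ≤ (D : ℝ) * ν := by exact_mod_cast hvr
  linarith

end Pool.DeQ
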