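import Pool.Agent.Lib.DeQ.Defs
import Pool.Agent.Lib.DeQ.Rho
import Pool.Agent.Lib.DeQ.Interp
import Pool.Agent.Lib.DeQ.DerC
import Pool.Agent.Lib.DeQ.Den
import Pool.Agent.Lib.DeQ.Sol
import Pool.Agent.Lib.DeQ.Jac
import Pool.Agent.Lib.DeQ.RhoDD
import Pool.Agent.Lib.DeQ.DDNear
import Pool.Agent.Lib.DeB.AlgCl

/-!
Module BSProd. Theorem BS: the product of `c` elements of the ideal `K` is zero.
-/

set_option autoImplicit false

open MvPolynomial TensorProduct Pool.DeB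

namespace Pool.DeQ

variable {A : Type*} [CommRing A] [Algebra ℂ A] [FiniteDimensional ℂ A] [Nontrivial A]

private theorem v_div_pos {x y : Om} (hy : y ≠ 0) (h : v y < v x) : (0 : WithTop ℝ) < v (x / y) := by
  by_contra hlt
  push Not at hlt
  have e1 : v x = v (x / y) + v y := by rw [← v_mul, div_mul_cancel₀ _ hy]
  rw [e1] at h
  have h2 : v (x / y) + v y ≤ 0 + v y := add_le_add_left hlt _
  rw [zero_add] at h2
  exact absurd h (not_lt.2 h2)

private theorem v_sum_pos {ι : Type*} (s : Finset ι) (f : ι → Om)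
    (h : ∀ k ∈ s, (0 : WithTop ℝ) < v (f k)) : (0 : WithTop ℝ) < v (∑ k ∈ s, f k) := by
  classical
  induction s using Finset.induction_on with
  | empty => rw [Finset.sum_empty, v_zero]; exact WithTop.coe_lt_top 0
  | insert a s ha ih =>
    rw [Finset.sum_insert ha]
    refine lt_of_lt_of_le (lt_min (h a (Finset.mem_insert_self a s)) (ih fun k hk =>
      h k (Finset.mem_insert_of_mem hk))) (v_add_ge _ _)

private theorem eval_map_om {c : ℕ} (q : Fin c → Om) (P : MvPolynomial (Fin c) ℂ) :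
    eval q (map (algebraMap ℂ Om) P) = aeval q P := by
  rw [eval_map, aeval_def]

private theorem aeval_coe {c : ℕ} (q : Fin c → VV) (P : MvPolynomial (Fin c) ℂ) :
    ((aeval q P : VV) : Om) = aeval (fun j => ((q j : VV) : Om)) P := by
  have h := comp_aeval_apply q VV.val P
  exact h

private theorem aeval_mem_VV {c : ℕ} {q : Fin c → Om} (hq : ∀ j, q j ∈ VV)
    (P : MvPolynomial (Fin c) ℂ) : aeval q P ∈ VV := by
  have h := aeval_coe (fun j => (⟨q j, hq j⟩ : VV)) P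
  rw [← h]
  exact Subtype.property _

private theorem v_aeval_ge {c : ℕ} {q : Fin c → Om} {κ : WithTop ℝ} (h0 : 0 ≤ κ)
    (hq : ∀ j, κ ≤ v (q j)) (P : MvPolynomial (Fin c) ℂ) (hP : eval 0 P = 0) :
    κ ≤ v (aeval q P) := by
  have hV : ∀ j, q j ∈ VV := fun j => mem_VV.2 (le_trans h0 (hq j))
  rw [P.as_sum, map_sum]
  apply v_sum_ge
  intro β hβ
  have hβ0 : β ≠ 0 := by
    rintro rfl
    rw [mem_support_iff] at hβ
    apply hβ
    rw [← constantCoeff_eq, ← eval_zero]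
    exact hP
  obtain ⟨j, hj⟩ : ∃ j, β j ≠ 0 := by
    by_contra hcon
    push Not at hcon
    exact hβ0 (Finsupp.ext hcon)
  have e : aeval q (monomial β (coeff β P)) =
      (algebraMap ℂ Om (coeff β P) * ∏ i ∈ Finset.univ.erase j, q i ^ β i) *
        (q j ^ (β j - 1) * q j) := by
    rw [aeval_monomial, Finsupp.prod_fintype _ _ (fun i => pow_zero _)]
    rw [← Finset.prod_erase_mul _ _ (Finset.mem_univ j), ← pow_succ,
      Nat.sub_add_cancel (Nat.one_le_iff_ne_zero.2 hj)]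
    ring
  rw [e, v_mul, v_mul (q j ^ (β j - 1))]
  have h1 : (0 : WithTop ℝ) ≤ v (algebraMap ℂ Om (coeff β P) *
      ∏ i ∈ Finset.univ.erase j, q i ^ β i) := by
    rw [← mem_VV]
    exact VV.mul_mem (VV.algebraMap_mem _) (VV.prod_mem fun i _ => VV.pow_mem (hV i) _)
  have h2 : (0 : WithTop ℝ) ≤ v (q j ^ (β j - 1)) := by
    rw [← mem_VV]
    exact VV.pow_mem (hV j) _
  calc κ ≤ v (q j) := hq j
    _ ≤ v (q j ^ (β j - 1)) + v (q j) := le_add_of_nonneg_left h2
    _ ≤ _ := le_add_of_nonneg_left h1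

theorem bs_prod {c : ℕ} (hc : 1 ≤ c) (u : Fin c → A) (hu : ∀ j, IsNilpotent (u j))
    (k : Fin c → A)
    (hk : ∀ i, ∀ q : Fin c → VV, (∀ j, (0 : WithTop ℝ) < v ((q j : VV) : Om)) →
      (∃ j, v ((q j : VV) : Om) ≤ ((1 : ℝ) : WithTop ℝ)) →
      (∃ h : ℕ, 1 ≤ h ∧ h ≤ (Module.finrank ℂ A + 1) ^ c ∧ ∀ j, ((q j : VV) : Om) ∈ SM h) →
      (1 : VV) ⊗ₜ[ℂ] k i ∈ Ideal.span (Set.range (fun j : Fin c =>
        (1 : VV) ⊗ₜ[ℂ] u j - q j ⊗ₜ[ℂ] (1 : A)))) :
    ∏ i, k i = 0 := by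
  classical
  set n : ℕ := Module.finrank ℂ A with hn
  have hn1 : 1 ≤ n := Module.finrank_pos (R := ℂ) (M := A)
  -- the generic coefficients
  obtain ⟨lam, δ, hδ0, hδ1⟩ := exists_lam
    (Set.range (fun x : Gam A c × (Fin c →₀ ℕ) => coeff x.2 (dG u x.1)))
    (Set.countable_range _) (Fin c × Gam A c)
  have hδ0' : ∀ x (G : Gam A c) β, δ x (coeff β (dG u G)) = 0 :=
    fun x G β => hδ0 x _ ⟨(G, β), rfl⟩
  have hf : IsSys (n + 1) (fp u lam) := fp_sys u lam
  have hFp0 : ∀ i, eval 0 (Fp u lam i) = 0 := by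
    intro i
    unfold Fp
    rw [map_add, map_pow, eval_X, map_sum, Pi.zero_apply, zero_pow (Nat.succ_ne_zero _), zero_add]
    apply Finset.sum_eq_zero
    intro G _
    rw [map_mul, dG_zero u hu G, mul_zero]
  have hsol : ∀ q : Fin c → Om, (∀ i, eval q (fp u lam i) = 0) → ∀ i,
      aeval q (Fp u lam i) = tp 1 := by
    intro q hq i
    have h := hq i
    unfold fp at h
    rw [map_sub, eval_C, eval_map_om] at h
    exact sub_eq_zero.1 h
  have hfV : ∀ i β, coeff β (fp u lam i) ∈ VV := by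
    intro i β
    unfold fp
    rw [coeff_sub, coeff_map, coeff_C]
    refine VV.sub_mem (VV.algebraMap_mem _) ?_
    split_ifs
    · exact tp_mem_VV zero_le_one
    · exact VV.zero_mem
  have hint : ∀ q : Fin c → Om, (∀ i, eval q (fp u lam i) = 0) → ∀ j, q j ∈ VV :=
    fun q hq j => sol_mem_VV (Nat.succ_le_succ (Nat.zero_le _)) _ hf hfV q hq j
  have hblk : ∀ (q : Fin c → Om) (j : Fin c), aeval q (dG u (blk A j)) = (-q j) ^ n := by
    intro q j
    rw [dG_blk u j (hu j), map_pow, map_neg, aeval_X]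
  have hmin : ∀ q : Fin c → Om, (∀ i, eval q (fp u lam i) = 0) → ∃ G : Gam A c,
      aeval q (dG u G) ≠ 0 ∧ ∀ G', v (aeval q (dG u G)) ≤ v (aeval q (dG u G')) := by
    intro q hq
    have hq0 : ∃ j, q j ≠ 0 := by
      by_contra hcon
      push Not at hcon
      have h1 := hsol q hq ⟨0, hc⟩
      have h2 : q = fun _ => 0 := funext hcon
      have h3 : aeval q (Fp u lam ⟨0, hc⟩) = algebraMap ℂ Om (eval 0 (Fp u lam ⟨0, hc⟩)) := by
        rw [h2]
        have h4 := aeval_algebraMap_apply Om (0 : Fin c → ℂ) (Fp u lam ⟨0, hc⟩)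
        rw [← coe_aeval_eq_eval]
        rw [RingHom.coe_coe, ← h4]
        congr 2
        funext j
        simp
      rw [h3, hFp0, map_zero] at h1
      exact tp_ne_zero 1 h1.symm
    obtain ⟨j, hj⟩ := hq0
    obtain ⟨G, -, hG⟩ := Finset.exists_min_image (Finset.univ : Finset (Gam A c))
      (fun G => v (aeval q (dG u G))) ⟨blk A j, Finset.mem_univ _⟩
    refine ⟨G, ?_, fun G' => hG G' (Finset.mem_univ _)⟩
    rw [← v_ne_top]
    intro htop
    have h1 := hG (blk A j) (Finset.mem_univ _)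
    rw [htop, top_le_iff, v_eq_top, hblk] at h1
    exact pow_ne_zero n (neg_ne_zero.2 hj) h1
  have hJ : ∀ q : Fin c → Om, (∀ i, eval q (fp u lam i) = 0) → (Jm (fp u lam) q).det ≠ 0 := by
    intro q hq
    obtain ⟨G, hG, -⟩ := hmin q hq
    exact (jac_bound hc u lam δ hδ0' hδ1 q hq (hint q hq) G hG).1
  obtain ⟨S, hS, hcard, hform⟩ := interp hc (Nat.succ_le_succ hn1) (fp u lam) hf hJ
  obtain ⟨ρ, hρ⟩ := rho_exists (Nat.succ_le_succ (Nat.zero_le n)) (fp u lam) hf
  -- denominators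
  have hden : ∀ q ∈ S, ∃ h : ℕ, 1 ≤ h ∧ h ≤ (n + 1) ^ c ∧ ∀ j, q j ∈ SM h := by
    intro q hq
    refine den_exists (S : Set (Fin c → Om)) S.finite_toSet ?_ ?_ q hq
    · rw [Set.ncard_coe_finset]
      exact hcard
    · intro τ hτ q' hq'
      rw [Finset.mem_coe, hS] at hq' ⊢
      intro i
      have h1 : map τ (fp u lam i) = fp u lam i := by
        ext β
        rw [coeff_map]
        apply hτ
        unfold fp
        rw [coeff_sub, coeff_map, coeff_C]
        refine (SM 1).sub_mem ((SM 1).algebraMap_mem _) ?_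
        split_ifs
        · exact tp_mem_SM ⟨1, by norm_num⟩
        · exact (SM 1).zero_mem
      have h2 : eval (fun j => τ (q' j)) (map τ (fp u lam i)) = τ (eval q' (fp u lam i)) := by
        rw [eval_map]
        exact (eval₂_comp_left τ (RingHom.id Om) q' (fp u lam i)).symm
      rw [← h1, h2, hq' i, map_zero]
  -- the far solutions
  have hfar : ∀ q : {q // q ∈ S ∧ ∃ j, ¬ (0 : WithTop ℝ) < v (q j)}, ∃ (j : Fin c) (a : ℂ),
      a ≠ 0 ∧ v (q.1 j) = 0 ∧ (0 : WithTop ℝ) < v (q.1 j - algebraMap ℂ Om a) := by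
    rintro ⟨q, hq, j, hj⟩
    have hqV := hint q ((hS q).1 hq) j
    have hv0 : v (q j) = 0 := le_antisymm (not_lt.1 hj) (mem_VV.1 hqV)
    have hres : res ⟨q j, hqV⟩ ≠ 0 := by
      rw [Ne, res_eq_zero_iff]
      exact hj
    refine ⟨j, res ⟨q j, hqV⟩, hres, hv0, ?_⟩
    have hm : q j - algebraMap ℂ Om (res ⟨q j, hqV⟩) ∈ VV :=
      VV.sub_mem hqV (VV.algebraMap_mem _)
    rw [v_pos_iff hm, cf_sub, cf_alg, if_pos rfl, res_apply, sub_self]
  choose jf af haf hvf hrf using hfar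
  have hFin : Finite {q // q ∈ S ∧ ∃ j, ¬ (0 : WithTop ℝ) < v (q j)} :=
    Finite.of_injective (fun q => (⟨q.1, q.2.1⟩ : {q // q ∈ S})) (by
      intro a b hab
      have h1 := congrArg (fun x : {q // q ∈ S} => x.1) hab
      exact Subtype.ext h1)
  have hFt : Fintype {q // q ∈ S ∧ ∃ j, ¬ (0 : WithTop ℝ) < v (q j)} := Fintype.ofFinite _
  set g : MvPolynomial (Fin c) ℂ :=
    ∏ q : {q // q ∈ S ∧ ∃ j, ¬ (0 : WithTop ℝ) < v (q j)}, (1 - C (af q)⁻¹ * X (jf q)) with hg
  have hgu : IsUnit (aeval u g) := by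
    rw [hg, map_prod]
    refine Finset.prod_induction _ IsUnit (fun a b => IsUnit.mul) isUnit_one ?_
    intro q _
    rw [map_sub, map_one, map_mul, aeval_C, aeval_X]
    exact ((Commute.all _ _).isNilpotent_mul_left (hu _)).isUnit_one_sub
  -- the estimate
  have hest : ∀ (φ : A →ₗ[ℂ] ℂ), ∀ q ∈ S, v (Jm (fp u lam) q).det <
      v (aeval q (g * phiS φ (DDm u lam k).det)) := by
    intro φ q hqS
    have hq := (hS q).1 hqS
    have hqV := hint q hq
    rw [map_mul, v_mul]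
    by_cases hnear : ∀ j, (0 : WithTop ℝ) < v (q j)
    · -- near solutions
      obtain ⟨G, hG, hGmin⟩ := hmin q hq
      have hj := (jac_bound hc u lam δ hδ0' hδ1 q hq hqV G hG).2.2 hnear
      have hone : ∃ j, v (q j) ≤ ((1 : ℝ) : WithTop ℝ) := by
        obtain ⟨j, -, hjm⟩ := Finset.exists_min_image (Finset.univ : Finset (Fin c))
          (fun j => v (q j)) ⟨⟨0, hc⟩, Finset.mem_univ _⟩
        refine ⟨j, ?_⟩
        have h1 := v_aeval_ge (hnear j).le (fun j' => hjm j' (Finset.mem_univ _))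
          (Fp u lam ⟨0, hc⟩) (hFp0 _)
        rw [hsol q hq, v_tp] at h1
        exact h1
      have hmem := fun i => hk i (fun j => ⟨q j, hqV j⟩) hnear hone (hden q hqS)
      have hdvd := DD_near u lam k (fun j => (⟨q j, hqV j⟩ : VV))
        (aeval (fun j => (⟨q j, hqV j⟩ : VV)) (dG u G)) (fun G' => by
          rw [VV_dvd_iff, aeval_coe, aeval_coe]
          exact hGmin G') hmem φ
      rw [VV_dvd_iff, aeval_coe, SubmonoidClass.coe_pow, v_pow, aeval_coe] at hdvd
      have hgV : (0 : WithTop ℝ) ≤ v (aeval q g) := mem_VV.1 (aeval_mem_VV hqV g)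
      calc v (Jm (fp u lam) q).det < c • v (aeval q (dG u G)) := hj
        _ ≤ v (aeval q (phiS φ (DDm u lam k).det)) := hdvd
        _ ≤ _ := le_add_of_nonneg_left hgV
    · -- far solutions
      push Not at hnear
      have hqf : q ∈ S ∧ ∃ j, ¬ (0 : WithTop ℝ) < v (q j) := by
        obtain ⟨j, hj⟩ := hnear
        exact ⟨hqS, j, not_lt.2 hj⟩
      have hblk0 : v (aeval q (dG u (blk A (jf ⟨q, hqf⟩)))) = 0 := by
        rw [hblk, v_pow, v_neg, hvf ⟨q, hqf⟩, smul_zero]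
      have hj := (jac_bound hc u lam δ hδ0' hδ1 q hq hqV (blk A (jf ⟨q, hqf⟩)) (by
        rw [← v_ne_top, hblk0]
        exact WithTop.coe_ne_top)).2.1
      rw [hblk0, smul_zero] at hj
      have hgpos : (0 : WithTop ℝ) < v (aeval q g) := by
        rw [hg, ← Finset.prod_erase_mul _ _ (Finset.mem_univ
          (⟨q, hqf⟩ : {q // q ∈ S ∧ ∃ j, ¬ (0 : WithTop ℝ) < v (q j)})), map_mul, v_mul]
        refine lt_of_lt_of_le ?_ (le_add_of_nonneg_left (mem_VV.1 (aeval_mem_VV hqV _)))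
        rw [map_sub, map_one, map_mul, aeval_C, aeval_X]
        have e : (1 : Om) - algebraMap ℂ Om (af ⟨q, hqf⟩)⁻¹ * q (jf ⟨q, hqf⟩) =
            algebraMap ℂ Om (-(af ⟨q, hqf⟩)⁻¹) *
              (q (jf ⟨q, hqf⟩) - algebraMap ℂ Om (af ⟨q, hqf⟩)) := by
          have h1 : algebraMap ℂ Om (af ⟨q, hqf⟩)⁻¹ * algebraMap ℂ Om (af ⟨q, hqf⟩) = 1 := by
            rw [← map_mul, inv_mul_cancel₀ (haf ⟨q, hqf⟩), map_one]
          rw [map_neg]
          linear_combination -h1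
        rw [e, v_mul]
        exact lt_of_lt_of_le (hrf ⟨q, hqf⟩) (le_add_of_nonneg_left (v_alg_ge _))
      have hphi : (0 : WithTop ℝ) ≤ v (aeval q (phiS φ (DDm u lam k).det)) :=
        mem_VV.1 (aeval_mem_VV hqV _)
      exact lt_of_le_of_lt hj (lt_of_lt_of_le hgpos (le_add_of_nonneg_right hphi))
  -- conclusion
  have hzero : aeval u g * ∏ i, k i = 0 := by
    rw [← Module.forall_dual_apply_eq_zero_iff ℂ]
    intro φ
    obtain ⟨ε, hε, hρε⟩ := rho_DD hc u hu lam k φ g ρ hρ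
    rw [hform ρ hρ] at hρε
    have hpos : (0 : WithTop ℝ) < v (∑ q ∈ S, eval q (map (algebraMap ℂ Om)
        (g * phiS φ (DDm u lam k).det)) / (Jm (fp u lam) q).det) := by
      apply v_sum_pos
      intro q hq
      rw [eval_map_om]
      exact v_div_pos (hJ q ((hS q).1 hq)) (hest φ q hq)
    rw [hρε] at hpos
    have h1 : (0 : WithTop ℝ) < v (algebraMap ℂ Om ((-1) ^ c * φ (aeval u g * ∏ i, k i))) := by
      have h2 := v_sub_ge (algebraMap ℂ Om ((-1) ^ c * φ (aeval u g * ∏ i, k i)) + ε) ε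
      rw [add_sub_cancel_right] at h2
      exact lt_of_lt_of_le (lt_min hpos hε) h2
    by_contra hne
    have h3 : (-1 : ℂ) ^ c * φ (aeval u g * ∏ i, k i) ≠ 0 :=
      mul_ne_zero (pow_ne_zero _ (by norm_num)) hne
    rw [v_alg h3] at h1
    exact lt_irrefl _ h1
  exact (hgu.mul_right_eq_zero).1 hzero

end Pool.DeQ
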