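import Pool.Agent.Lib.DeB.NDefs

/-!
# Quasi-polynomial debordering of border Waring rank (MP_e00b88_lc): definitions
Paper: /team-store/MP_e00b88_lc_bs55.md (helper55), built on the library DeB of helper19.

`z = (z_0, ..., z_{c-1})` are the variables `X j` of `MvPolynomial (Fin c) _`. `A` is a finite-dimensional
commutative `ℂ`-algebra, `n = dim A`, `v_j ∈ A` nilpotent. `TT v` is the matrix of
`(y_j)_j ↦ ∑ (v_j - z_j) y_j`, `dG v G` its maximal minors, `YG v G k` the Cramer solution of
`∑_j (v_j - z_j) Y_j = d_G k`. `Fp` is the generic system `z_i^(n+1) + ∑_G λ_{iG} d_G`, `fp = Fp - t`,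
`Yp` the corresponding solutions, `DDm` the matrix of the solutions for `k_0, ..., k_{c-1}`.
-/

set_option autoImplicit false

open MvPolynomial TensorProduct Pool.DeB

namespace Pool.DeQ

section Sys
variable {B : Type*} [CommRing B] {c : ℕ}

/-- `f_i = z_i ^ D + (terms of total degree < D)` -/
def IsSys (D : ℕ) (f : Fin c → MvPolynomial (Fin c) B) : Prop :=
  ∀ i, (f i - X i ^ D).totalDegree < D

/-- the residue functional of a system: it kills the ideal, the polynomials of degree `< c (D-1)`, and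
is `1` at `∏ z_i ^ (D-1)`. -/
structure IsRho (D : ℕ) (f : Fin c → MvPolynomial (Fin c) B)
    (ρ : MvPolynomial (Fin c) B →ₗ[B] B) : Prop where
  mul : ∀ i W, ρ (f i * W) = 0
  low : ∀ W : MvPolynomial (Fin c) B, W.totalDegree < c * (D - 1) → ρ W = 0
  top : ρ (∏ i, X i ^ (D - 1)) = 1

/-- the Jacobian matrix at `q` -/
noncomputable def Jm (f : Fin c → MvPolynomial (Fin c) B) (q : Fin c → B) :
    Matrix (Fin c) (Fin c) B := Matrix.of fun i j => eval q (pderiv j (f i))

end Sys

section Alg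
variable {A : Type*} [CommRing A] [Algebra ℂ A] {c : ℕ}

/-- a functional applied to the coefficients -/
noncomputable def phiS (φ : A →ₗ[ℂ] ℂ) (W : MvPolynomial (Fin c) A) : MvPolynomial (Fin c) ℂ :=
  ∑ β ∈ W.support, monomial β (φ (coeff β W))

theorem coeff_phiS (φ : A →ₗ[ℂ] ℂ) (W : MvPolynomial (Fin c) A) (β : Fin c →₀ ℕ) :
    coeff β (phiS φ W) = φ (coeff β W) := by
  classical
  unfold phiS
  rw [coeff_sum]
  simp only [coeff_monomial]
  rw [Finset.sum_ite_eq']
  split_ifs with h
  · rfl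
  · rw [notMem_support_iff.1 h, map_zero]

/-- evaluation of polynomials over `A` at a point of `VV ^ c` -/
noncomputable def evA (q : Fin c → VV) : MvPolynomial (Fin c) A →+* VV ⊗[ℂ] A :=
  eval₂Hom ((Algebra.TensorProduct.includeRight : A →ₐ[ℂ] VV ⊗[ℂ] A) : A →+* VV ⊗[ℂ] A)
    (fun j => algebraMap VV (VV ⊗[ℂ] A) (q j))

/-- a functional on `A` extended to `VV ⊗ A` -/
noncomputable def phiT (φ : A →ₗ[ℂ] ℂ) : VV ⊗[ℂ] A →ₗ[VV] VV :=
  (TensorProduct.AlgebraTensorModule.rid ℂ VV VV).toLinearMap ∘ₗ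
    TensorProduct.AlgebraTensorModule.lTensor VV VV φ

theorem phiT_tmul (φ : A →ₗ[ℂ] ℂ) (f : VV) (a : A) : phiT φ (f ⊗ₜ[ℂ] a) = φ a • f := by
  simp [phiT]

variable [FiniteDimensional ℂ A]

variable (A) in
/-- the index set of the maximal minors: `n` columns out of `c × n` -/
abbrev Gam (c : ℕ) : Type := Fin (Module.finrank ℂ A) → Fin c × Fin (Module.finrank ℂ A)

/-- the matrix of `(y_j) ↦ ∑ (v_j - z_j) y_j` in the basis `finBasis` -/
noncomputable def TT (v : Fin c → A) : Matrix (Fin (Module.finrank ℂ A))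
    (Fin c × Fin (Module.finrank ℂ A)) (MvPolynomial (Fin c) ℂ) :=
  Matrix.of fun r p => C ((Module.finBasis ℂ A).repr (v p.1 * Module.finBasis ℂ A p.2) r) -
    if r = p.2 then X p.1 else 0

/-- the square submatrix with columns `G` -/
noncomputable def TG (v : Fin c → A) (G : Gam A c) : Matrix (Fin (Module.finrank ℂ A))
    (Fin (Module.finrank ℂ A)) (MvPolynomial (Fin c) ℂ) := (TT v).submatrix id G

/-- the maximal minors -/
noncomputable def dG (v : Fin c → A) (G : Gam A c) : MvPolynomial (Fin c) ℂ := (TG v G).det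

/-- the Cramer solution of `∑_j (v_j - z_j) Y_j = d_G k` -/
noncomputable def YG (v : Fin c → A) (G : Gam A c) (k : A) (j : Fin c) : MvPolynomial (Fin c) A :=
  ∑ l : Fin (Module.finrank ℂ A), if (G l).1 = j then
    map (algebraMap ℂ A) ((TG v G).adjugate.mulVec
      (fun s => C ((Module.finBasis ℂ A).repr k s)) l) * C (Module.finBasis ℂ A (G l).2) else 0

variable (A) in
/-- the block of the columns of `v_j - z_j` -/
def blk (j : Fin c) : Gam A c := fun l => (j, l)

/-- the generic system -/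
noncomputable def Fp (v : Fin c → A) (lam : Fin c × Gam A c → ℂ) (i : Fin c) :
    MvPolynomial (Fin c) ℂ :=
  X i ^ (Module.finrank ℂ A + 1) + ∑ G : Gam A c, C (lam (i, G)) * dG v G

/-- the system `Fp = t` over the Hahn field -/
noncomputable def fp (v : Fin c → A) (lam : Fin c × Gam A c → ℂ) (i : Fin c) :
    MvPolynomial (Fin c) Om := map (algebraMap ℂ Om) (Fp v lam i) - C (tp 1)

/-- the solution of `∑_j (v_j - z_j) Y_j = F_i k` -/
noncomputable def Yp (v : Fin c → A) (lam : Fin c × Gam A c → ℂ) (i : Fin c) (k : A) (j : Fin c) :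
    MvPolynomial (Fin c) A :=
  (-1) ^ Module.finrank ℂ A * X i * YG v (blk A i) k j +
    ∑ G : Gam A c, C (algebraMap ℂ A (lam (i, G))) * YG v G k j

/-- the matrix of the solutions for `k_0, ..., k_{c-1}` -/
noncomputable def DDm (v : Fin c → A) (lam : Fin c × Gam A c → ℂ) (k : Fin c → A) :
    Matrix (Fin c) (Fin c) (MvPolynomial (Fin c) A) := Matrix.of fun i j => Yp v lam i (k i) j

end Alg

end Pool.DeQ
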